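import Mathlib
import Pool.Agent.Helper99.BD8.Defs

/-!
Basic identities in alternative rings (all characteristics).
-/

set_option autoImplicit false

namespace Pool.Agent.Helper1.BD8

open Pool.Agent.Helper99.BD8

variable {A : Type} [NonUnitalNonAssocRing A]

/-- the associator -/
def as (x y z : A) : A := (x * y) * z - x * (y * z)

section

variable (halt : Alt A)
include halt

theorem as_left (x z y : A) : as x z y = - as z x y := by
  unfold as
  linear_combination (norm := (first
      | (simp only [mul_add, add_mul, mul_sub, sub_mul, mul_neg, neg_mul, mul_zero, zero_mul]; abel)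
      | (simp only [mul_add, add_mul, mul_sub, sub_mul, mul_neg, neg_mul, mul_zero, zero_mul]; done)
      | abel)) (halt (x + z) y).1 - (halt x y).1 - (halt z y).1

theorem as_right (x y z : A) : as x y z = - as x z y := by
  unfold as
  linear_combination (norm := (first
      | (simp only [mul_add, add_mul, mul_sub, sub_mul, mul_neg, neg_mul, mul_zero, zero_mul]; abel)
      | (simp only [mul_add, add_mul, mul_sub, sub_mul, mul_neg, neg_mul, mul_zero, zero_mul]; done)
      | abel)) (halt (y + z) x).2 - (halt y x).2 - (halt z x).2

theorem as_cyc (x y z : A) : as x y z = as y z x := by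
  rw [as_left halt, as_right halt, neg_neg]

theorem as_xxy (x y : A) : as x x y = 0 := by
  unfold as
  linear_combination (norm := (first
      | (simp only [mul_add, add_mul, mul_sub, sub_mul, mul_neg, neg_mul, mul_zero, zero_mul]; abel)
      | (simp only [mul_add, add_mul, mul_sub, sub_mul, mul_neg, neg_mul, mul_zero, zero_mul]; done)
      | abel)) (halt x y).1

theorem as_yxx (x y : A) : as y x x = 0 := by
  unfold as
  linear_combination (norm := (first
      | (simp only [mul_add, add_mul, mul_sub, sub_mul, mul_neg, neg_mul, mul_zero, zero_mul]; abel)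
      | (simp only [mul_add, add_mul, mul_sub, sub_mul, mul_neg, neg_mul, mul_zero, zero_mul]; done)
      | abel)) (halt x y).2

theorem flex (x y : A) : (x * y) * x = x * (y * x) := by
  have h : as x y x = 0 := by rw [as_right halt, as_xxy halt, neg_zero]
  unfold as at h
  linear_combination (norm := (first
      | (simp only [mul_add, add_mul, mul_sub, sub_mul, mul_neg, neg_mul, mul_zero, zero_mul]; abel)
      | (simp only [mul_add, add_mul, mul_sub, sub_mul, mul_neg, neg_mul, mul_zero, zero_mul]; done)
      | abel)) h

theorem moufL (x a y : A) : x * (a * (x * y)) = ((x * a) * x) * y := by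
  have h1 := as_left halt (x * a) x y
  have h2 := as_right halt x a (x * y)
  have h3 := (halt x a).1
  have h4 := (halt x y).1
  have h5 := as_right halt (x * x) a y
  have h6 := (halt x (a * y)).1
  have h7 := (halt x (y * a)).1
  have h8 := as_right halt x a y
  unfold as at h1 h2 h5 h8
  -- the goal is a combination
  have h9 : (x * (x * a)) * y = ((x * x) * a) * y := by rw [h3]
  have h10 : (x * (x * y)) * a = ((x * x) * y) * a := by rw [h4]
  have h11 : x * ((x * a) * y - x * (a * y)) = x * (-((x * y) * a - x * (y * a))) := by rw [h8]
  linear_combination (norm := (first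
      | (simp only [mul_add, add_mul, mul_sub, sub_mul, mul_neg, neg_mul, mul_zero, zero_mul]; abel)
      | (simp only [mul_add, add_mul, mul_sub, sub_mul, mul_neg, neg_mul, mul_zero, zero_mul]; done)
      | abel)) (-h1 - h2 + h9 + h10 + h5 + h6 + h7 - h11)

theorem moufR (z a x : A) : ((z * x) * a) * x = z * (x * (a * x)) := by
  have h1 := as_right halt z x (a * x)
  have h2 := as_left halt (z * x) a x
  have h3 := (halt x a).2
  have h4 := (halt x z).2
  have h5 := as_left halt a z (x * x)
  have h6 := (halt x (a * z)).2
  have h7 := (halt x (z * a)).2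
  have h8 := as_left halt z a x
  unfold as at h1 h2 h5 h8
  have h9 : z * ((a * x) * x) = z * (a * (x * x)) := by rw [h3]
  have h10 : a * ((z * x) * x) = a * (z * (x * x)) := by rw [h4]
  have h11 : ((z * a) * x - z * (a * x)) * x = (-((a * z) * x - a * (z * x))) * x := by rw [h8]
  linear_combination (norm := (first
      | (simp only [mul_add, add_mul, mul_sub, sub_mul, mul_neg, neg_mul, mul_zero, zero_mul]; abel)
      | (simp only [mul_add, add_mul, mul_sub, sub_mul, mul_neg, neg_mul, mul_zero, zero_mul]; done)
      | abel)) (h1 + h2 + h9 + h10 - h5 - h6 - h7 + h11)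

theorem moufM (x y z : A) : (x * y) * (z * x) = (x * (y * z)) * x := by
  have h1 := as_right halt x y (z * x)
  have h2 := moufL halt x z y
  have h3 := flex halt x z
  have h4 := as_cyc halt y z x
  have h5 := as_cyc halt z x y
  have h6 := flex halt x (y * z)
  unfold as at h1 h4 h5
  have h7 : (x * (z * x)) * y = ((x * z) * x) * y := by rw [h3]
  have h8 : x * ((y * z) * x - y * (z * x)) = x * ((z * x) * y - z * (x * y)) := by rw [h4]
  linear_combination (norm := (first
      | (simp only [mul_add, add_mul, mul_sub, sub_mul, mul_neg, neg_mul, mul_zero, zero_mul]; abel)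
      | (simp only [mul_add, add_mul, mul_sub, sub_mul, mul_neg, neg_mul, mul_zero, zero_mul]; done)
      | abel)) (h1 - h7 + h2 - h6 - h8)

/-- `(x, z x, y) = x (x, z, y)` -/
theorem a3L (x z y : A) : as x (z * x) y = x * as x z y := by
  have h1 := moufL halt x z y
  have h2 := flex halt x z
  have h3 := as_left halt x z y
  have h4 : (x * (z * x)) * y = ((x * z) * x) * y := by rw [h2]
  have h5 : x * as x z y = x * (- as z x y) := by rw [h3]
  rw [h5]
  unfold as
  linear_combination (norm := (first
      | (simp only [mul_add, add_mul, mul_sub, sub_mul, mul_neg, neg_mul, mul_zero, zero_mul]; abel)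
      | (simp only [mul_add, add_mul, mul_sub, sub_mul, mul_neg, neg_mul, mul_zero, zero_mul]; done)
      | abel)) (h4 - h1)

/-- `(x, x z, y) = (x, z, y) x` -/
theorem a3R (x z y : A) : as x (x * z) y = as x z y * x := by
  have h1 := moufR halt y z x
  have h2 := flex halt x z
  have e1 : as x (x * z) y = - as y (x * z) x := by
    rw [as_cyc halt x, as_left halt, as_cyc halt y (x * z) x]
  have e2 : as x z y = as y x z := by
    rw [as_cyc halt y]
  rw [e1, e2]
  have h3 : y * (x * (z * x)) = y * ((x * z) * x) := by rw [h2]
  unfold as
  linear_combination (norm := (first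
      | (simp only [mul_add, add_mul, mul_sub, sub_mul, mul_neg, neg_mul, mul_zero, zero_mul]; abel)
      | (simp only [mul_add, add_mul, mul_sub, sub_mul, mul_neg, neg_mul, mul_zero, zero_mul]; done)
      | abel)) (-h1 - h3)

/-- left multiplication by a product -/
theorem mul_mulL (a u v : A) : (a * u) * v = a * (u * v) + (u * v) * a - u * (v * a) := by
  have h := as_cyc halt a u v
  unfold as at h
  linear_combination (norm := (first
      | (simp only [mul_add, add_mul, mul_sub, sub_mul, mul_neg, neg_mul, mul_zero, zero_mul]; abel)
      | (simp only [mul_add, add_mul, mul_sub, sub_mul, mul_neg, neg_mul, mul_zero, zero_mul]; done)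
      | abel)) h

theorem mul_mulL' (a u v : A) : (u * a) * v = u * (a * v) - (u * v) * a + u * (v * a) := by
  have h := as_right halt u a v
  unfold as at h
  linear_combination (norm := (first
      | (simp only [mul_add, add_mul, mul_sub, sub_mul, mul_neg, neg_mul, mul_zero, zero_mul]; abel)
      | (simp only [mul_add, add_mul, mul_sub, sub_mul, mul_neg, neg_mul, mul_zero, zero_mul]; done)
      | abel)) h

theorem mul_mulR (a u v : A) : v * (u * a) = (v * u) * a + a * (v * u) - (a * v) * u := by
  have h := as_cyc halt a v u
  unfold as at h
  linear_combination (norm := (first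
      | (simp only [mul_add, add_mul, mul_sub, sub_mul, mul_neg, neg_mul, mul_zero, zero_mul]; abel)
      | (simp only [mul_add, add_mul, mul_sub, sub_mul, mul_neg, neg_mul, mul_zero, zero_mul]; done)
      | abel)) h

theorem mul_mulR' (a u v : A) : v * (a * u) = (v * a) * u - a * (v * u) + (a * v) * u := by
  have h := as_left halt a v u
  unfold as at h
  linear_combination (norm := (first
      | (simp only [mul_add, add_mul, mul_sub, sub_mul, mul_neg, neg_mul, mul_zero, zero_mul]; abel)
      | (simp only [mul_add, add_mul, mul_sub, sub_mul, mul_neg, neg_mul, mul_zero, zero_mul]; done)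
      | abel)) (-h)

end

end Pool.Agent.Helper1.BD8
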