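import Mathlib

/-!
The Ryll-Nardzewski theorem (one direction): a countable model of a countably categorical
complete theory in a countable language has finitely many orbits on tuples.
-/

set_option autoImplicit false

namespace Pool.Agent.Helper1.BD8.RN

open FirstOrder FirstOrder.Language Cardinal Filter

variable (L : FirstOrder.Language.{0, 0})

/-- equality of types of tuples -/
def EqTp {M N : Type} [L.Structure M] [L.Structure N] {α : Type} (x : α → M) (y : α → N) : Prop :=
  ∀ φ : L.Formula α, φ.Realize x ↔ φ.Realize y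

variable {L}

section basic

variable {M N P : Type} [L.Structure M] [L.Structure N] [L.Structure P] {α β : Type}

theorem EqTp.symm {x : α → M} {y : α → N} (h : EqTp L x y) : EqTp L y x := fun φ => (h φ).symm

theorem EqTp.trans {x : α → M} {y : α → N} {z : α → P} (h : EqTp L x y) (h' : EqTp L y z) :
    EqTp L x z := fun φ => (h φ).trans (h' φ)

theorem EqTp.comp {x : α → M} {y : α → N} (h : EqTp L x y) (r : β → α) :
    EqTp L (x ∘ r) (y ∘ r) := by
  intro φ
  rw [← Formula.realize_relabel, ← Formula.realize_relabel]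
  exact h _

theorem eqTp_equiv (g : M ≃[L] N) (x : α → M) : EqTp L x (g ∘ x) :=
  fun φ => (StrongHomClass.realize_formula g φ).symm

theorem eqTp_coe (S : L.ElementarySubstructure M) (x : α → S) :
    EqTp L x (Subtype.val ∘ x : α → M) := by
  intro φ
  exact (S.subtype.map_formula φ x).symm

end basic

section main

variable {M : Type} [L.Structure M] [Countable M] [Infinite M]

theorem exists_iso (hcat : Categorical aleph0.{0} (L.completeTheory M)) (N : Type) [L.Structure N]
    [Countable N] [Infinite N] (h : N ≅[L] M) : Nonempty (N ≃[L] M) := by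
  have : N ⊨ L.completeTheory M := by
    have h1 : M ⊨ L.completeTheory M := inferInstance
    exact h.theory_model_iff.2 h1
  exact hcat (Theory.ModelType.of _ N) (Theory.ModelType.of _ M) (mk_eq_aleph0 N) (mk_eq_aleph0 M)

/-- compactness inside `M` -/
theorem exists_limit [Countable L.Symbols] (hcat : Categorical aleph0.{0} (L.completeTheory M))
    {β : Type} [Countable β] (v : ℕ → β → M) :
    ∃ w : β → M, ∀ φ : L.Formula β, (∀ᶠ k in atTop, φ.Realize (v k)) → φ.Realize w := by
  let u : Ultrafilter ℕ := hyperfilter ℕ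
  let N : Type := (u : Filter ℕ).Product (fun _ => M)
  have hu : (u : Filter ℕ) ≤ atTop := Nat.hyperfilter_le_atTop
  let w' : β → N := fun b => ((fun k => v k b : ℕ → M) : (u : Filter ℕ).Product (fun _ => M))
  have hw' : ∀ φ : L.Formula β, (∀ᶠ k in atTop, φ.Realize (v k)) → φ.Realize w' := by
    intro φ hφ
    have := (Ultraproduct.realize_formula_cast (u := u) (M := fun _ => M) φ
      (fun b k => v k b)).2 (hu hφ)
    exact this
  have hNM : N ≅[L] M := by
    rw [elementarilyEquivalent_iff]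
    intro φ
    have := Ultraproduct.sentence_realize (u := u) (M := fun _ => M) φ
    rw [eventually_const] at this
    exact this
  have hNinf : Infinite N := hNM.symm.infinite
  obtain ⟨S, hS1, hS2⟩ := exists_elementarySubstructure_card_eq L (M := N) (Set.range w') aleph0.{0} le_rfl
    (by
      simp only [lift_id]
      exact (Set.countable_range w').le_aleph0)
    (by
      simp only [lift_id]
      exact Cardinal.mk_le_aleph0_iff.2 inferInstance)
    (by
      simp only [lift_id]
      exact aleph0_le_mk N)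
  simp only [lift_id] at hS2
  have : Countable S := Cardinal.mk_le_aleph0_iff.1 hS2.le
  have : Infinite S := Cardinal.infinite_iff.2 hS2.ge
  obtain ⟨h⟩ := exists_iso hcat S (S.elementarilyEquivalent.trans hNM)
  let w'' : β → S := fun b => ⟨w' b, hS1 ⟨b, rfl⟩⟩
  refine ⟨h ∘ w'', fun φ hφ => ?_⟩
  rw [← eqTp_equiv h w'' φ, eqTp_coe S w'' φ]
  exact hw' φ hφ

end main

section definable

variable (L) (M : Type) [L.Structure M]

/-- sets of sequences defined by a formula -/
def FD (D : Set (ℕ → M)) : Prop :=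
  ∃ (n : ℕ) (φ : L.Formula (Fin n)), D = {v | φ.Realize fun i : Fin n => v i}

variable {L} {M}

theorem exists_bound {γ : Type} [Finite γ] (i : γ → ℕ) : ∃ K, ∀ c, i c < K := by
  obtain ⟨C, hC⟩ := (Set.finite_range i).bddAbove
  exact ⟨C + 1, fun c => Nat.lt_succ_of_le (hC ⟨c, rfl⟩)⟩

theorem FD.of_formula {γ : Type} [Finite γ] (φ : L.Formula γ) (i : γ → ℕ) :
    FD L M {v | φ.Realize (v ∘ i)} := by
  obtain ⟨K, hK⟩ := exists_bound i
  refine ⟨K, φ.relabel fun c => (⟨i c, hK c⟩ : Fin K), ?_⟩
  ext v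
  simp only [Set.mem_ofPred_eq, Formula.realize_relabel]
  rfl

theorem FD.of_bounded {n : ℕ} (φ : L.BoundedFormula Empty n) (i : Fin n → ℕ) :
    FD L M {v | φ.Realize default (v ∘ i)} := by
  have h := FD.of_formula (M := M) φ.toFormula (Sum.elim Empty.elim i)
  convert! h using 1
  ext v
  simp only [Set.mem_ofPred_eq]
  rw [BoundedFormula.realize_toFormula]
  have : (v ∘ Sum.elim Empty.elim i) ∘ Sum.inl = (default : Empty → M) := Subsingleton.elim _ _
  rw [this]
  rfl

theorem FD.mono {D : Set (ℕ → M)} (h : FD L M D) :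
    ∃ (n : ℕ), ∀ m, n ≤ m → ∃ (φ : L.Formula (Fin m)), D = {v | φ.Realize fun i : Fin m => v i} := by
  obtain ⟨n, φ, rfl⟩ := h
  refine ⟨n, fun m hm => ⟨φ.relabel (Fin.castLE hm), ?_⟩⟩
  ext v
  simp only [Set.mem_ofPred_eq, Formula.realize_relabel]
  rfl

theorem FD.inter {D D' : Set (ℕ → M)} (h : FD L M D) (h' : FD L M D') : FD L M (D ∩ D') := by
  obtain ⟨n, hn⟩ := h.mono
  obtain ⟨n', hn'⟩ := h'.mono
  obtain ⟨φ, rfl⟩ := hn (max n n') (le_max_left _ _)
  obtain ⟨φ', rfl⟩ := hn' (max n n') (le_max_right _ _)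
  refine ⟨max n n', φ ⊓ φ', ?_⟩
  ext v
  simp only [Set.mem_ofPred_eq, Formula.realize_inf, Set.mem_inter_iff]

theorem FD.support {D : Set (ℕ → M)} (h : FD L M D) :
    ∃ n, ∀ v v' : ℕ → M, (∀ i < n, v i = v' i) → v ∈ D → v' ∈ D := by
  obtain ⟨n, φ, rfl⟩ := h
  refine ⟨n, fun v v' hv h => ?_⟩
  have : (fun i : Fin n => v i) = fun i : Fin n => v' i := funext fun i => hv i i.2
  simp only [Set.mem_ofPred_eq] at h ⊢
  rwa [← this]

theorem FD.proj [Nonempty M] {D : Set (ℕ → M)} (h : FD L M D) {α : Type} [Finite α] (i : α → ℕ) :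
    ∃ φ : L.Formula α, ∀ x : α → M, φ.Realize x ↔ ∃ v ∈ D, v ∘ i = x := by
  classical
  obtain ⟨n, hn⟩ := h.mono
  obtain ⟨K', hK'⟩ := exists_bound i
  obtain ⟨φ, rfl⟩ := hn (max n K') (le_max_left _ _)
  have hK : ∀ c, i c < max n K' := fun c => (hK' c).trans_le (le_max_right _ _)
  generalize max n K' = K at hK φ
  let χ : L.Formula (α ⊕ Fin K) := φ.relabel Sum.inr ⊓
    Formula.iInf fun a : α => Term.equal (Term.var (Sum.inl a)) (Term.var (Sum.inr ⟨i a, hK a⟩))
  refine ⟨χ.iExs (Fin K), fun x => ?_⟩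
  rw [Formula.realize_iExs]
  constructor
  · rintro ⟨u, hu⟩
    simp only [χ, Formula.realize_inf, Formula.realize_relabel, Formula.realize_iInf,
      Formula.realize_equal, Term.realize_var, Sum.elim_inl, Sum.elim_inr] at hu
    refine ⟨fun j => if hj : j < K then u ⟨j, hj⟩ else Classical.arbitrary M, ?_, ?_⟩
    · simp only [Set.mem_ofPred_eq]
      convert! hu.1 using 1
      funext l
      simp
    · funext a
      have := hu.2 a
      simp only [Function.comp_apply, hK a, dif_pos]
      exact this.symm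
  · rintro ⟨v, hv, rfl⟩
    refine ⟨fun l => v l, ?_⟩
    simp only [χ, Formula.realize_inf, Formula.realize_relabel, Formula.realize_iInf,
      Formula.realize_equal, Term.realize_var, Sum.elim_inl, Sum.elim_inr]
    exact ⟨hv, fun a => rfl⟩

end definable

section isolation

variable {M : Type} [L.Structure M] [Countable M] [Infinite M]

/-- conditions: nonempty definable sets of sequences, ordered by reverse inclusion -/
def Cond (L : FirstOrder.Language.{0, 0}) (M : Type) [L.Structure M] : Type :=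
  {D : Set (ℕ → M) // FD L M D ∧ D.Nonempty}

instance : Preorder (Cond L M) where
  le D D' := D'.1 ⊆ D.1
  le_refl D := subset_rfl
  le_trans _ _ _ h h' := h'.trans h

instance [Countable L.Symbols] {α : Type} [Countable α] (n : ℕ) :
    Countable (L.BoundedFormula α n) :=
  Function.Injective.countable
    (f := fun φ : L.BoundedFormula α n => (⟨n, φ⟩ : Σ n, L.BoundedFormula α n))
    (fun φ ψ h => by simpa using h)

theorem isolated [Countable L.Symbols] (hcat : Categorical aleph0.{0} (L.completeTheory M))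
    {α : Type} [Finite α] (m : α → M) :
    ∃ φ : L.Formula α, φ.Realize m ∧ ∀ m' : α → M, φ.Realize m' → EqTp L m m' := by
  classical
  by_contra hno
  push Not at hno
  let ι := (Σ n, L.BoundedFormula Empty (n + 1) × (Fin n → ℕ)) ⊕ (α → ℕ)
  have hι : Countable ι := inferInstance
  let _ := Encodable.ofCountable ι
  let HS : (Σ n, L.BoundedFormula Empty (n + 1) × (Fin n → ℕ)) → Set (Cond L M) := fun x =>
    {D | (∀ v ∈ D.1, ¬ ∃ a : M, x.2.1.Realize default (Fin.snoc (v ∘ x.2.2) a : Fin (x.1 + 1) → M)) ∨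
      ∃ j : ℕ, ∀ v ∈ D.1, x.2.1.Realize default (Fin.snoc (v ∘ x.2.2) (v j) : Fin (x.1 + 1) → M)}
  let ES : (α → ℕ) → Set (Cond L M) := fun i =>
    {D | ∃ χ : L.Formula α, χ.Realize m ∧ ∀ v ∈ D.1, ¬ χ.Realize (v ∘ i)}
  have hHS : ∀ x, IsCofinal (HS x) := by
    rintro ⟨n, φ, i⟩ ⟨D, hD, v, hv⟩
    by_cases hex : ∃ a : M, φ.Realize default (Fin.snoc (v ∘ i) a : Fin (n + 1) → M)
    · obtain ⟨a, ha⟩ := hex
      obtain ⟨k, hk⟩ := hD.support
      obtain ⟨K, hK⟩ := exists_bound i
      let j := max k K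
      let v' := Function.update v j a
      have hv'i : v' ∘ i = v ∘ i := by
        funext l
        simp only [v', Function.comp_apply]
        rw [Function.update_of_ne]
        have := hK l
        have : K ≤ j := le_max_right _ _
        omega
      have hv'j : v' j = a := by simp [v']
      have hv' : v' ∈ D := by
        refine hk v v' (fun l hl => ?_) hv
        simp only [v']
        rw [Function.update_of_ne]
        have : k ≤ j := le_max_left _ _
        omega
      have hFD : FD L M {v : ℕ → M | φ.Realize default (v ∘ (Fin.snoc i j : Fin (n + 1) → ℕ))} :=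
        FD.of_bounded φ _
      have hcomp : ∀ v : ℕ → M, v ∘ (Fin.snoc i j : Fin (n + 1) → ℕ) =
          (Fin.snoc (v ∘ i) (v j) : Fin (n + 1) → M) := by
        intro v
        exact Fin.comp_snoc v i j
      refine ⟨⟨D ∩ {v | φ.Realize default (v ∘ (Fin.snoc i j : Fin (n + 1) → ℕ))},
        hD.inter hFD, v', hv', ?_⟩, Or.inr ⟨j, ?_⟩, ?_⟩
      · change φ.Realize default _
        rw [hcomp, hv'i, hv'j]
        exact ha
      · rintro u ⟨_, hu⟩
        change φ.Realize default _ at hu
        rw [hcomp] at hu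
        exact hu
      · exact Set.inter_subset_left
    · have hFD : FD L M {v : ℕ → M | φ.ex.not.Realize default (v ∘ i)} := FD.of_bounded _ _
      refine ⟨⟨D ∩ {v | φ.ex.not.Realize default (v ∘ i)}, hD.inter hFD, v, hv, ?_⟩,
        Or.inl ?_, ?_⟩
      · change φ.ex.not.Realize default _
        rw [BoundedFormula.realize_not, BoundedFormula.realize_ex]
        exact hex
      · rintro u ⟨_, hu⟩
        change φ.ex.not.Realize default _ at hu
        rw [BoundedFormula.realize_not, BoundedFormula.realize_ex] at hu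
        exact hu
      · exact Set.inter_subset_left
  have hES : ∀ i, IsCofinal (ES i) := by
    rintro i ⟨D, hD, v, hv⟩
    have h1 : ∃ v' ∈ D, ¬ EqTp L m (v' ∘ i) := by
      by_cases h : EqTp L m (v ∘ i)
      · obtain ⟨φ, hφ⟩ := hD.proj i
        have h2 : φ.Realize (v ∘ i) := (hφ _).2 ⟨v, hv, rfl⟩
        have h3 : φ.Realize m := (h φ).2 h2
        obtain ⟨m', hm', hm''⟩ := hno φ h3
        obtain ⟨v', hv', rfl⟩ := (hφ _).1 hm'
        exact ⟨v', hv', hm''⟩
      · exact ⟨v, hv, h⟩
    obtain ⟨v', hv', h2⟩ := h1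
    have h3 : ∃ χ : L.Formula α, χ.Realize m ∧ ¬ χ.Realize (v' ∘ i) := by
      unfold EqTp at h2
      push Not at h2
      obtain ⟨χ, hχ⟩ := h2
      rcases hχ with hχ | hχ
      · exact ⟨χ, hχ.1, hχ.2⟩
      · refine ⟨χ.not, ?_, ?_⟩
        · rw [Formula.realize_not]; exact hχ.1
        · rw [Formula.realize_not, not_not]; exact hχ.2
    obtain ⟨χ, hχ1, hχ2⟩ := h3
    have hFD : FD L M {v : ℕ → M | χ.not.Realize (v ∘ i)} := FD.of_formula _ _
    refine ⟨⟨D ∩ {v | χ.not.Realize (v ∘ i)}, hD.inter hFD, v', hv', ?_⟩, ⟨χ, hχ1, ?_⟩, ?_⟩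
    · change χ.not.Realize _
      rw [Formula.realize_not]; exact hχ2
    · rintro u ⟨_, hu⟩
      change χ.not.Realize _ at hu
      rwa [Formula.realize_not] at hu
    · exact Set.inter_subset_left
  let 𝒟 : ι → Order.Cofinal (Cond L M) :=
    Sum.elim (fun x => ⟨HS x, hHS x⟩) (fun i => ⟨ES i, hES i⟩)
  have huniv : FD L M (Set.univ : Set (ℕ → M)) := ⟨0, ⊤, by
    ext v
    simp⟩
  let p : Cond L M := ⟨Set.univ, huniv, ⟨fun _ => Classical.arbitrary M, trivial⟩⟩
  let sq := Order.sequenceOfCofinals p 𝒟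
  have hmono : Monotone sq := Order.sequenceOfCofinals.monotone p 𝒟
  choose v hv using fun k => (sq k).2.2
  obtain ⟨w, hw⟩ := exists_limit hcat v
  have hwD : ∀ k, w ∈ (sq k).1 := by
    intro k
    obtain ⟨n, φ, hφ⟩ := (sq k).2.1
    rw [hφ]
    have h1 := hw (φ.relabel fun i : Fin n => (i : ℕ)) (by
      filter_upwards [eventually_ge_atTop k] with j hj
      have h2 : v j ∈ (sq k).1 := hmono hj (hv j)
      rw [hφ] at h2
      rw [Formula.realize_relabel]
      exact h2)
    rw [Formula.realize_relabel] at h1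
    exact h1
  -- Tarski-Vaught
  have hTV : ∀ (n : ℕ) (φ : L.BoundedFormula Empty (n + 1)) (i : Fin n → ℕ) (a : M),
      φ.Realize default (Fin.snoc (w ∘ i) a : Fin (n + 1) → M) →
      ∃ j, φ.Realize default (Fin.snoc (w ∘ i) (w j) : Fin (n + 1) → M) := by
    intro n φ i a ha
    have h1 := Order.sequenceOfCofinals.encode_mem p 𝒟 (Sum.inl ⟨n, φ, i⟩)
    have h2 := hwD (Encodable.encode (Sum.inl ⟨n, φ, i⟩ : ι) + 1)
    rcases h1 with h1 | ⟨j, hj⟩
    · exact absurd ⟨a, ha⟩ (h1 w h2)
    · exact ⟨j, hj w h2⟩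
  have hom : ∀ i : α → ℕ, ¬ EqTp L m (w ∘ i) := by
    intro i h
    have h1 := Order.sequenceOfCofinals.encode_mem p 𝒟 (Sum.inr i)
    have h2 := hwD (Encodable.encode (Sum.inr i : ι) + 1)
    obtain ⟨χ, hχ, hχ'⟩ := h1
    exact hχ' w h2 ((h χ).1 hχ)
  -- the elementary substructure
  let S : L.Substructure M :=
    { carrier := Set.range w
      fun_mem := by
        intro n f x hx
        choose i hi using hx
        have hx' : x = w ∘ i := funext fun l => (hi l).symm
        let φ : L.BoundedFormula Empty (n + 1) :=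
          Term.bdEqual (Term.func f fun l => Term.var (Sum.inr (Fin.castSucc l)))
            (Term.var (Sum.inr (Fin.last n)))
        have hφ : ∀ a, φ.Realize default (Fin.snoc (w ∘ i) a : Fin (n + 1) → M) ↔
            Structure.funMap f x = a := by
          intro a
          simp only [φ, BoundedFormula.realize_bdEqual, Term.realize_func, Term.realize_var,
            Sum.elim_inr, Fin.snoc_castSucc, Fin.snoc_last]
          rw [← hx']
        obtain ⟨j, hj⟩ := hTV n φ i _ ((hφ _).2 rfl)
        exact ⟨j, ((hφ _).1 hj).symm⟩ }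
  have hS : S.IsElementary := by
    apply S.isElementary_of_exists
    intro n φ x a ha
    have hx : ∀ l, ∃ i : ℕ, w i = x l := fun l => (x l).2
    choose i hi using hx
    have hx' : (Subtype.val ∘ x : Fin n → M) = w ∘ i := funext fun l => (hi l).symm
    have ha' : φ.Realize default (Fin.snoc (w ∘ i) a : Fin (n + 1) → M) := by
      rw [← hx']; exact ha
    obtain ⟨j, hj⟩ := hTV n φ i a ha'
    refine ⟨⟨w j, ⟨j, rfl⟩⟩, ?_⟩
    rw [← hx'] at hj
    exact hj
  let S' : L.ElementarySubstructure M := ⟨S, hS⟩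
  have hSc : Countable S' := (Set.countable_range w).to_subtype
  have hSi : Infinite S' := S'.elementarilyEquivalent.symm.infinite
  obtain ⟨h⟩ := exists_iso hcat S' S'.elementarilyEquivalent
  let m0 : α → S' := h.symm ∘ m
  have hm0 : ∀ a, ∃ i : ℕ, w i = m0 a := fun a => (m0 a).2
  choose i hi using hm0
  apply hom i
  have h1 : EqTp L m m0 := eqTp_equiv h.symm m
  have h2 : EqTp L m0 (w ∘ i) := by
    have h3 := eqTp_coe S' m0
    have h4 : (Subtype.val ∘ m0 : α → M) = w ∘ i := funext fun l => (hi l).symm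
    rwa [h4] at h3
  exact h1.trans h2

end isolation

section homogeneity

variable {M : Type} [L.Structure M] [Countable M] [Infinite M]

theorem extend_one [Countable L.Symbols] (hcat : Categorical aleph0.{0} (L.completeTheory M))
    {α : Type} [Finite α] {x y : α → M} (h : EqTp L x y) (a : M) :
    ∃ b : M, EqTp L (Sum.elim x (fun _ : Unit => a)) (Sum.elim y (fun _ : Unit => b)) := by
  obtain ⟨φ, hφ1, hφ2⟩ := isolated hcat (Sum.elim x (fun _ : Unit => a))
  have h1 : (φ.iExs Unit).Realize x := by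
    rw [Formula.realize_iExs]
    exact ⟨fun _ => a, hφ1⟩
  rw [h, Formula.realize_iExs] at h1
  obtain ⟨i, hi⟩ := h1
  refine ⟨i (), hφ2 _ ?_⟩
  exact hi

/-- finite partial elementary maps -/
def El (L : FirstOrder.Language.{0, 0}) {M : Type} [L.Structure M] (f : Set (M × M)) : Prop :=
  EqTp L (fun p : f => p.1.1) (fun p : f => p.1.2)

theorem El.insert {f : Set (M × M)} {a b : M}
    (h : EqTp L (Sum.elim (fun p : f => p.1.1) (fun _ : Unit => a))
      (Sum.elim (fun p : f => p.1.2) (fun _ : Unit => b))) : El L (Insert.insert (a, b) f) := by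
  classical
  let r : (Insert.insert (a, b) f : Set (M × M)) → f ⊕ Unit := fun p =>
    if h : p.1 ∈ f then Sum.inl ⟨p.1, h⟩ else Sum.inr ()
  have h1 := h.comp r
  have e1 : (Sum.elim (fun p : f => p.1.1) (fun _ : Unit => a)) ∘ r =
      fun p : (Insert.insert (a, b) f : Set (M × M)) => p.1.1 := by
    funext p
    by_cases hp : p.1 ∈ f
    · simp [r, hp]
    · have : p.1 = (a, b) := (Set.mem_insert_iff.1 p.2).resolve_right hp
      simp [r, hp, this]
      rw [dif_neg (by rw [← this]; exact hp)]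
      rfl
  have e2 : (Sum.elim (fun p : f => p.1.2) (fun _ : Unit => b)) ∘ r =
      fun p : (Insert.insert (a, b) f : Set (M × M)) => p.1.2 := by
    funext p
    by_cases hp : p.1 ∈ f
    · simp [r, hp]
    · have : p.1 = (a, b) := (Set.mem_insert_iff.1 p.2).resolve_right hp
      simp [r, hp, this]
      rw [dif_neg (by rw [← this]; exact hp)]
      rfl
  rw [e1, e2] at h1
  exact h1

/-- the poset of finite partial elementary maps -/
def PEl (L : FirstOrder.Language.{0, 0}) (M : Type) [L.Structure M] : Type :=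
  {f : Set (M × M) // f.Finite ∧ El L f}

instance : Preorder (PEl L M) where
  le D D' := D.1 ⊆ D'.1
  le_refl D := subset_rfl
  le_trans _ _ _ h h' := h.trans h'

theorem homogeneous [Countable L.Symbols] (hcat : Categorical aleph0.{0} (L.completeTheory M))
    {α : Type} [Finite α] {x y : α → M} (h : EqTp L x y) :
    ∃ g : M ≃[L] M, ∀ a, g (x a) = y a := by
  classical
  let _ := Encodable.ofCountable (M ⊕ M)
  have h1 : ∀ a : M, IsCofinal {D : PEl L M | ∃ b, (a, b) ∈ D.1} := by
    rintro a ⟨f, hf, hf'⟩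
    have : Finite f := hf
    obtain ⟨b, hb⟩ := extend_one hcat hf' a
    exact ⟨⟨Insert.insert (a, b) f, hf.insert _, El.insert hb⟩, ⟨b, Set.mem_insert _ _⟩,
      Set.subset_insert _ _⟩
  have h2 : ∀ b : M, IsCofinal {D : PEl L M | ∃ a, (a, b) ∈ D.1} := by
    rintro b ⟨f, hf, hf'⟩
    have : Finite f := hf
    obtain ⟨a, ha⟩ := extend_one hcat hf'.symm b
    exact ⟨⟨Insert.insert (a, b) f, hf.insert _, El.insert ha.symm⟩, ⟨a, Set.mem_insert _ _⟩,
      Set.subset_insert _ _⟩
  let 𝒟 : M ⊕ M → Order.Cofinal (PEl L M) :=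
    Sum.elim (fun x => ⟨_, h1 x⟩) (fun i => ⟨_, h2 i⟩)
  let f0 : Set (M × M) := Set.range fun a => (x a, y a)
  have hf0 : El L f0 := by
    have hr : ∀ p : f0, ∃ a, (x a, y a) = p.1 := fun p => p.2
    choose r hr using hr
    have h3 := h.comp r
    have e1 : x ∘ r = fun p : f0 => p.1.1 := by
      funext p; rw [← hr p]; rfl
    have e2 : y ∘ r = fun p : f0 => p.1.2 := by
      funext p; rw [← hr p]; rfl
    rw [e1, e2] at h3
    exact h3
  let p0 : PEl L M := ⟨f0, Set.finite_range _, hf0⟩
  let sq := Order.sequenceOfCofinals p0 𝒟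
  have hmono : Monotone sq := Order.sequenceOfCofinals.monotone p0 𝒟
  let R : Set (M × M) := {p | ∃ k, p ∈ (sq k).1}
  have hR : ∀ {β : Type} [Finite β] (p : β → M × M), (∀ i, p i ∈ R) →
      EqTp L (fun i => (p i).1) (fun i => (p i).2) := by
    intro β _ p hp
    choose K hK using hp
    obtain ⟨k, hk⟩ := exists_bound K
    have h3 : ∀ i, p i ∈ (sq k).1 := fun i => hmono (hk i).le (hK i)
    have h4 := (sq k).2.2
    exact EqTp.comp h4 (fun i => ⟨p i, h3 i⟩)
  have htot : ∀ a, ∃ b, (a, b) ∈ R := by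
    intro a
    obtain ⟨b, hb⟩ := Order.sequenceOfCofinals.encode_mem p0 𝒟 (Sum.inl a)
    exact ⟨b, _, hb⟩
  have hsurj : ∀ b, ∃ a, (a, b) ∈ R := by
    intro a
    obtain ⟨b, hb⟩ := Order.sequenceOfCofinals.encode_mem p0 𝒟 (Sum.inr a)
    exact ⟨b, _, hb⟩
  choose g hg using htot
  have huniq : ∀ a b, (a, b) ∈ R → g a = b := by
    intro a b hab
    have h3 := hR ![(a, g a), (a, b)] (by
      intro i
      fin_cases i
      · exact hg a
      · exact hab)
    have h4 := (h3 (Term.equal (Term.var 0) (Term.var 1))).1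
      (by simp [Formula.realize_equal])
    simpa [Formula.realize_equal] using h4
  have hgsurj : Function.Surjective g := fun b => by
    obtain ⟨a, ha⟩ := hsurj b
    exact ⟨a, huniq a b ha⟩
  let G : M ↪ₑ[L] M :=
    { toFun := g
      map_formula' := by
        intro n φ z
        exact (hR (fun i => (z i, g (z i))) (fun i => hg _) φ).symm }
  let e : M ≃[L] M :=
    { toEquiv := Equiv.ofBijective g ⟨G.injective, hgsurj⟩
      map_fun' := fun f z => G.map_fun f z
      map_rel' := fun r z => G.map_rel r z }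
  refine ⟨e, fun a => huniq _ _ ?_⟩
  exact ⟨0, a, rfl⟩

theorem finite_types [Countable L.Symbols] (hcat : Categorical aleph0.{0} (L.completeTheory M))
    {α : Type} [Finite α] :
    ∃ F : Set (α → M), F.Finite ∧ ∀ x : α → M, ∃ f ∈ F, EqTp L f x := by
  by_contra hno
  push Not at hno
  obtain ⟨e, he⟩ := exists_surjective_nat (α → M)
  choose φ hφ1 hφ2 using fun i => isolated hcat (e i)
  have h1 : ∀ k : ℕ, ∃ x : α → M, ∀ i ≤ k, ¬ (φ i).Realize x := by
    intro k
    obtain ⟨x, hx⟩ := hno (e '' Set.Iic k) ((Set.finite_Iic k).image e)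
    exact ⟨x, fun i hi h => hx (e i) ⟨i, hi, rfl⟩ (hφ2 i x h)⟩
  choose v hv using h1
  obtain ⟨w, hw⟩ := exists_limit hcat v
  obtain ⟨i, hi⟩ := he w
  have h2 : (φ i).not.Realize w := by
    apply hw
    filter_upwards [eventually_ge_atTop i] with k hk
    rw [Formula.realize_not]
    exact hv k i hk
  rw [Formula.realize_not, ← hi] at h2
  exact h2 (hφ1 i)

theorem ryll_nardzewski [Countable L.Symbols]
    (hcat : Categorical aleph0.{0} (L.completeTheory M)) (n : ℕ) :
    ∃ F : Set (Fin n → M), F.Finite ∧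
      ∀ x : Fin n → M, ∃ g : M ≃[L] M, ∃ f ∈ F, ∀ i, x i = g (f i) := by
  obtain ⟨F, hF, hF'⟩ := finite_types hcat (α := Fin n)
  refine ⟨F, hF, fun x => ?_⟩
  obtain ⟨f, hf, hfx⟩ := hF' x
  obtain ⟨g, hg⟩ := homogeneous hcat hfx
  exact ⟨g, f, hf, fun i => (hg i).symm⟩

end homogeneity

end Pool.Agent.Helper1.BD8.RN
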