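import Mathlib
import Pool.Agent.Helper99.BD8.Defs

/-!
Words with prescribed numbers of occurrences of one element; sandwiches.
-/

set_option autoImplicit false

namespace Pool.Agent.Helper1.BD8

open Pool.Agent.Helper99.BD8

variable {A : Type*} [NonUnitalNonAssocRing A]

/-- `Pw x n y`: `y` is a sum of nonassociative words with at least `n` letters `x`. -/
inductive Pw (x : A) : ℕ → A → Prop
  | base : Pw x 1 x
  | top (y : A) : Pw x 0 y
  | zero (n : ℕ) : Pw x n 0
  | add {n : ℕ} {y z : A} : Pw x n y → Pw x n z → Pw x n (y + z)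
  | neg {n : ℕ} {y : A} : Pw x n y → Pw x n (-y)
  | mul {m n : ℕ} {y z : A} : Pw x m y → Pw x n z → Pw x (m + n) (y * z)

theorem Pw.pred {x : A} {n : ℕ} {y : A} (h : Pw x n y) : Pw x (n - 1) y := by
  induction h with
  | base => exact Pw.top _
  | top y => exact Pw.top _
  | zero n => exact Pw.zero _
  | add _ _ ih1 ih2 => exact Pw.add ih1 ih2
  | neg _ ih => exact Pw.neg ih
  | @mul m n y z h1 h2 ih1 ih2 =>
    rcases Nat.eq_zero_or_pos m with hm | hm
    · subst hm
      have := Pw.mul h1 ih2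
      simpa using this
    · have := Pw.mul ih1 h2
      have e : m - 1 + n = m + n - 1 := by omega
      rwa [e] at this

theorem Pw.mono {x : A} {n m : ℕ} {y : A} (h : Pw x n y) (hm : m ≤ n) : Pw x m y := by
  obtain ⟨k, rfl⟩ := Nat.exists_eq_add_of_le hm
  induction k with
  | zero => simpa using h
  | succ k ih =>
    have := h.pred
    exact ih (by simpa using this) (by omega)

theorem Pw.mul_left {x : A} {n : ℕ} {y : A} (h : Pw x n y) (z : A) : Pw x n (z * y) := by
  have := Pw.mul (Pw.top (x := x) z) h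
  simpa using this

theorem Pw.mul_right {x : A} {n : ℕ} {y : A} (h : Pw x n y) (z : A) : Pw x n (y * z) := by
  have := Pw.mul h (Pw.top (x := x) z)
  simpa using this

theorem Pw.T {x : A} {n : ℕ} {y : A} (h : Pw x n y) (t : Bool) (z : A) : Pw x n (T t z y) := by
  cases t
  · exact h.mul_right z
  · exact h.mul_left z

theorem Pw.W {x : A} {n : ℕ} {y : A} (h : Pw x n y) (w : List (Bool × A)) :
    Pw x n (W w y) := by
  induction w with
  | nil => simpa using h
  | cons p w ih => rw [W_cons]; exact ih.T p.1 p.2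

theorem Pw.map {x : A} {n : ℕ} {y : A} (h : Pw x n y) (g : RingAut A) : Pw (g x) n (g y) := by
  induction h with
  | base => exact Pw.base
  | top y => exact Pw.top _
  | zero n => rw [map_zero]; exact Pw.zero _
  | add _ _ ih1 ih2 => rw [map_add]; exact Pw.add ih1 ih2
  | neg _ ih => rw [map_neg]; exact Pw.neg ih
  | mul _ _ ih1 ih2 => rw [map_mul]; exact Pw.mul ih1 ih2

theorem Pw.zero_eq {n : ℕ} {y : A} (h : Pw (0 : A) n y) (hn : 1 ≤ n) : y = 0 := by
  induction h with
  | base => rfl
  | top y => omega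
  | zero n => rfl
  | add _ _ ih1 ih2 => rw [ih1 hn, ih2 hn, add_zero]
  | neg _ ih => rw [ih hn, neg_zero]
  | @mul m n y z _ _ ih1 ih2 =>
    rcases Nat.eq_zero_or_pos m with hm | hm
    · rw [ih2 (by omega), mul_zero]
    · rw [ih1 hm, zero_mul]

theorem Pw.of_neg {x : A} {n : ℕ} {y : A} (h : Pw (-x) n y) : Pw x n y := by
  induction h with
  | base => exact Pw.neg Pw.base
  | top y => exact Pw.top _
  | zero n => exact Pw.zero _
  | add _ _ ih1 ih2 => exact Pw.add ih1 ih2
  | neg _ ih => exact Pw.neg ih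
  | mul _ _ ih1 ih2 => exact Pw.mul ih1 ih2

/-- the ideal generated by `b` -/
def Ig (b : A) : AddSubgroup A := AddSubgroup.closure {y | ∃ w, y = W w b}

theorem Ig_T {b y : A} (h : y ∈ Ig b) (t : Bool) (z : A) : T t z y ∈ Ig b := by
  unfold Ig at h ⊢
  induction h using AddSubgroup.closure_induction with
  | mem y hy =>
    obtain ⟨w, rfl⟩ := hy
    exact AddSubgroup.subset_closure ⟨(t, z) :: w, by rw [W_cons]; rfl⟩
  | zero => rw [map_zero]; exact AddSubgroup.zero_mem _
  | add y z _ _ h1 h2 => rw [map_add]; exact AddSubgroup.add_mem _ h1 h2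
  | neg y _ h1 => rw [map_neg]; exact AddSubgroup.neg_mem _ h1

theorem Ig_W {b y : A} (h : y ∈ Ig b) (w : List (Bool × A)) : W w y ∈ Ig b := by
  induction w with
  | nil => simpa using h
  | cons p w ih => rw [W_cons]; exact Ig_T ih p.1 p.2

theorem Ig_mul_right {b y : A} (h : y ∈ Ig b) (z : A) : y * z ∈ Ig b := Ig_T h false z

theorem Ig_mul_left {b y : A} (h : y ∈ Ig b) (z : A) : z * y ∈ Ig b := Ig_T h true z

theorem self_mem_Ig (b : A) : b ∈ Ig b := AddSubgroup.subset_closure ⟨[], by simp⟩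

theorem Pw.mem_Ig {b : A} {n : ℕ} {y : A} (h : Pw b n y) (hn : 1 ≤ n) : y ∈ Ig b := by
  induction h with
  | base => exact self_mem_Ig b
  | top y => omega
  | zero n => exact AddSubgroup.zero_mem _
  | add _ _ ih1 ih2 => exact AddSubgroup.add_mem _ (ih1 hn) (ih2 hn)
  | neg _ ih => exact AddSubgroup.neg_mem _ (ih hn)
  | @mul m n y z _ _ ih1 ih2 =>
    rcases Nat.eq_zero_or_pos m with hm | hm
    · exact Ig_mul_left (ih2 (by omega)) _
    · exact Ig_mul_right (ih1 hm) _

theorem Pw_of_mem_Ig {b y : A} (h : y ∈ Ig b) : Pw b 1 y := by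
  unfold Ig at h
  induction h using AddSubgroup.closure_induction with
  | mem y hy => obtain ⟨w, rfl⟩ := hy; exact Pw.base.W w
  | zero => exact Pw.zero _
  | add y z _ _ h1 h2 => exact Pw.add h1 h2
  | neg y _ h1 => exact Pw.neg h1

theorem Ig_mul_Ig {b : A} (hb : Sandwich b) {y z : A} (hy : y ∈ Ig b) (hz : z ∈ Ig b) :
    y * z = 0 := by
  unfold Ig at hy hz
  induction hy using AddSubgroup.closure_induction with
  | mem y hy =>
    obtain ⟨v, rfl⟩ := hy
    induction hz using AddSubgroup.closure_induction with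
    | mem z hz => obtain ⟨w, rfl⟩ := hz; exact hb v w
    | zero => rw [mul_zero]
    | add y z _ _ h1 h2 => rw [mul_add, h1, h2, add_zero]
    | neg y _ h1 => rw [mul_neg, h1, neg_zero]
  | zero => rw [zero_mul]
  | add y z _ _ h1 h2 => rw [add_mul, h1, h2, add_zero]
  | neg y _ h1 => rw [neg_mul, h1, neg_zero]

theorem Pw.eq_zero_of_sandwich {b : A} (hb : Sandwich b) {n : ℕ} {y : A} (h : Pw b n y)
    (hn : 2 ≤ n) : y = 0 := by
  induction h with
  | base => omega
  | top y => omega
  | zero n => rfl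
  | add _ _ ih1 ih2 => rw [ih1 hn, ih2 hn, add_zero]
  | neg _ ih => rw [ih hn, neg_zero]
  | @mul m n y z h1 h2 ih1 ih2 =>
    rcases Nat.lt_or_ge m 1 with hm | hm
    · rw [ih2 (by omega), mul_zero]
    · rcases Nat.lt_or_ge n 1 with hn' | hn'
      · rw [ih1 (by omega), zero_mul]
      · exact Ig_mul_Ig hb (h1.mem_Ig hm) (h2.mem_Ig hn')

theorem sandwich_of_mem_Ig {b y : A} (hb : Sandwich b) (hy : y ∈ Ig b) : Sandwich y :=
  fun v w => Ig_mul_Ig hb (Ig_W hy v) (Ig_W hy w)

theorem map_W (g : RingAut A) (w : List (Bool × A)) (x : A) :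
    g (W w x) = W (w.map fun p => (p.1, g p.2)) (g x) := by
  induction w with
  | nil => simp
  | cons p w ih =>
    rw [W_cons, List.map_cons, W_cons]
    rcases p with ⟨t, a⟩
    cases t
    · change g (W w x * a) = W _ (g x) * g a
      rw [map_mul, ih]
    · change g (a * W w x) = g a * W _ (g x)
      rw [map_mul, ih]

theorem Sandwich.map {u : A} (hu : Sandwich u) (g : RingAut A) : Sandwich (g u) := by
  intro v w
  have hv : W v (g u) = g (W (v.map fun p => (p.1, g.symm p.2)) u) := by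
    rw [map_W, List.map_map]
    congr 2
    symm
    rw [show ((fun p : Bool × A => (p.1, g p.2)) ∘ fun p : Bool × A => (p.1, g.symm p.2)) = id from by
      funext p; simp]
    simp
  have hw : W w (g u) = g (W (w.map fun p => (p.1, g.symm p.2)) u) := by
    rw [map_W, List.map_map]
    congr 2
    symm
    rw [show ((fun p : Bool × A => (p.1, g p.2)) ∘ fun p : Bool × A => (p.1, g.symm p.2)) = id from by
      funext p; simp]
    simp
  rw [hv, hw, ← map_mul, hu, map_zero]

/-- products of elements of two closures lie in a third one -/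
theorem mul_mem_closure {S1 S2 S3 : Set A}
    (h : ∀ a ∈ S1, ∀ b ∈ S2, a * b ∈ AddSubgroup.closure S3) {a b : A}
    (ha : a ∈ AddSubgroup.closure S1) (hb : b ∈ AddSubgroup.closure S2) :
    a * b ∈ AddSubgroup.closure S3 := by
  induction ha using AddSubgroup.closure_induction with
  | mem a ha =>
    induction hb using AddSubgroup.closure_induction with
    | mem b hb => exact h a ha b hb
    | zero => rw [mul_zero]; exact AddSubgroup.zero_mem _
    | add _ _ _ _ h1 h2 => rw [mul_add]; exact AddSubgroup.add_mem _ h1 h2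
    | neg _ _ h1 => rw [mul_neg]; exact AddSubgroup.neg_mem _ h1
  | zero => rw [zero_mul]; exact AddSubgroup.zero_mem _
  | add _ _ _ _ h1 h2 => rw [add_mul]; exact AddSubgroup.add_mem _ h1 h2
  | neg _ _ h1 => rw [neg_mul]; exact AddSubgroup.neg_mem _ h1

theorem closure_eq_zero {S : Set A} (h : ∀ a ∈ S, a = 0) {a : A}
    (ha : a ∈ AddSubgroup.closure S) : a = 0 := by
  have : AddSubgroup.closure S ≤ ⊥ := by
    rw [AddSubgroup.closure_le]
    intro x hx
    rw [h x hx]
    exact AddSubgroup.zero_mem _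
  exact (AddSubgroup.mem_bot).1 (this ha)

/-- mixed words for a sum -/
theorem Pw.of_add {x y : A} {j : ℕ} {z : A} (h : Pw (x + y) j z) :
    z ∈ AddSubgroup.closure {w | ∃ i l, i + l = j ∧ Pw x i w ∧ Pw y l w} := by
  induction h with
  | base =>
    apply AddSubgroup.add_mem
    · exact AddSubgroup.subset_closure ⟨1, 0, rfl, Pw.base, Pw.top _⟩
    · exact AddSubgroup.subset_closure ⟨0, 1, rfl, Pw.top _, Pw.base⟩
  | top z => exact AddSubgroup.subset_closure ⟨0, 0, rfl, Pw.top _, Pw.top _⟩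
  | zero n => exact AddSubgroup.zero_mem _
  | add _ _ ih1 ih2 => exact AddSubgroup.add_mem _ ih1 ih2
  | neg _ ih => exact AddSubgroup.neg_mem _ ih
  | @mul m n a b _ _ ih1 ih2 =>
    refine mul_mem_closure ?_ ih1 ih2
    rintro a ⟨i, l, hil, hxi, hyl⟩ b ⟨i', l', hil', hxi', hyl'⟩
    exact AddSubgroup.subset_closure ⟨i + i', l + l', by omega, hxi.mul hxi', hyl.mul hyl'⟩

theorem nil_add {x y : A} {c d : ℕ} (hx : ∀ z, Pw x c z → z = 0) (hy : ∀ z, Pw y d z → z = 0) :
    ∀ z, Pw (x + y) (c + d) z → z = 0 := by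
  intro z hz
  refine closure_eq_zero ?_ hz.of_add
  rintro w ⟨i, l, hil, h1, h2⟩
  rcases Nat.lt_or_ge i c with hi | hi
  · exact hy _ (h2.mono (by omega))
  · exact hx _ (h1.mono hi)

/-- replacing `a` by `a + b` changes a word by an element of the ideal of `b` -/
theorem Pw.shift {a : A} {n : ℕ} {p : A} (h : Pw a n p) (b : A) :
    ∃ q ∈ Ig b, Pw (a + b) n (p + q) := by
  induction h with
  | base => exact ⟨b, self_mem_Ig b, Pw.base⟩
  | top y => exact ⟨0, AddSubgroup.zero_mem _, Pw.top _⟩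
  | zero n => exact ⟨0, AddSubgroup.zero_mem _, by rw [add_zero]; exact Pw.zero _⟩
  | @add n y z _ _ ih1 ih2 =>
    obtain ⟨q1, h1, h1'⟩ := ih1
    obtain ⟨q2, h2, h2'⟩ := ih2
    refine ⟨q1 + q2, AddSubgroup.add_mem _ h1 h2, ?_⟩
    have := h1'.add h2'
    rwa [add_add_add_comm] at this
  | @neg n y _ ih =>
    obtain ⟨q, h, h'⟩ := ih
    refine ⟨-q, AddSubgroup.neg_mem _ h, ?_⟩
    have := h'.neg
    rwa [neg_add] at this
  | @mul m n y z _ _ ih1 ih2 =>
    obtain ⟨q1, h1, h1'⟩ := ih1
    obtain ⟨q2, h2, h2'⟩ := ih2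
    refine ⟨y * q2 + q1 * z + q1 * q2, ?_, ?_⟩
    · exact AddSubgroup.add_mem _ (AddSubgroup.add_mem _ (Ig_mul_left h2 y) (Ig_mul_right h1 z))
        (Ig_mul_left h2 q1)
    · have := h1'.mul h2'
      have e : (y + q1) * (z + q2) = y * z + (y * q2 + q1 * z + q1 * q2) := by
        rw [add_mul, mul_add, mul_add]; abel
      rwa [e] at this

end Pool.Agent.Helper1.BD8
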