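import Mathlib
import Pool.Agent.Helper99.BD8.Defs
import Pool.Agent.Helper1.BD8.Words
import Pool.Agent.Helper1.BD8.RN

/-!
From countable categoricity of the complete theory of a ring to a subring with finitely many
orbits on tuples.
-/

set_option autoImplicit false

namespace Pool.Agent.Helper1.BD8

open Pool.Agent.Helper99.BD8 FirstOrder FirstOrder.Language Cardinal

/-! ### trees -/

/-- leaves of the full binary tree of depth `k` -/
def Lf : ℕ → Type
  | 0 => Unit
  | k + 1 => Lf k ⊕ Lf k

instance finite_Lf : ∀ k, Finite (Lf k)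
  | 0 => inferInstanceAs (Finite Unit)
  | k + 1 => by
    have := finite_Lf k
    exact inferInstanceAs (Finite (Lf k ⊕ Lf k))

/-- left leaves -/
def inlL {k : ℕ} : Lf k → Lf (k + 1) := Sum.inl
/-- right leaves -/
def inrL {k : ℕ} : Lf k → Lf (k + 1) := Sum.inr

/-- the full binary product -/
def tree {A : Type} [NonUnitalNonAssocRing A] : (k : ℕ) → (Lf k → A) → A
  | 0, x => x ()
  | k + 1, x => tree k (x ∘ inlL) * tree k (x ∘ inrL)

theorem derived_eq (A : Type) [NonUnitalNonAssocRing A] (k : ℕ) :
    derived A k = AddSubgroup.closure (Set.range (tree (A := A) k)) := by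
  induction k with
  | zero =>
    symm
    change _ = (⊤ : AddSubgroup A)
    rw [eq_top_iff]
    intro x _
    exact AddSubgroup.subset_closure ⟨fun _ => x, rfl⟩
  | succ k ih =>
    apply le_antisymm
    · change AddSubgroup.closure _ ≤ _
      rw [AddSubgroup.closure_le]
      rintro z ⟨u, hu, v, hv, rfl⟩
      rw [ih] at hu hv
      refine mul_mem_closure ?_ hu hv
      rintro _ ⟨x, rfl⟩ _ ⟨y, rfl⟩
      exact AddSubgroup.subset_closure ⟨Sum.elim x y, rfl⟩
    · rw [AddSubgroup.closure_le]
      rintro _ ⟨x, rfl⟩
      apply AddSubgroup.subset_closure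
      refine ⟨tree k (x ∘ inlL), ?_, tree k (x ∘ inrL), ?_, rfl⟩
      · rw [ih]; exact AddSubgroup.subset_closure ⟨_, rfl⟩
      · rw [ih]; exact AddSubgroup.subset_closure ⟨_, rfl⟩

theorem derived_bot_iff (A : Type) [NonUnitalNonAssocRing A] (k : ℕ) :
    derived A k = ⊥ ↔ ∀ x : Lf k → A, tree k x = 0 := by
  rw [derived_eq]
  constructor
  · intro h x
    have : tree k x ∈ AddSubgroup.closure (Set.range (tree (A := A) k)) :=
      AddSubgroup.subset_closure ⟨x, rfl⟩
    rw [h] at this
    exact AddSubgroup.mem_bot.1 this
  · intro h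
    rw [AddSubgroup.closure_eq_bot_iff]
    rintro _ ⟨x, rfl⟩
    exact h x

theorem tree_coe {A : Type} [NonUnitalNonAssocRing A] (B : NonUnitalSubring A) (k : ℕ)
    (x : Lf k → B) : ((tree k x : B) : A) = tree k (fun i => (x i : A)) := by
  induction k with
  | zero => rfl
  | succ k ih =>
    change ((tree k (x ∘ inlL) : B) : A) * ((tree k (x ∘ inrL) : B) : A) = _
    rw [ih, ih]
    rfl

/-! ### the language -/

/-- the language of rings of the problem -/
abbrev LL : FirstOrder.Language.{0, 0} :=
  FirstOrder.Language.mk
    (fun n : ℕ => Fin (if n = 2 then 2 else if n ≤ 1 then 1 else 0)) (fun _ : ℕ => Empty)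

/-- the structure of the problem -/
abbrev ringStr (A : Type) [NonUnitalNonAssocRing A] : LL.Structure A :=
  { funMap := fun {n} i x =>
      if n = 2 ∧ Fin.val i = 1 then (List.ofFn x).headD 0 * (List.ofFn x).getLastD 0
      else if n = 1 then -(∑ j, x j) else ∑ j, x j,
    RelMap := fun {_} r _ => Empty.elim r }

instance : Countable LL.Symbols := by
  have h1 : Countable (Σ l, LL.Functions l) := by
    have : ∀ l, Countable (LL.Functions l) := fun l => by
      change Countable (Fin _)
      infer_instance
    infer_instance
  have h2 : Countable (Σ l, LL.Relations l) := by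
    have : ∀ l, Countable (LL.Relations l) := fun l => by
      change Countable Empty
      infer_instance
    infer_instance
  change Countable ((Σ l, LL.Functions l) ⊕ (Σ l, LL.Relations l))
  infer_instance

/-- multiplication symbol -/
def mulS : LL.Functions 2 := (⟨1, by decide⟩ : Fin (if 2 = 2 then 2 else if 2 ≤ 1 then 1 else 0))
/-- addition symbol -/
def addS : LL.Functions 2 := (⟨0, by decide⟩ : Fin (if 2 = 2 then 2 else if 2 ≤ 1 then 1 else 0))
/-- negation symbol -/
def negS : LL.Functions 1 := (⟨0, by decide⟩ : Fin (if 1 = 2 then 2 else if 1 ≤ 1 then 1 else 0))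
/-- zero symbol -/
def zeroS : LL.Functions 0 := (⟨0, by decide⟩ : Fin (if 0 = 2 then 2 else if 0 ≤ 1 then 1 else 0))

section str

variable (A : Type) [NonUnitalNonAssocRing A]

theorem funMap_mul (x : Fin 2 → A) : (ringStr A).funMap mulS x = x 0 * x 1 := by
  change (if 2 = 2 ∧ (1 : ℕ) = 1 then (List.ofFn x).headD 0 * (List.ofFn x).getLastD 0
      else if 2 = 1 then -(∑ j, x j) else ∑ j, x j) = _
  simp [List.ofFn_succ]

theorem funMap_add (x : Fin 2 → A) : (ringStr A).funMap addS x = x 0 + x 1 := by
  change (if 2 = 2 ∧ (0 : ℕ) = 1 then (List.ofFn x).headD 0 * (List.ofFn x).getLastD 0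
      else if 2 = 1 then -(∑ j, x j) else ∑ j, x j) = _
  simp [Fin.sum_univ_two]

theorem funMap_neg (x : Fin 1 → A) : (ringStr A).funMap negS x = - x 0 := by
  change (if 1 = 2 ∧ (0 : ℕ) = 1 then (List.ofFn x).headD 0 * (List.ofFn x).getLastD 0
      else if 1 = 1 then -(∑ j, x j) else ∑ j, x j) = _
  simp

theorem funMap_zero (x : Fin 0 → A) : (ringStr A).funMap zeroS x = 0 := by
  change (if 0 = 2 ∧ (0 : ℕ) = 1 then (List.ofFn x).headD 0 * (List.ofFn x).getLastD 0
      else if 0 = 1 then -(∑ j, x j) else ∑ j, x j) = _
  simp

end str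

/-- the tree term -/
def tt : (k : ℕ) → LL.Term (Lf k)
  | 0 => Term.var ()
  | k + 1 => Term.func mulS ![(tt k).relabel inlL, (tt k).relabel inrL]

theorem realize_tt {A : Type} [NonUnitalNonAssocRing A] (k : ℕ) (x : Lf k → A) :
    @Term.realize LL A (ringStr A) _ x (tt k) = tree k x := by
  let _ := ringStr A
  induction k with
  | zero => rfl
  | succ k ih =>
    have h1 := ih (x ∘ inlL)
    have h2 := ih (x ∘ inrL)
    rw [← Term.realize_relabel] at h1 h2
    change Structure.funMap mulS _ = _
    rw [funMap_mul]
    simp only [Matrix.cons_val_zero, Matrix.cons_val_one]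
    rw [h1, h2]
    rfl

/-- the sentence all full binary products of depth `k` vanish -/
noncomputable def sig (k : ℕ) : LL.Sentence :=
  Formula.iAlls (Lf k)
    (((Term.equal (tt k) (Term.func zeroS ![]) : LL.Formula (Lf k)).relabel
      (Sum.inr : Lf k → Empty ⊕ Lf k)) : LL.Formula (Empty ⊕ Lf k))

theorem realize_sig (N : Type) [LL.Structure N] (k : ℕ) :
    N ⊨ sig k ↔ ∀ x : Lf k → N, (tt k).realize x = Structure.funMap zeroS (![] : Fin 0 → N) := by
  unfold sig Sentence.Realize
  rw [Formula.realize_iAlls]
  apply forall_congr'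
  intro x
  rw [Formula.realize_relabel, Formula.realize_equal, Term.realize_func]
  have e2 : (fun i : Fin 0 => Term.realize ((fun a => Sum.elim (default : Empty → N) x a) ∘ Sum.inr)
    ((![] : Fin 0 → LL.Term (Lf k)) i)) = ![] := Subsingleton.elim _ _
  rw [e2]
  rfl

theorem M1 (A : Type) [NonUnitalNonAssocRing A]
      (S : (FirstOrder.Language.mk
              (fun n : ℕ => Fin (if n = 2 then 2 else if n ≤ 1 then 1 else 0))
              (fun _ : ℕ => Empty)).Structure A)
      (hS :
        S = { funMap := fun {n} i x =>
                if n = 2 ∧ Fin.val i = 1 then (List.ofFn x).headD 0 * (List.ofFn x).getLastD 0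
                else if n = 1 then -(∑ j, x j) else ∑ j, x j,
              RelMap := fun {n} r _ => Empty.elim r })
      (hcat : Cardinal.Categorical Cardinal.aleph0.{0}
        (FirstOrder.Language.completeTheory
          (FirstOrder.Language.mk
              (fun n : ℕ => Fin (if n = 2 then 2 else if n ≤ 1 then 1 else 0))
              (fun _ : ℕ => Empty)) A)) :
    ∃ B : NonUnitalSubring A, OrbFin (⊤ : Subgroup (RingAut B)) ∧
      ∀ k : ℕ, derived B k = ⊥ → derived A k = ⊥ := by
  rcases finite_or_infinite A with hfin | hinf
  · refine ⟨⊤, ?_, ?_⟩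
    · intro n
      refine ⟨Set.univ, Set.finite_univ, fun x => ⟨1, trivial, x, trivial, fun i => rfl⟩⟩
    · intro k hk
      rw [derived_bot_iff] at hk ⊢
      intro x
      have h1 := hk fun i => ⟨x i, trivial⟩
      have h2 := congrArg (Subtype.val) h1
      rw [tree_coe] at h2
      exact h2
  · change LL.Structure A at S
    change Categorical aleph0.{0} (LL.completeTheory A) at hcat
    have hS' : S = ringStr A := hS
    subst hS'
    let _ : LL.Structure A := ringStr A
    obtain ⟨S0, -, hS0⟩ := exists_elementarySubstructure_card_eq LL (M := A) ∅ aleph0.{0} le_rfl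
      (by simp)
      (by
        simp only [lift_id]
        exact Cardinal.mk_le_aleph0_iff.2 inferInstance)
      (by
        simp only [lift_id]
        exact aleph0_le_mk A)
    simp only [lift_id] at hS0
    have hc : Countable S0 := Cardinal.mk_le_aleph0_iff.1 hS0.le
    have hi : Infinite S0 := Cardinal.infinite_iff.2 hS0.ge
    have hcat' : Categorical aleph0.{0} (LL.completeTheory S0) := by
      rw [S0.elementarilyEquivalent.completeTheory_eq]
      exact hcat
    have hmem : ∀ {n : ℕ} (f : LL.Functions n) (x : Fin n → A), (∀ i, x i ∈ S0) →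
        Structure.funMap f x ∈ S0 := fun f x hx => S0.toSubstructure.fun_mem f x hx
    let B : NonUnitalSubring A :=
      { carrier := S0
        zero_mem' := by
          have := hmem zeroS ![] (fun i => i.elim0)
          rwa [funMap_zero] at this
        add_mem' := by
          intro a b ha hb
          have := hmem addS ![a, b] (by intro i; fin_cases i; exacts [ha, hb])
          rw [funMap_add] at this
          exact this
        mul_mem' := by
          intro a b ha hb
          have := hmem mulS ![a, b] (by intro i; fin_cases i; exacts [ha, hb])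
          rw [funMap_mul] at this
          exact this
        neg_mem' := by
          intro a ha
          have := hmem negS ![a] (by intro i; fin_cases i; exact ha)
          rw [funMap_neg] at this
          exact this }
    let e : S0 ≃ B := ⟨fun x => ⟨x.1, x.2⟩, fun x => ⟨x.1, x.2⟩, fun _ => rfl, fun _ => rfl⟩
    have hcoe : ∀ {n : ℕ} (f : LL.Functions n) (x : Fin n → S0),
        ((Structure.funMap f x : S0) : A) = Structure.funMap f (fun i => (x i : A)) :=
      fun f x => rfl
    have hmul : ∀ x y : B, e.symm (x * y) = Structure.funMap mulS ![e.symm x, e.symm y] := by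
      intro x y
      apply Subtype.ext
      rw [hcoe, funMap_mul]
      rfl
    have hadd : ∀ x y : B, e.symm (x + y) = Structure.funMap addS ![e.symm x, e.symm y] := by
      intro x y
      apply Subtype.ext
      rw [hcoe, funMap_add]
      rfl
    let ρ : (S0 ≃[LL] S0) → RingAut B := fun g =>
      { toEquiv := e.symm.trans (g.toEquiv.trans e)
        map_mul' := by
          intro x y
          change e (g (e.symm (x * y))) = e (g (e.symm x)) * e (g (e.symm y))
          rw [hmul, g.map_fun]
          apply Subtype.ext
          change ((Structure.funMap mulS (g ∘ ![e.symm x, e.symm y]) : S0) : A) = _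
          rw [hcoe, funMap_mul]
          rfl
        map_add' := by
          intro x y
          change e (g (e.symm (x + y))) = e (g (e.symm x)) + e (g (e.symm y))
          rw [hadd, g.map_fun]
          apply Subtype.ext
          change ((Structure.funMap addS (g ∘ ![e.symm x, e.symm y]) : S0) : A) = _
          rw [hcoe, funMap_add]
          rfl }
    refine ⟨B, ?_, ?_⟩
    · intro n
      obtain ⟨F, hF, hF'⟩ := RN.ryll_nardzewski hcat' n
      refine ⟨(fun f => e ∘ f) '' F, hF.image _, fun x => ?_⟩
      obtain ⟨g, f, hf, hfx⟩ := hF' (e.symm ∘ x)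
      refine ⟨ρ g, trivial, e ∘ f, ⟨f, hf, rfl⟩, fun i => ?_⟩
      have h1 := hfx i
      change x i = e (g (e.symm (e (f i))))
      rw [Equiv.symm_apply_apply, ← h1]
      simp
    · intro k hk
      rw [derived_bot_iff] at hk ⊢
      have h1 : S0 ⊨ sig k := by
        rw [realize_sig]
        intro x
        apply Subtype.ext
        rw [hcoe, funMap_zero]
        have h2 := congrArg Subtype.val (hk (e ∘ x))
        rw [tree_coe] at h2
        have h3 : ((Term.realize x (tt k) : S0) : A) = Term.realize (fun i => (x i : A)) (tt k) := by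
          exact (HomClass.realize_term S0.subtype (t := tt k) (v := x)).symm
        rw [h3, realize_tt]
        exact h2
      rw [S0.realize_sentence, realize_sig] at h1
      intro x
      rw [← realize_tt, h1, funMap_zero]

end Pool.Agent.Helper1.BD8
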