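import Mathlib
import Pool.Agent.Helper99.BD8.Defs
import Pool.Agent.Helper1.BD8.Words

/-!
A perfect `G`-simple ring with finitely many `G`-orbits on tuples has no nonzero sandwich.
-/

set_option autoImplicit false

namespace Pool.Agent.Helper1.BD8

open Pool.Agent.Helper99.BD8

variable {A : Type*} [NonUnitalNonAssocRing A]

theorem T_add (t : Bool) (a b x : A) : T t (a + b) x = T t a x + T t b x := by
  cases t
  · exact mul_add x a b
  · exact add_mul a b x

theorem T_zero (t : Bool) (x : A) : T t 0 x = 0 := by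
  cases t
  · exact mul_zero x
  · exact zero_mul x

theorem map_T (g : RingAut A) (t : Bool) (a x : A) : g (T t a x) = T t (g a) (g x) := by
  cases t
  · exact map_mul g x a
  · exact map_mul g a x

theorem T_T_zero (t : Bool) {x : A} (a : A) (h : x = 0) : T t a x = 0 := by rw [h, map_zero]

theorem Ig_T_Ig {b : A} (hb : Sandwich b) (t : Bool) {y z : A} (hy : y ∈ Ig b) (hz : z ∈ Ig b) :
    T t y z = 0 := by
  cases t
  · exact Ig_mul_Ig hb hz hy
  · exact Ig_mul_Ig hb hy hz

theorem Ig_T' {b y : A} (h : y ∈ Ig b) (t : Bool) (z : A) : T t y z ∈ Ig b := by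
  cases t
  · exact Ig_mul_left h z
  · exact Ig_mul_right h z

theorem pw_T_mul {x : A} {m n : ℕ} {a y : A} (ha : Pw x m a) (hy : Pw x n y) (t : Bool) :
    Pw x (m + n) (T t a y) := by
  cases t
  · have := hy.mul ha
    rw [Nat.add_comm] at this
    exact this
  · exact ha.mul hy

/-! ### ideals -/

theorem top_of_gen {G : Subgroup (RingAut A)} (hs : GSimple G) (S : Set A)
    (h1 : ∀ a ∈ S, ∀ x : A, a * x ∈ S ∧ x * a ∈ S) (h2 : ∀ g ∈ G, ∀ a ∈ S, g a ∈ S)
    (h3 : ∃ a ∈ S, a ≠ 0) : AddSubgroup.closure S = ⊤ := by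
  have hid : IsIdl (AddSubgroup.closure S) := by
    intro a ha x
    induction ha using AddSubgroup.closure_induction with
    | mem a ha =>
      exact ⟨AddSubgroup.subset_closure (h1 a ha x).1, AddSubgroup.subset_closure (h1 a ha x).2⟩
    | zero => rw [mul_zero, zero_mul]; exact ⟨AddSubgroup.zero_mem _, AddSubgroup.zero_mem _⟩
    | add y z _ _ h1 h2 =>
      rw [mul_add, add_mul]
      exact ⟨AddSubgroup.add_mem _ h1.1 h2.1, AddSubgroup.add_mem _ h1.2 h2.2⟩
    | neg y _ h1 =>
      rw [mul_neg, neg_mul]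
      exact ⟨AddSubgroup.neg_mem _ h1.1, AddSubgroup.neg_mem _ h1.2⟩
  have hG : ∀ g ∈ G, ∀ a ∈ AddSubgroup.closure S, g a ∈ AddSubgroup.closure S := by
    intro g hg a ha
    induction ha using AddSubgroup.closure_induction with
    | mem a ha => exact AddSubgroup.subset_closure (h2 g hg a ha)
    | zero => rw [map_zero]; exact AddSubgroup.zero_mem _
    | add y z _ _ h1 h2 => rw [map_add]; exact AddSubgroup.add_mem _ h1 h2
    | neg y _ h1 => rw [map_neg]; exact AddSubgroup.neg_mem _ h1
  rcases hs _ hid hG with h | h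
  · exfalso
    obtain ⟨a, ha, ha0⟩ := h3
    apply ha0
    have : a ∈ AddSubgroup.closure S := AddSubgroup.subset_closure ha
    rw [h] at this
    exact AddSubgroup.mem_bot.1 this
  · exact h

theorem sandwich_top {G : Subgroup (RingAut A)} (hs : GSimple G) {u : A} (hu : u ≠ 0)
    (hsw : Sandwich u) : AddSubgroup.closure {a : A | Sandwich a} = ⊤ := by
  apply top_of_gen hs
  · intro a ha x
    exact ⟨sandwich_of_mem_Ig ha (Ig_mul_right (self_mem_Ig a) x),
      sandwich_of_mem_Ig ha (Ig_mul_left (self_mem_Ig a) x)⟩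
  · intro g _ a ha
    exact Sandwich.map ha g
  · exact ⟨u, hsw, hu⟩

theorem exists_nil (htop : AddSubgroup.closure {a : A | Sandwich a} = ⊤) (x : A) :
    ∃ c : ℕ, ∀ z, Pw x c z → z = 0 := by
  have hx : x ∈ AddSubgroup.closure {a : A | Sandwich a} := by rw [htop]; trivial
  induction hx using AddSubgroup.closure_induction with
  | mem a ha => exact ⟨2, fun z hz => hz.eq_zero_of_sandwich ha le_rfl⟩
  | zero => exact ⟨1, fun z hz => hz.zero_eq le_rfl⟩
  | add y z _ _ h1 h2 =>
    obtain ⟨c, hc⟩ := h1
    obtain ⟨d, hd⟩ := h2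
    exact ⟨c + d, nil_add hc hd⟩
  | neg y _ h1 =>
    obtain ⟨c, hc⟩ := h1
    exact ⟨c, fun z hz => hc z hz.of_neg⟩

theorem exists_nil_uniform {G : Subgroup (RingAut A)} (hG : OrbFin G)
    (h : ∀ x : A, ∃ c : ℕ, ∀ z, Pw x c z → z = 0) :
    ∃ c : ℕ, ∀ x z : A, Pw x c z → z = 0 := by
  obtain ⟨F, hF, hFG⟩ := hG 1
  choose c hc using h
  obtain ⟨C, hC⟩ : ∃ C : ℕ, ∀ f ∈ F, c (f 0) ≤ C := by
    obtain ⟨C, hC⟩ := (hF.image fun f => c (f 0)).bddAbove
    exact ⟨C, fun f hf => hC (Set.mem_image_of_mem _ hf)⟩
  refine ⟨C, fun x z hz => ?_⟩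
  obtain ⟨g, hg, f, hf, hx⟩ := hFG fun _ => x
  have hx0 : x = g (f 0) := hx 0
  have h1 : Pw (f 0) C (g.symm z) := by
    have := hz.map g.symm
    rwa [hx0, RingEquiv.symm_apply_apply] at this
  have h2 := hc (f 0) _ (h1.mono (hC f hf))
  have h3 : z = g (g.symm z) := (RingEquiv.apply_symm_apply g z).symm
  rw [h3, h2, map_zero]

theorem exists_index {G : Subgroup (RingAut A)} (hG : OrbFin G) (hs : GSimple G) {u : A}
    (hu : u ≠ 0) (hsw : Sandwich u) :
    ∃ d : ℕ, (∀ x z : A, Pw x (d + 1) z → z = 0) ∧
      AddSubgroup.closure {p : A | ∃ a, Pw a d p} = ⊤ := by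
  classical
  have h := exists_nil_uniform hG (exists_nil (sandwich_top hs hu hsw))
  have h1 := Nat.find_spec h
  have h2 := fun m (hm : m < Nat.find h) => Nat.find_min h hm
  generalize hc : Nat.find h = c at h1 h2
  rcases c with _ | d
  · exact absurd (h1 u u (Pw.top u)) hu
  · refine ⟨d, h1, ?_⟩
    have h3 := h2 d (Nat.lt_succ_self d)
    push Not at h3
    obtain ⟨a, p, hp, hp0⟩ := h3
    apply top_of_gen hs
    · rintro p ⟨a, hp⟩ x
      exact ⟨⟨a, hp.mul_right x⟩, ⟨a, hp.mul_left x⟩⟩
    · rintro g _ p ⟨a, hp⟩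
      exact ⟨g a, hp.map g⟩
    · exact ⟨p, ⟨a, hp⟩, hp0⟩

/-! ### the chain relation -/

/-- one step of the chain -/
def Erel (a b y y' : A) : Prop :=
  ∀ (t : Bool) (w : List (Bool × A)), T t b (W w y) + T t a (W w y') = 0

/-- `y` is the start of a chain of length `n` ending in zero -/
def Chain (a b : A) : ℕ → A → Prop
  | 0, y => y = 0
  | n + 1, y => ∃ y', Erel a b y y' ∧ Chain a b n y'

theorem Chain.succ {a b : A} {n : ℕ} {y : A} (h : Chain a b n y) : Chain a b (n + 1) y := by
  induction n generalizing y with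
  | zero =>
    have h' : y = 0 := h
    refine ⟨0, ?_, rfl⟩
    intro t w
    rw [h', map_zero, map_zero, map_zero, add_zero]
  | succ n ih =>
    obtain ⟨y', h1, h2⟩ := h
    exact ⟨y', h1, ih h2⟩

theorem Chain.mono {a b : A} {n m : ℕ} {y : A} (h : Chain a b n y) (hnm : n ≤ m) :
    Chain a b m y := by
  induction hnm with
  | refl => exact h
  | step _ ih => exact ih.succ

theorem Erel.map {a b y y' : A} (h : Erel a b y y') (g : RingAut A) :
    Erel (g a) (g b) (g y) (g y') := by
  intro t w
  have hw : w = (w.map fun p => (p.1, g.symm p.2)).map fun p => (p.1, g p.2) := by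
    rw [List.map_map]
    rw [show ((fun p : Bool × A => (p.1, g p.2)) ∘ fun p : Bool × A => (p.1, g.symm p.2)) = id from by
      funext p; simp]
    simp
  rw [hw, ← map_W, ← map_W, ← map_T, ← map_T, ← map_add, h, map_zero]

theorem Chain.map {a b : A} {n : ℕ} {y : A} (h : Chain a b n y) (g : RingAut A) :
    Chain (g a) (g b) n (g y) := by
  induction n generalizing y with
  | zero =>
    have h' : y = 0 := h
    change g y = 0
    rw [h', map_zero]
  | succ n ih =>
    obtain ⟨y', h1, h2⟩ := h
    exact ⟨g y', h1.map g, ih h2⟩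

theorem exists_chain_bound {G : Subgroup (RingAut A)} (hG : OrbFin G) :
    ∃ N : ℕ, ∀ (a b y : A) (m : ℕ), Chain a b m y → Chain a b N y := by
  classical
  obtain ⟨F, hF, hFG⟩ := hG 3
  have hex : ∀ f : Fin 3 → A, ∃ n : ℕ, ∀ m, Chain (f 0) (f 1) m (f 2) →
      Chain (f 0) (f 1) n (f 2) := by
    intro f
    by_cases h : ∃ m, Chain (f 0) (f 1) m (f 2)
    · obtain ⟨m, hm⟩ := h
      exact ⟨m, fun _ _ => hm⟩
    · push Not at h
      exact ⟨0, fun m hm => absurd hm (h m)⟩
  choose c hc using hex
  obtain ⟨N, hN⟩ : ∃ N : ℕ, ∀ f ∈ F, c f ≤ N := by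
    obtain ⟨C, hC⟩ := (hF.image c).bddAbove
    exact ⟨C, fun f hf => hC (Set.mem_image_of_mem _ hf)⟩
  refine ⟨N, fun a b y m hm => ?_⟩
  obtain ⟨g, hg, f, hf, hx⟩ := hFG ![a, b, y]
  have h0 : a = g (f 0) := hx 0
  have h1 : b = g (f 1) := hx 1
  have h2 : y = g (f 2) := hx 2
  have h3 : Chain (f 0) (f 1) m (f 2) := by
    have := hm.map g.symm
    rw [h0, h1, h2] at this
    simpa using this
  have h4 := ((hc f m h3).mono (hN f hf)).map g
  rwa [← h0, ← h1, ← h2] at h4

/-! ### good sequences -/

/-- the sequence `X` satisfies all relations of a chain for `(a, b)` -/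
def Good (a b : A) (X : ℕ → A) : Prop :=
  (∀ t w, T t a (W w (X 0)) = 0) ∧ ∀ j, Erel a b (X j) (X (j + 1))

theorem Good.zero (X : ℕ → A) : Good 0 0 X :=
  ⟨fun t w => T_zero t _, fun j t w => by rw [T_zero, T_zero, add_zero]⟩

theorem Good.add {a b a' b' : A} {X : ℕ → A} (h : Good a b X) (h' : Good a' b' X) :
    Good (a + a') (b + b') X := by
  refine ⟨fun t w => ?_, fun j t w => ?_⟩
  · rw [T_add, h.1, h'.1, add_zero]
  · rw [T_add, T_add, add_add_add_comm, h.2 j t w, h'.2 j t w, add_zero]

/-- multiplication of the polynomial `X` by `p + q s` -/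
def step (p q : A) (X : ℕ → A) : ℕ → A
  | 0 => X 0 * p
  | j + 1 => X (j + 1) * p + X j * q

theorem W_mul_right (w : List (Bool × A)) (x p : A) :
    W w (x * p) = W (w ++ [(false, p)]) x := by
  rw [W_append, W_cons, W_nil, mul_one]; rfl

theorem W_mul_left (w : List (Bool × A)) (x p : A) :
    W w (x * p) = W (w ++ [(true, x)]) p := by
  rw [W_append, W_cons, W_nil, mul_one]; rfl

theorem Good.step {a b : A} {X : ℕ → A} (h : Good a b X) (p q : A) :
    Good a b (step p q X) := by
  refine ⟨fun t w => ?_, fun j t w => ?_⟩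
  · change T t a (W w (X 0 * p)) = 0
    rw [W_mul_right]
    exact h.1 _ _
  · rcases j with _ | j
    · change T t b (W w (X 0 * p)) + T t a (W w (X 1 * p + X 0 * q)) = 0
      rw [map_add (W w), map_add, W_mul_right, W_mul_right, W_mul_right, ← add_assoc, h.2 0, h.1,
        add_zero]
    · change T t b (W w (X (j + 1) * p + X j * q)) +
        T t a (W w (X (j + 2) * p + X (j + 1) * q)) = 0
      rw [map_add (W w), map_add (W w), map_add, map_add, W_mul_right, W_mul_right, W_mul_right,
        W_mul_right, add_add_add_comm, h.2 (j + 1), h.2 j, add_zero]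

theorem good_of_pair {a b p q : A} (h1 : ∀ t w, T t a (W w p) = 0)
    (h2 : ∀ t w, T t b (W w p) + T t a (W w q) = 0) (h3 : ∀ t w, T t b (W w q) = 0)
    (X : ℕ → A) : Good a b (BD8.step p q X) := by
  refine ⟨fun t w => ?_, fun j t w => ?_⟩
  · change T t a (W w (X 0 * p)) = 0
    rw [W_mul_left]
    exact h1 _ _
  · rcases j with _ | j
    · change T t b (W w (X 0 * p)) + T t a (W w (X 1 * p + X 0 * q)) = 0
      rw [map_add (W w), map_add, W_mul_left, W_mul_left, W_mul_left, h1, zero_add, h2]
    · change T t b (W w (X (j + 1) * p + X j * q)) +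
        T t a (W w (X (j + 2) * p + X (j + 1) * q)) = 0
      rw [map_add (W w), map_add (W w), map_add, map_add, W_mul_left, W_mul_left, W_mul_left,
        W_mul_left, h1, zero_add, h3, add_zero, h2]

theorem chain_of_erel {a b : A} {X : ℕ → A} (h : ∀ j, Erel a b (X j) (X (j + 1))) (n j : ℕ)
    (h0 : X (j + n) = 0) : Chain a b n (X j) := by
  induction n generalizing j with
  | zero => exact h0
  | succ n ih => exact ⟨X (j + 1), h j, ih (j + 1) (by rwa [add_assoc, add_comm 1 n])⟩

/-! ### data -/

/-- one item of data -/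
structure Dat (A : Type*) where
  t : Bool
  c : A
  a : A
  b : A
  p : A
  q : A

/-- validity of an item of data -/
structure Dat.Valid (d : ℕ) (e : Dat A) : Prop where
  hc : Sandwich e.c
  hb : Sandwich e.b
  hp : Pw e.a d e.p
  hq : e.q ∈ Ig e.b
  hpq : Pw (e.a + e.b) d (e.p + e.q)

/-- the sum of `c * f` over the data -/
def wsum (f : Dat A → A) (l : List (Dat A)) : A := (l.map fun e => e.c * f e).sum

theorem wsum_nil (f : Dat A → A) : wsum f [] = 0 := rfl

theorem wsum_cons (f : Dat A → A) (e : Dat A) (l : List (Dat A)) :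
    wsum f (e :: l) = e.c * f e + wsum f l := by simp [wsum]

theorem wsum_append (f : Dat A → A) (l l' : List (Dat A)) :
    wsum f (l ++ l') = wsum f l + wsum f l' := by simp [wsum]

/-- the words made from the data -/
def word (f : Dat A → A) (l : List (Dat A)) : List (Bool × A) := l.map fun e => (e.t, e.c * f e)

/-- the polynomial `x (p + q s) ...` -/
def sq (x : A) : List (Dat A) → ℕ → A
  | [] => fun j => if j = 0 then x else 0
  | e :: l => step e.p e.q (sq x l)

theorem sq_eq_zero (x : A) (l : List (Dat A)) (j : ℕ) (hj : l.length < j) : sq x l j = 0 := by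
  induction l generalizing j with
  | nil =>
    have : j ≠ 0 := by simp at hj; omega
    simp [sq, this]
  | cons e l ih =>
    rcases j with _ | j
    · simp at hj
    · simp only [List.length_cons] at hj
      change sq x l (j + 1) * e.p + sq x l j * e.q = 0
      rw [ih (j + 1) (by omega), ih j (by omega), zero_mul, zero_mul, add_zero]

theorem good_of_valid {d : ℕ} (hd : ∀ x z : A, Pw x (d + 1) z → z = 0) {e : Dat A}
    (he : e.Valid d) (X : ℕ → A) : Good (e.c * e.a) (e.c * e.b) (BD8.step e.p e.q X) := by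
  have h1 : ∀ t w, T t (e.c * e.a) (W w e.p) = 0 := by
    intro t w
    apply hd e.a
    have := pw_T_mul ((Pw.base (x := e.a)).mul_left e.c) (he.hp.W w) t
    rwa [Nat.add_comm 1 d] at this
  have h3 : ∀ t w, T t (e.c * e.b) (W w e.q) = 0 := by
    intro t w
    exact Ig_T_Ig he.hb t (Ig_mul_left (self_mem_Ig _) _) (Ig_W he.hq w)
  refine good_of_pair h1 ?_ h3 X
  intro t w
  have h4 : T t (e.c * (e.a + e.b)) (W w (e.p + e.q)) = 0 := by
    apply hd (e.a + e.b)
    have := pw_T_mul ((Pw.base (x := e.a + e.b)).mul_left e.c) (he.hpq.W w) t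
    rwa [Nat.add_comm 1 d] at this
  rw [mul_add, T_add, map_add (W w), map_add, map_add, h1, h3, zero_add, add_zero] at h4
  rwa [add_comm]

theorem good_sq {d : ℕ} (hd : ∀ x z : A, Pw x (d + 1) z → z = 0) (x : A) (l : List (Dat A))
    (hl : ∀ e ∈ l, e.Valid d) : Good (wsum Dat.a l) (wsum Dat.b l) (sq x l) := by
  induction l with
  | nil => exact Good.zero _
  | cons e l ih =>
    rw [wsum_cons, wsum_cons]
    apply Good.add
    · exact good_of_valid hd (hl e (by simp)) _
    · exact (ih fun e' he' => hl e' (by simp [he'])).step _ _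

/-! ### isolation -/

theorem W_word_mem (f : Dat A → A) (l : List (Dat A)) (y : A) {e : Dat A} (he : e ∈ l) :
    W (word f l) y ∈ Ig e.c := by
  induction l with
  | nil => simp at he
  | cons e' l ih =>
    change W ((e'.t, e'.c * f e') :: word f l) y ∈ _
    rw [W_cons]
    change T e'.t (e'.c * f e') (W (word f l) y) ∈ _
    rcases List.mem_cons.1 he with h | h
    · subst h
      exact Ig_T' (Ig_mul_right (self_mem_Ig _) _) _ _
    · exact Ig_T (ih h) _ _

theorem W_word_kill (f : Dat A → A) (l : List (Dat A)) {e : Dat A} (he : e ∈ l)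
    (hc : Sandwich e.c) {v : A} (hv : v ∈ Ig e.c) : W (word f l) v = 0 := by
  induction l with
  | nil => simp at he
  | cons e' l ih =>
    change W ((e'.t, e'.c * f e') :: word f l) v = _
    rw [W_cons]
    change T e'.t (e'.c * f e') (W (word f l) v) = _
    rcases List.mem_cons.1 he with h | h
    · subst h
      exact Ig_T_Ig hc _ (Ig_mul_right (self_mem_Ig _) _) (Ig_W hv _)
    · exact T_T_zero _ _ (ih h)

theorem kill_left (f g : Dat A → A) (l : List (Dat A)) (hc : ∀ e ∈ l, Sandwich e.c) (t : Bool)
    (v : A) (l' : List (Dat A)) (hl' : ∀ e ∈ l', e ∈ l) :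
    W (word f l) (T t (wsum g l') v) = 0 := by
  induction l' with
  | nil => rw [wsum_nil, T_zero, map_zero]
  | cons e l' ih =>
    rw [wsum_cons, T_add, map_add, ih fun e' he' => hl' e' (by simp [he']), add_zero]
    have he := hl' e (by simp)
    exact W_word_kill f l he (hc e he) (Ig_T' (Ig_mul_right (self_mem_Ig _) _) _ _)

theorem kill_right (f g : Dat A → A) (l : List (Dat A)) (hc : ∀ e ∈ l, Sandwich e.c) (t : Bool)
    (y : A) (l' : List (Dat A)) (hl' : ∀ e ∈ l', e ∈ l) :
    T t (wsum g l') (W (word f l) y) = 0 := by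
  induction l' with
  | nil => rw [wsum_nil, T_zero]
  | cons e l' ih =>
    rw [wsum_cons, T_add, ih fun e' he' => hl' e' (by simp [he']), add_zero]
    have he := hl' e (by simp)
    exact Ig_T_Ig (hc e he) _ (Ig_mul_right (self_mem_Ig _) _) (W_word_mem f l y he)

theorem isolate (f f' g : Dat A → A) (l1 l2 : List (Dat A)) (e : Dat A)
    (hc : ∀ e' ∈ l1 ++ e :: l2, Sandwich e'.c) (t : Bool) (y : A) :
    W (word f l1) (T t (wsum g (l1 ++ e :: l2)) (W (word f' l2) y)) =
      W (word f l1) (T t (e.c * g e) (W (word f' l2) y)) := by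
  rw [wsum_append, wsum_cons, T_add, T_add, map_add, map_add,
    kill_left f g l1 (fun e' he' => hc e' (by simp [he'])) t _ l1 (fun _ h => h),
    kill_right f' g l2 (fun e' he' => hc e' (by simp [he'])) t y l2 (fun _ h => h),
    map_zero, add_zero, zero_add]

theorem word_append (f : Dat A → A) (l l' : List (Dat A)) :
    word f (l ++ l') = word f l ++ word f l' := by simp [word]

theorem conv {a b : A} (n : ℕ) : ∀ (l1 l2 : List (Dat A)) (y : A),
    (∀ e ∈ l1 ++ l2, Sandwich e.c) → wsum Dat.a (l1 ++ l2) = a → wsum Dat.b (l1 ++ l2) = b →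
    Chain a b n y → n ≤ l1.length → W (word Dat.b l1) (W (word Dat.a l2) y) = 0 := by
  induction n with
  | zero =>
    intro l1 l2 y _ _ _ h _
    have h' : y = 0 := h
    rw [h', map_zero, map_zero]
  | succ n ih =>
    intro l1 l2 y hc ha hb h hn
    obtain ⟨y', h1, h2⟩ := h
    rcases List.eq_nil_or_concat l1 with h0 | ⟨l1', e, h0⟩
    · subst h0; simp at hn
    · rw [List.concat_eq_append] at h0
      subst h0
      rw [List.append_assoc, List.singleton_append] at hc ha hb
      have h3 := ih l1' (e :: l2) y' hc ha hb h2 (by simp at hn; omega)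
      have h4 := h1 e.t (word Dat.a l2)
      rw [← ha, ← hb] at h4
      have h5 := congrArg (W (word Dat.b l1')) h4
      rw [map_zero, map_add, isolate Dat.b Dat.a Dat.b l1' l2 e hc e.t y,
        isolate Dat.b Dat.a Dat.a l1' l2 e hc e.t y'] at h5
      have h6 : W (word Dat.b l1') (T e.t (e.c * e.a) (W (word Dat.a l2) y')) = 0 := by
        have : word Dat.a (e :: l2) = (e.t, e.c * e.a) :: word Dat.a l2 := rfl
        rw [this, W_cons] at h3
        exact h3
      rw [h6, add_zero] at h5
      rw [word_append, W_append]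
      have : word Dat.b [e] = [(e.t, e.c * e.b)] := rfl
      rw [this, W_cons, W_nil, mul_one]
      exact h5

/-! ### multi-additivity -/

theorem multi_add {Z : Set A} (hZ : AddSubgroup.closure Z = ⊤) (B : Bool → Prop) (y : A)
    (n : ℕ) (h : ∀ w : List (Bool × A), w.length = n → (∀ e ∈ w, B e.1 ∧ e.2 ∈ Z) → W w y = 0) :
    ∀ w : List (Bool × A), w.length = n → (∀ e ∈ w, B e.1) → W w y = 0 := by
  have key : ∀ (w v : List (Bool × A)), (v ++ w).length = n → (∀ e ∈ v, B e.1 ∧ e.2 ∈ Z) →
      (∀ e ∈ w, B e.1) → W (v ++ w) y = 0 := by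
    intro w
    induction w with
    | nil =>
      intro v hv hv' _
      rw [List.append_nil] at hv ⊢
      exact h v hv hv'
    | cons e w ih =>
      intro v hv hv' hw
      have hmem : e.2 ∈ AddSubgroup.closure Z := by rw [hZ]; trivial
      have hgen : ∀ z ∈ AddSubgroup.closure Z, W (v ++ (e.1, z) :: w) y = 0 := by
        intro z hz
        have hadd : ∀ z, W (v ++ (e.1, z) :: w) y = W v (T e.1 z (W w y)) := by
          intro z
          rw [W_append, W_cons]; rfl
        induction hz using AddSubgroup.closure_induction with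
        | mem z hz =>
          have := ih (v ++ [(e.1, z)]) (by
            simp only [List.length_append, List.length_cons, List.length_nil] at hv ⊢; omega)
            (by
              intro e' he'
              rcases List.mem_append.1 he' with h1 | h1
              · exact hv' e' h1
              · rw [List.mem_singleton] at h1
                subst h1
                exact ⟨hw e (by simp), hz⟩)
            (fun e' he' => hw e' (by simp [he']))
          rwa [List.append_assoc, List.singleton_append] at this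
        | zero => rw [hadd, T_zero, map_zero]
        | add z z' _ _ h1 h2 =>
          rw [hadd] at h1 h2 ⊢
          rw [T_add, map_add, h1, h2, add_zero]
        | neg z _ h1 =>
          rw [hadd] at h1 ⊢
          have h2 : T e.1 (-z) (W w y) = - T e.1 z (W w y) := by
            rw [eq_neg_iff_add_eq_zero, ← T_add, neg_add_cancel, T_zero]
          rw [h2, map_neg, h1, neg_zero]
      exact hgen e.2 hmem
  intro w hw hB
  exact key w [] (by simpa using hw) (by simp) hB

theorem eq_zero_of_ann (hann : ∀ y : A, (∀ (t : Bool) (z : A), T t z y = 0) → y = 0) (n : ℕ) :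
    ∀ y : A, (∀ w : List (Bool × A), w.length = n → W w y = 0) → y = 0 := by
  induction n with
  | zero => intro y h; simpa using h [] rfl
  | succ n ih =>
    intro y h
    apply ih
    intro w hw
    apply hann
    intro t z
    have := h ((t, z) :: w) (by simp [hw])
    rwa [W_cons] at this

theorem eq_zero_of_right (hp : Perf A) (n : ℕ)
    (h : ∀ (x : A) (w : List (Bool × A)), w.length = n → (∀ e ∈ w, e.1 = false) → W w x = 0) :
    ∀ x : A, x = 0 := by
  induction n with
  | zero => intro x; simpa using h x [] rfl (by simp)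
  | succ n ih =>
    apply ih
    intro x w hw hw'
    have hx : x ∈ AddSubgroup.closure {z : A | ∃ u v : A, u * v = z} := by
      rw [show AddSubgroup.closure {z : A | ∃ u v : A, u * v = z} = ⊤ from hp]; trivial
    induction hx using AddSubgroup.closure_induction with
    | mem x hx =>
      obtain ⟨u, v, rfl⟩ := hx
      rw [W_mul_right]
      refine h u _ (by simp [hw]) ?_
      intro e he
      rcases List.mem_append.1 he with h1 | h1
      · exact hw' e h1
      · rw [List.mem_singleton] at h1
        subst h1; rfl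
    | zero => rw [map_zero]
    | add z z' _ _ h1 h2 => rw [map_add, h1, h2, add_zero]
    | neg z _ h1 => rw [map_neg, h1, neg_zero]

theorem prod_top (hp : Perf A) (htop : AddSubgroup.closure {a : A | Sandwich a} = ⊤) :
    AddSubgroup.closure {z : A | ∃ c b : A, Sandwich c ∧ Sandwich b ∧ z = c * b} = ⊤ := by
  rw [eq_top_iff]
  rw [← show AddSubgroup.closure {z : A | ∃ u v : A, u * v = z} = ⊤ from hp,
    AddSubgroup.closure_le]
  rintro z ⟨u, v, rfl⟩
  refine mul_mem_closure (S1 := {a : A | Sandwich a}) (S2 := {a : A | Sandwich a}) ?_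
    (by rw [htop]; trivial) (by rw [htop]; trivial)
  intro a ha b hb
  exact AddSubgroup.subset_closure ⟨a, b, ha, hb, rfl⟩

theorem M2 (A : Type) [NonUnitalNonAssocRing A] (G : Subgroup (RingAut A)) (hG : OrbFin G)
    (hs : GSimple G) (hp : Perf A) (u : A) (hu : u ≠ 0) (hsw : Sandwich u) : False := by
  have htop := sandwich_top hs hu hsw
  obtain ⟨d, hd, hJ⟩ := exists_index hG hs hu hsw
  obtain ⟨N, hN⟩ := exists_chain_bound hG
  -- the annihilator is trivial
  have hann : ∀ y : A, (∀ (t : Bool) (z : A), T t z y = 0) → y = 0 := by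
    intro y hy
    by_contra hy0
    have h1 := top_of_gen hs {y : A | ∀ (t : Bool) (z : A), T t z y = 0} ?_ ?_ ⟨y, hy, hy0⟩
    · apply hu
      have h2 : ∀ x z : A, x * z = 0 := by
        intro x z
        have hz : z ∈ AddSubgroup.closure {y : A | ∀ (t : Bool) (z : A), T t z y = 0} := by
          rw [h1]; trivial
        induction hz using AddSubgroup.closure_induction with
        | mem z hz => exact hz true x
        | zero => rw [mul_zero]
        | add z z' _ _ h1 h2 => rw [mul_add, h1, h2, add_zero]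
        | neg z _ h1 => rw [mul_neg, h1, neg_zero]
      refine closure_eq_zero (S := {z : A | ∃ u v : A, u * v = z}) ?_ ?_
      · rintro a ⟨x, z, rfl⟩
        exact h2 x z
      · rw [show AddSubgroup.closure {z : A | ∃ u v : A, u * v = z} = ⊤ from hp]; trivial
    · intro a ha x
      have h3 : a * x = 0 := ha false x
      have h4 : x * a = 0 := ha true x
      rw [h3, h4]
      exact ⟨fun t z => map_zero _, fun t z => map_zero _⟩
    · intro g _ a ha t z
      have : z = g (g.symm z) := (RingEquiv.apply_symm_apply g z).symm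
      rw [this, ← map_T, ha, map_zero]
  have hZ := prod_top hp htop
  -- right products of elements of J vanish
  have h1 : ∀ (x : A) (w : List (Bool × A)), w.length = N →
      (∀ e ∈ w, e.1 = false ∧ e.2 ∈ {p : A | ∃ a, Pw a d p}) → W w x = 0 := by
    intro x w hw hw'
    apply eq_zero_of_ann hann N
    intro v hv
    refine multi_add hZ (fun _ => True) (W w x) N ?_ v hv (fun _ _ => trivial)
    clear v hv
    intro v hv hv'
    -- build the data
    have key : ∀ (v w : List (Bool × A)), v.length = w.length →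
        (∀ e ∈ v, e.2 ∈ {z : A | ∃ c b : A, Sandwich c ∧ Sandwich b ∧ z = c * b}) →
        (∀ e ∈ w, e.1 = false ∧ e.2 ∈ {p : A | ∃ a, Pw a d p}) →
        ∃ l : List (Dat A), l.length = v.length ∧ (∀ e ∈ l, e.Valid d) ∧ word Dat.b l = v ∧
          sq x l 0 = W w x := by
      intro v
      induction v with
      | nil =>
        intro w hw _ _
        have : w = [] := by
          rw [← List.length_eq_zero_iff, ← hw]; rfl
        subst this
        exact ⟨[], rfl, by simp, rfl, by simp [sq]⟩
      | cons e v ih =>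
        intro w hw hv hw'
        rcases w with _ | ⟨e', w⟩
        · simp at hw
        obtain ⟨l, h1, h2, h3, h4⟩ := ih w (by simpa using hw)
          (fun e he => hv e (by simp [he])) (fun e he => hw' e (by simp [he]))
        obtain ⟨c, b, hc, hb, hcb⟩ := hv e (by simp)
        obtain ⟨h5, a, ha⟩ := hw' e' (by simp)
        obtain ⟨q, hq, hq'⟩ := ha.shift b
        refine ⟨⟨e.1, c, a, b, e'.2, q⟩ :: l, by simp [h1], ?_, ?_, ?_⟩
        · intro e'' he''
          rcases List.mem_cons.1 he'' with h | h
          · subst h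
            exact ⟨hc, hb, ha, hq, hq'⟩
          · exact h2 e'' h
        · change (e.1, c * b) :: word Dat.b l = e :: v
          rw [h3, ← hcb]
        · change sq x l 0 * e'.2 = W (e' :: w) x
          rw [h4, W_cons]
          have : e' = (false, e'.2) := by rw [← h5]
          rw [this]; rfl
    obtain ⟨l, hl1, hl2, hl3, hl4⟩ := key v w (by rw [hv, hw]) (fun e he => (hv' e he).2) hw'
    have hgood := good_sq hd x l hl2
    have hch : Chain (wsum Dat.a l) (wsum Dat.b l) (l.length + 1) (sq x l 0) :=
      chain_of_erel hgood.2 _ 0 (sq_eq_zero x l _ (by omega))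
    have hch' := hN _ _ _ _ hch
    have := conv N l [] (sq x l 0) (by intro e he; exact (hl2 e (by simpa using he)).hc)
      (by rw [List.append_nil]) (by rw [List.append_nil]) hch' (by omega)
    rw [hl3, hl4] at this
    exact this
  have h2 : ∀ (x : A) (w : List (Bool × A)), w.length = N → (∀ e ∈ w, e.1 = false) →
      W w x = 0 := by
    intro x
    exact multi_add hJ (fun t => t = false) x N (h1 x)
  exact hu (eq_zero_of_right hp N h2 u)

end Pool.Agent.Helper1.BD8
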