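import Mathlib
import Pool.Agent.Helper99.BD8.Defs
import Pool.Agent.Helper1.BD8.Words
import Pool.Agent.Helper1.BD8.M2

/-!
Reduction of the solvability of an orbit-finite alternative nil ring to the perfect `G`-simple
case.
-/

set_option autoImplicit false

namespace Pool.Agent.Helper1.BD8

open Pool.Agent.Helper99.BD8

/-! ### alternative rings: the derived series consists of ideals -/

section alt

variable {A : Type} [NonUnitalNonAssocRing A]

theorem alt_left (halt : Alt A) (x z y : A) :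
    (x * z) * y + (z * x) * y = x * (z * y) + z * (x * y) := by
  have h1 := (halt x y).1
  have h2 := (halt z y).1
  have h3 := (halt (x + z) y).1
  simp only [add_mul, mul_add] at h3
  rw [h1, h2] at h3
  have h4 : (x * z) * y + (z * x) * y - (x * (z * y) + z * (x * y)) = 0 := by
    have h5 := sub_eq_zero.2 h3
    rw [← h5]
    abel
  exact sub_eq_zero.1 h4

theorem alt_right (halt : Alt A) (x z y : A) :
    (y * x) * z + (y * z) * x = y * (x * z) + y * (z * x) := by
  have h1 := (halt x y).2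
  have h2 := (halt z y).2
  have h3 := (halt (x + z) y).2
  simp only [add_mul, mul_add] at h3
  rw [h1, h2] at h3
  have h4 : (y * x) * z + (y * z) * x - (y * (x * z) + y * (z * x)) = 0 := by
    have h5 := sub_eq_zero.2 h3
    rw [← h5]
    abel
  exact sub_eq_zero.1 h4

theorem alt_mul_left (halt : Alt A) (x u v : A) :
    x * (u * v) = (x * u) * v + (u * x) * v - u * (x * v) := by
  rw [eq_sub_iff_add_eq, alt_left halt]

theorem alt_mul_right (halt : Alt A) (x u v : A) :
    (u * v) * x = u * (v * x) - (u * x) * v + u * (x * v) := by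
  have h := alt_right halt v x u
  have h4 : (u * v) * x - (u * (v * x) - (u * x) * v + u * (x * v)) = 0 := by
    have h5 := sub_eq_zero.2 h
    rw [← h5]
    abel
  exact sub_eq_zero.1 h4

theorem derived_isIdl (halt : Alt A) (k : ℕ) : IsIdl (derived A k) := by
  induction k with
  | zero => intro a _ x; exact ⟨trivial, trivial⟩
  | succ k ih =>
    intro a ha x
    change a ∈ AddSubgroup.closure _ at ha
    change a * x ∈ AddSubgroup.closure _ ∧ x * a ∈ AddSubgroup.closure _
    have hm : ∀ u ∈ derived A k, ∀ v ∈ derived A k,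
        u * v ∈ AddSubgroup.closure {z : A | ∃ u ∈ derived A k, ∃ v ∈ derived A k, u * v = z} :=
      fun u hu v hv => AddSubgroup.subset_closure ⟨u, hu, v, hv, rfl⟩
    induction ha using AddSubgroup.closure_induction with
    | mem a ha =>
      obtain ⟨u, hu, v, hv, rfl⟩ := ha
      constructor
      · rw [alt_mul_right halt]
        exact AddSubgroup.add_mem _ (AddSubgroup.sub_mem _ (hm u hu _ (ih v hv x).1)
          (hm _ (ih u hu x).1 v hv)) (hm u hu _ (ih v hv x).2)
      · rw [alt_mul_left halt]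
        exact AddSubgroup.sub_mem _ (AddSubgroup.add_mem _ (hm _ (ih u hu x).2 v hv)
          (hm _ (ih u hu x).1 v hv)) (hm u hu _ (ih v hv x).2)
    | zero => rw [zero_mul, mul_zero]; exact ⟨AddSubgroup.zero_mem _, AddSubgroup.zero_mem _⟩
    | add y z _ _ h1 h2 =>
      rw [mul_add, add_mul]
      exact ⟨AddSubgroup.add_mem _ h1.1 h2.1, AddSubgroup.add_mem _ h1.2 h2.2⟩
    | neg y _ h1 =>
      rw [mul_neg, neg_mul]
      exact ⟨AddSubgroup.neg_mem _ h1.1, AddSubgroup.neg_mem _ h1.2⟩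

theorem derived_succ_le (halt : Alt A) (k : ℕ) : derived A (k + 1) ≤ derived A k := by
  change AddSubgroup.closure _ ≤ _
  rw [AddSubgroup.closure_le]
  rintro z ⟨u, hu, v, hv, rfl⟩
  exact (derived_isIdl halt k u hu v).1

theorem derived_map (g : RingAut A) (k : ℕ) : ∀ a ∈ derived A k, g a ∈ derived A k := by
  induction k with
  | zero => intro a _; trivial
  | succ k ih =>
    intro a ha
    change a ∈ AddSubgroup.closure _ at ha
    change g a ∈ AddSubgroup.closure _
    induction ha using AddSubgroup.closure_induction with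
    | mem a ha =>
      obtain ⟨u, hu, v, hv, rfl⟩ := ha
      rw [map_mul]
      exact AddSubgroup.subset_closure ⟨_, ih u hu, _, ih v hv, rfl⟩
    | zero => rw [map_zero]; exact AddSubgroup.zero_mem _
    | add y z _ _ h1 h2 => rw [map_add]; exact AddSubgroup.add_mem _ h1 h2
    | neg y _ h1 => rw [map_neg]; exact AddSubgroup.neg_mem _ h1

end alt

/-! ### counting invariant subgroups -/

section count

variable {A : Type} [NonUnitalNonAssocRing A]

/-- invariance of a subgroup -/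
def Inv (G : Subgroup (RingAut A)) (I : AddSubgroup A) : Prop := ∀ g ∈ G, ∀ a ∈ I, g a ∈ I

/-- number of representatives in a subgroup -/
noncomputable def cnt (F : Set (Fin 1 → A)) (I : AddSubgroup A) : ℕ :=
  {f ∈ F | f 0 ∈ I}.ncard

theorem cnt_le {F : Set (Fin 1 → A)} (hF : F.Finite) {I J : AddSubgroup A} (h : I ≤ J) :
    cnt F I ≤ cnt F J :=
  Set.ncard_le_ncard (fun _ hf => ⟨hf.1, h hf.2⟩) (hF.subset (Set.sep_subset _ _))

theorem cnt_le_card {F : Set (Fin 1 → A)} (hF : F.Finite) (I : AddSubgroup A) :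
    cnt F I ≤ F.ncard :=
  Set.ncard_le_ncard (Set.sep_subset _ _) hF

theorem eq_of_cnt {G : Subgroup (RingAut A)} {F : Set (Fin 1 → A)} (hF : F.Finite)
    (hFG : ∀ x : Fin 1 → A, ∃ g ∈ G, ∃ f ∈ F, ∀ i, x i = g (f i))
    {I J : AddSubgroup A} (hI : Inv G I) (hJ : Inv G J) (h : I ≤ J) (hc : cnt F J ≤ cnt F I) :
    I = J := by
  apply le_antisymm h
  intro x hx
  obtain ⟨g, hg, f, hf, hxf⟩ := hFG fun _ => x
  have hx0 : x = g (f 0) := hxf 0
  have hf0 : f 0 ∈ J := by
    have h1 := hJ g⁻¹ (G.inv_mem hg) x hx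
    have h2 : (g⁻¹ : RingAut A) x = f 0 := by
      rw [hx0]
      exact RingEquiv.symm_apply_apply g (f 0)
    rwa [h2] at h1
  have hsub : {f ∈ F | f 0 ∈ I} ⊆ {f ∈ F | f 0 ∈ J} := fun _ hf => ⟨hf.1, h hf.2⟩
  have heq := Set.eq_of_subset_of_ncard_le hsub hc (hF.subset (Set.sep_subset _ _))
  have h3 : f ∈ {f ∈ F | f 0 ∈ I} := by
    rw [heq]; exact ⟨hf, hf0⟩
  rw [hx0]
  exact hI g hg _ h3.2

theorem exists_stable (halt : Alt A) (hG : OrbFin (⊤ : Subgroup (RingAut A))) :
    ∃ k, derived A (k + 1) = derived A k := by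
  obtain ⟨F, hF, hFG⟩ := hG 1
  by_contra hno
  push Not at hno
  have h1 : ∀ k, cnt F (derived A (k + 1)) < cnt F (derived A k) := by
    intro k
    by_contra hc
    push Not at hc
    exact hno k (eq_of_cnt hF hFG (fun g _ => derived_map g _) (fun g _ => derived_map g _)
      (derived_succ_le halt k) hc)
  have h2 : ∀ k, cnt F (derived A k) + k ≤ cnt F (derived A 0) := by
    intro k
    induction k with
    | zero => simp
    | succ k ih => have := h1 k; omega
  have h3 := h2 (cnt F (derived A 0) + 1)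
  omega

end count

/-! ### restriction to an invariant subring -/

section restrict

variable {A : Type} [NonUnitalNonAssocRing A]

/-- the group of restrictions of elements of `G` to `P` -/
def restrictGroup (G : Subgroup (RingAut A)) (P : NonUnitalSubring A) : Subgroup (RingAut P) where
  carrier := {φ | ∃ g ∈ G, ∀ x : P, (φ x : A) = g x}
  mul_mem' := by
    rintro φ ψ ⟨g, hg, h⟩ ⟨g', hg', h'⟩
    refine ⟨g * g', G.mul_mem hg hg', fun x => ?_⟩
    change ((φ (ψ x) : P) : A) = g (g' x)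
    rw [h, h']
  one_mem' := ⟨1, G.one_mem, fun _ => rfl⟩
  inv_mem' := by
    rintro φ ⟨g, hg, h⟩
    refine ⟨g⁻¹, G.inv_mem hg, fun x => ?_⟩
    have h1 := h (φ⁻¹ x)
    have h2 : φ (φ⁻¹ x) = x := RingEquiv.apply_symm_apply φ x
    rw [h2] at h1
    rw [h1]
    exact (RingEquiv.symm_apply_apply g _).symm

theorem orbFin_restrict {G : Subgroup (RingAut A)} (hG : OrbFin G) (P : NonUnitalSubring A)
    (hP : ∀ g ∈ G, ∀ a ∈ P, g a ∈ P) : OrbFin (restrictGroup G P) := by
  intro n
  obtain ⟨F, hF, hFG⟩ := hG n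
  refine ⟨{f | (fun i => (f i : A)) ∈ F}, ?_, fun x => ?_⟩
  · apply hF.preimage
    intro f _ f' _ h
    funext i
    exact Subtype.ext (congrFun h i)
  · obtain ⟨g, hg, f, hf, hxf⟩ := hFG fun i => (x i : A)
    have hinv : ∀ a ∈ P, (g⁻¹ : RingAut A) a ∈ P := hP g⁻¹ (G.inv_mem hg)
    have hfP : ∀ i, f i ∈ P := by
      intro i
      have h1 := hinv (x i) (x i).2
      have h2 : (g⁻¹ : RingAut A) (x i) = f i := by
        rw [hxf i]
        exact RingEquiv.symm_apply_apply g (f i)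
      rwa [h2] at h1
    let φ : RingAut P :=
      { toFun := fun a => ⟨g a, hP g hg a a.2⟩
        invFun := fun a => ⟨(g⁻¹ : RingAut A) a, hinv a a.2⟩
        left_inv := fun a => Subtype.ext (RingEquiv.symm_apply_apply g a)
        right_inv := fun a => Subtype.ext (RingEquiv.apply_symm_apply g a)
        map_mul' := fun a b => Subtype.ext (map_mul g (a : A) (b : A))
        map_add' := fun a b => Subtype.ext (map_add g (a : A) (b : A)) }
    refine ⟨φ, ⟨g, hg, fun _ => rfl⟩, fun i => ⟨f i, hfP i⟩, hf, fun i => ?_⟩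
    exact Subtype.ext (hxf i)

theorem alt_sub (halt : Alt A) (P : NonUnitalSubring A) : Alt P := by
  intro x y
  exact ⟨Subtype.ext (halt x y).1, Subtype.ext (halt x y).2⟩

theorem nil_sub (hnil : Nil A) (P : NonUnitalSubring A) : Nil P := by
  intro x
  obtain ⟨n, hn⟩ := hnil x
  refine ⟨n, Subtype.ext ?_⟩
  have h : ∀ (m : ℕ) (z : P), ((((fun y : P => y * x)^[m]) z : P) : A) =
      ((fun y : A => y * x)^[m]) (z : A) := by
    intro m
    induction m with
    | zero => intro z; rfl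
    | succ m ih =>
      intro z
      rw [Function.iterate_succ_apply, Function.iterate_succ_apply, ih]
      rfl
  rw [h, hn]
  rfl

end restrict

/-! ### quotients -/

section quot

variable {B : Type} [NonUnitalNonAssocRing B] (N : TwoSidedIdeal B)

/-- the quotient map -/
def qmk : B → N.ringCon.Quotient := fun b => (b : N.ringCon.Quotient)

theorem qmk_surj : Function.Surjective (qmk N) := by
  intro x
  induction x using Quotient.inductionOn' with
  | h a => exact ⟨a, rfl⟩

theorem qmk_mul (a b : B) : qmk N (a * b) = qmk N a * qmk N b := rfl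
theorem qmk_add (a b : B) : qmk N (a + b) = qmk N a + qmk N b := rfl
theorem qmk_zero : qmk N 0 = 0 := rfl
theorem qmk_neg (a : B) : qmk N (-a) = - qmk N a := rfl

theorem qmk_eq (a b : B) : qmk N a = qmk N b ↔ a - b ∈ N := by
  rw [← TwoSidedIdeal.rel_iff]
  exact RingCon.eq _

theorem qmk_eq_zero (a : B) : qmk N a = 0 ↔ a ∈ N := by
  rw [← qmk_zero, qmk_eq, sub_zero]

/-- the quotient map as an additive homomorphism -/
def qhom : B →+ N.ringCon.Quotient where
  toFun := qmk N
  map_zero' := rfl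
  map_add' _ _ := rfl

/-- the group induced on the quotient -/
def quotGroup (G : Subgroup (RingAut B)) : Subgroup (RingAut N.ringCon.Quotient) where
  carrier := {φ | ∃ g ∈ G, ∀ x : B, φ (qmk N x) = qmk N (g x)}
  mul_mem' := by
    rintro φ ψ ⟨g, hg, h⟩ ⟨g', hg', h'⟩
    refine ⟨g * g', G.mul_mem hg hg', fun x => ?_⟩
    change φ (ψ (qmk N x)) = qmk N (g (g' x))
    rw [h', h]
  one_mem' := ⟨1, G.one_mem, fun _ => rfl⟩
  inv_mem' := by
    rintro φ ⟨g, hg, h⟩
    refine ⟨g⁻¹, G.inv_mem hg, fun x => ?_⟩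
    have h1 := h ((g⁻¹ : RingAut B) x)
    have h2 : g ((g⁻¹ : RingAut B) x) = x := RingEquiv.apply_symm_apply g x
    rw [h2] at h1
    rw [← h1]
    exact RingEquiv.symm_apply_apply φ _

theorem exists_quot_aut (g : RingAut B) (h1 : ∀ a ∈ N, g a ∈ N)
    (h2 : ∀ a ∈ N, (g⁻¹ : RingAut B) a ∈ N) :
    ∃ φ : RingAut N.ringCon.Quotient, ∀ x, φ (qmk N x) = qmk N (g x) := by
  let f : N.ringCon.Quotient → N.ringCon.Quotient := fun x =>
    Quotient.liftOn' x (fun b => qmk N (g b)) (by
      intro a b hab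
      have hab' : a - b ∈ N := (TwoSidedIdeal.rel_iff _ _ _).1 hab
      change qmk N (g a) = qmk N (g b)
      rw [qmk_eq, ← map_sub]
      exact h1 _ hab')
  let f' : N.ringCon.Quotient → N.ringCon.Quotient := fun x =>
    Quotient.liftOn' x (fun b => qmk N ((g⁻¹ : RingAut B) b)) (by
      intro a b hab
      have hab' : a - b ∈ N := (TwoSidedIdeal.rel_iff _ _ _).1 hab
      change qmk N ((g⁻¹ : RingAut B) a) = qmk N ((g⁻¹ : RingAut B) b)
      rw [qmk_eq, ← map_sub]
      exact h2 _ hab')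
  have hf : ∀ x, f (qmk N x) = qmk N (g x) := fun _ => rfl
  have hf' : ∀ x, f' (qmk N x) = qmk N ((g⁻¹ : RingAut B) x) := fun _ => rfl
  refine ⟨{ toFun := f, invFun := f', left_inv := ?_, right_inv := ?_, map_mul' := ?_,
            map_add' := ?_ }, hf⟩
  · intro x
    obtain ⟨b, rfl⟩ := qmk_surj N x
    rw [hf, hf']
    exact congrArg (qmk N) (RingEquiv.symm_apply_apply g b)
  · intro x
    obtain ⟨b, rfl⟩ := qmk_surj N x
    rw [hf', hf]
    exact congrArg (qmk N) (RingEquiv.apply_symm_apply g b)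
  · intro x y
    obtain ⟨a, rfl⟩ := qmk_surj N x
    obtain ⟨b, rfl⟩ := qmk_surj N y
    rw [← qmk_mul, hf, hf, hf, map_mul, qmk_mul]
  · intro x y
    obtain ⟨a, rfl⟩ := qmk_surj N x
    obtain ⟨b, rfl⟩ := qmk_surj N y
    rw [← qmk_add, hf, hf, hf, map_add, qmk_add]

theorem orbFin_quot {G : Subgroup (RingAut B)} (hG : OrbFin G)
    (hN : ∀ g ∈ G, ∀ a ∈ N, g a ∈ N) : OrbFin (quotGroup N G) := by
  intro n
  obtain ⟨F, hF, hFG⟩ := hG n
  refine ⟨(fun f i => qmk N (f i)) '' F, hF.image _, fun x => ?_⟩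
  choose y hy using fun i => qmk_surj N (x i)
  obtain ⟨g, hg, f, hf, hyf⟩ := hFG y
  obtain ⟨φ, hφ⟩ := exists_quot_aut N g (hN g hg) (hN g⁻¹ (G.inv_mem hg))
  refine ⟨φ, ⟨g, hg, hφ⟩, _, ⟨f, hf, rfl⟩, fun i => ?_⟩
  change x i = φ (qmk N (f i))
  rw [hφ, ← hyf, hy]

theorem alt_quot (halt : Alt B) : Alt N.ringCon.Quotient := by
  intro x y
  obtain ⟨a, rfl⟩ := qmk_surj N x
  obtain ⟨b, rfl⟩ := qmk_surj N y
  simp only [← qmk_mul]
  exact ⟨congrArg _ (halt a b).1, congrArg _ (halt a b).2⟩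

theorem nil_quot (hnil : Nil B) : Nil N.ringCon.Quotient := by
  intro x
  obtain ⟨a, rfl⟩ := qmk_surj N x
  obtain ⟨n, hn⟩ := hnil a
  refine ⟨n, ?_⟩
  have h : ∀ (m : ℕ) (z : B), ((fun y => y * qmk N a)^[m]) (qmk N z) =
      qmk N (((fun y : B => y * a)^[m]) z) := by
    intro m
    induction m with
    | zero => intro z; rfl
    | succ m ih =>
      intro z
      rw [Function.iterate_succ_apply, Function.iterate_succ_apply, ← qmk_mul, ih]
  rw [h, hn, qmk_zero]

theorem perf_quot (hp : Perf B) : Perf N.ringCon.Quotient := by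
  unfold Perf at hp ⊢
  rw [eq_top_iff]
  intro x _
  obtain ⟨a, rfl⟩ := qmk_surj N x
  have ha : a ∈ AddSubgroup.closure {z : B | ∃ u v : B, u * v = z} := by rw [hp]; trivial
  have h1 : qmk N a ∈ (AddSubgroup.closure {z : B | ∃ u v : B, u * v = z}).map (qhom N) :=
    ⟨a, ha, rfl⟩
  rw [AddMonoidHom.map_closure] at h1
  refine AddSubgroup.closure_mono ?_ h1
  rintro _ ⟨_, ⟨u, v, rfl⟩, rfl⟩
  exact ⟨qmk N u, qmk N v, rfl⟩

end quot

/-! ### the reduction -/

/-- the two-sided ideal attached to an additive subgroup which is an ideal -/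
def toTSI {B : Type} [NonUnitalNonAssocRing B] (I : AddSubgroup B) (hI : IsIdl I) :
    TwoSidedIdeal B :=
  TwoSidedIdeal.mk' (I : Set B) I.zero_mem (fun h h' => I.add_mem h h') (fun h => I.neg_mem h)
    (fun {x y} hy => (hI y hy x).2) (fun {x y} hx => (hI x hx y).1)

theorem mem_toTSI {B : Type} [NonUnitalNonAssocRing B] (I : AddSubgroup B) (hI : IsIdl I) (x : B) :
    x ∈ toTSI I hI ↔ x ∈ I := TwoSidedIdeal.mem_mk' _ _ _ _ _ _ _

theorem exists_simple_quot {B : Type} [NonUnitalNonAssocRing B] (G : Subgroup (RingAut B))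
    (hG : OrbFin G) (hne : ∃ b : B, b ≠ 0) :
    ∃ N : AddSubgroup B, ∃ hN : IsIdl N, Inv G N ∧ N ≠ ⊤ ∧
      GSimple (quotGroup (toTSI N hN) G) := by
  classical
  obtain ⟨F, hF, hFG⟩ := hG 1
  let P : ℕ → Prop := fun c => ∃ I : AddSubgroup B, IsIdl I ∧ Inv G I ∧ I ≠ ⊤ ∧ F.ncard - cnt F I = c
  have hP : ∃ c, P c := by
    refine ⟨_, ⊥, ?_, ?_, ?_, rfl⟩
    · intro a ha x
      rw [AddSubgroup.mem_bot] at ha
      subst ha
      rw [zero_mul, mul_zero]
      exact ⟨AddSubgroup.zero_mem _, AddSubgroup.zero_mem _⟩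
    · intro g _ a ha
      rw [AddSubgroup.mem_bot] at ha ⊢
      rw [ha, map_zero]
    · intro h
      obtain ⟨b, hb⟩ := hne
      have : b ∈ (⊥ : AddSubgroup B) := by rw [h]; trivial
      exact hb (AddSubgroup.mem_bot.1 this)
  obtain ⟨N, hN, hGN, hNt, hNc⟩ := Nat.find_spec hP
  have hmin := fun m (hm : m < Nat.find hP) => Nat.find_min hP hm
  rw [← hNc] at hmin
  refine ⟨N, hN, hGN, hNt, ?_⟩
  intro I hI hGI
  let T := toTSI N hN
  let J : AddSubgroup B := I.comap (qhom T)
  have hJmem : ∀ x, x ∈ J ↔ qmk T x ∈ I := fun x => Iff.rfl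
  have hNJ : N ≤ J := by
    intro x hx
    rw [hJmem, (qmk_eq_zero T x).2 ((mem_toTSI N hN x).2 hx)]
    exact I.zero_mem
  have hJi : IsIdl J := by
    intro a ha x
    rw [hJmem] at ha
    rw [hJmem, hJmem, qmk_mul, qmk_mul]
    exact hI _ ha _
  have hGJ : Inv G J := by
    intro g hg a ha
    rw [hJmem] at ha ⊢
    obtain ⟨φ, hφ⟩ := exists_quot_aut T g
      (fun a ha => (mem_toTSI N hN _).2 (hGN g hg a ((mem_toTSI N hN _).1 ha)))
      (fun a ha => (mem_toTSI N hN _).2 (hGN g⁻¹ (G.inv_mem hg) a ((mem_toTSI N hN _).1 ha)))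
    rw [← hφ]
    exact hGI φ ⟨g, hg, hφ⟩ _ ha
  by_cases hJt : J = ⊤
  · right
    rw [eq_top_iff]
    intro x _
    obtain ⟨b, rfl⟩ := qmk_surj T x
    rw [← hJmem, hJt]
    trivial
  · left
    have h1 : ¬ F.ncard - cnt F J < F.ncard - cnt F N := fun h =>
      hmin _ h ⟨J, hJi, hGJ, hJt, rfl⟩
    have h2 := cnt_le_card hF J
    have h3 := cnt_le hF hNJ
    have h4 : N = J := eq_of_cnt hF hFG hGN hGJ hNJ (by omega)
    rw [eq_bot_iff]
    intro x hx
    obtain ⟨b, rfl⟩ := qmk_surj T x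
    rw [← hJmem, ← h4] at hx
    rw [AddSubgroup.mem_bot]
    exact (qmk_eq_zero T b).2 ((mem_toTSI N hN b).2 hx)

theorem reduce (A : Type) [NonUnitalNonAssocRing A] (halt : Alt A) (hnil : Nil A)
    (hG : OrbFin (⊤ : Subgroup (RingAut A))) (hns : ∀ k, derived A k ≠ ⊥) :
    ∃ (B : Type) (_ : NonUnitalNonAssocRing B) (G : Subgroup (RingAut B)),
      Alt B ∧ Nil B ∧ OrbFin G ∧ GSimple G ∧ Perf B ∧ ∃ b : B, b ≠ 0 := by
  obtain ⟨k, hk⟩ := exists_stable halt hG
  let P : NonUnitalSubring A :=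
    { derived A k with
      mul_mem' := fun {a b} ha _ => (derived_isIdl halt k a ha b).1 }
  have hPmem : ∀ x, x ∈ P ↔ x ∈ derived A k := fun _ => Iff.rfl
  have hPG : ∀ g ∈ (⊤ : Subgroup (RingAut A)), ∀ a ∈ P, g a ∈ P :=
    fun g _ a ha => derived_map g k a ha
  have hO := orbFin_restrict hG P hPG
  have hperf : Perf P := by
    unfold Perf
    rw [eq_top_iff]
    intro x _
    let ι : P →+ A := { toFun := fun y => (y : A), map_zero' := rfl, map_add' := fun _ _ => rfl }
    have hx : (x : A) ∈ AddSubgroup.closure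
        {z : A | ∃ u ∈ derived A k, ∃ v ∈ derived A k, u * v = z} := by
      have h1 : (x : A) ∈ derived A (k + 1) := by rw [hk]; exact x.2
      exact h1
    have h2 : (x : A) ∈ (AddSubgroup.closure {z : P | ∃ u v : P, u * v = z}).map ι := by
      rw [AddMonoidHom.map_closure]
      refine AddSubgroup.closure_mono ?_ hx
      rintro z ⟨u, hu, v, hv, rfl⟩
      exact ⟨⟨u, hu⟩ * ⟨v, hv⟩, ⟨⟨u, hu⟩, ⟨v, hv⟩, rfl⟩, rfl⟩
    obtain ⟨y, hy, hyx⟩ := h2
    have : y = x := Subtype.ext hyx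
    rwa [← this]
  have hne : ∃ b : P, b ≠ 0 := by
    by_contra hno
    push Not at hno
    apply hns k
    rw [eq_bot_iff]
    intro x hx
    rw [AddSubgroup.mem_bot]
    exact congrArg Subtype.val (hno ⟨x, hx⟩)
  obtain ⟨N, hN, hGN, hNt, hsimple⟩ := exists_simple_quot (restrictGroup ⊤ P) hO hne
  refine ⟨(toTSI N hN).ringCon.Quotient, inferInstance, quotGroup (toTSI N hN) (restrictGroup ⊤ P),
    alt_quot _ (alt_sub halt P), nil_quot _ (nil_sub hnil P), ?_, hsimple, perf_quot _ hperf, ?_⟩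
  · apply orbFin_quot _ hO
    intro g hg a ha
    rw [mem_toTSI] at ha ⊢
    exact hGN g hg a ha
  · have : ∃ b : P, b ∉ N := by
      by_contra hno
      push Not at hno
      exact hNt (eq_top_iff.2 fun x _ => hno x)
    obtain ⟨b, hb⟩ := this
    refine ⟨qmk _ b, fun h => hb ?_⟩
    rw [qmk_eq_zero, mem_toTSI] at h
    exact h

/-- the final step, assuming the existence of a sandwich -/
theorem solvable_of_sandwich
    (hex : ∀ (B : Type) [NonUnitalNonAssocRing B] (G : Subgroup (RingAut B)), Alt B → Nil B →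
      OrbFin G → GSimple G → Perf B → (∃ b : B, b ≠ 0) → ∃ u : B, u ≠ 0 ∧ Sandwich u)
    (A : Type) [NonUnitalNonAssocRing A] (halt : Alt A) (hnil : Nil A)
    (hG : OrbFin (⊤ : Subgroup (RingAut A))) : ∃ k, derived A k = ⊥ := by
  by_contra hno
  push Not at hno
  obtain ⟨B, _, G, h1, h2, h3, h4, h5, h6⟩ := reduce A halt hnil hG hno
  obtain ⟨u, hu, hsw⟩ := hex B G h1 h2 h3 h4 h5 h6
  exact M2 B G h3 h4 h5 u hu hsw

end Pool.Agent.Helper1.BD8
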