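import Mathlib
import Pool.Agent.Helper1.BD8.M1
import Pool.Agent.Helper1.BD8.Reduce

/-!
S02909 from the existence of sandwiches.
-/

set_option autoImplicit false

namespace Pool.Agent.Helper1.BD8

open Pool.Agent.Helper99.BD8

theorem main_of_sandwich
    (hex : ∀ (B : Type) [NonUnitalNonAssocRing B] (G : Subgroup (RingAut B)), Alt B → Nil B →
      OrbFin G → GSimple G → Perf B → (∃ b : B, b ≠ 0) → ∃ u : B, u ≠ 0 ∧ Sandwich u) :
    ∀ (A : Type) [NonUnitalNonAssocRing A]
      (S : (FirstOrder.Language.mk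
              (fun n : ℕ => Fin (if n = 2 then 2 else if n ≤ 1 then 1 else 0))
              (fun _ : ℕ => Empty)).Structure A),
      S = { funMap := fun {n} i x =>
              if n = 2 ∧ Fin.val i = 1 then (List.ofFn x).headD 0 * (List.ofFn x).getLastD 0
              else if n = 1 then -(∑ j, x j) else ∑ j, x j,
            RelMap := fun {n} r _ => Empty.elim r } →
      (∀ x y : A, (x * x) * y = x * (x * y) ∧ (y * x) * x = y * (x * x)) →
      (∀ x : A, ∃ n : ℕ, (fun y => y * x)^[n] x = 0) →
      Cardinal.Categorical Cardinal.aleph0.{0}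
        (FirstOrder.Language.completeTheory
          (FirstOrder.Language.mk
              (fun n : ℕ => Fin (if n = 2 then 2 else if n ≤ 1 then 1 else 0))
              (fun _ : ℕ => Empty)) A) →
      ∀ D : ℕ → AddSubgroup A, D 0 = ⊤ →
        (∀ k : ℕ, D (k + 1) = AddSubgroup.closure {z : A | ∃ u ∈ D k, ∃ v ∈ D k, u * v = z}) →
        ∃ k : ℕ, D k = ⊥ := by
  intro A _ S hS halt hnil hcat D hD0 hD
  obtain ⟨B, hB, hBA⟩ := M1 A S hS hcat
  obtain ⟨k, hk⟩ := solvable_of_sandwich hex B (alt_sub halt B) (nil_sub hnil B) hB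
  refine ⟨k, ?_⟩
  have hDk : ∀ k, D k = derived A k := by
    intro k
    induction k with
    | zero => exact hD0
    | succ k ih => rw [hD, ih]; rfl
  rw [hDk]
  exact hBA k hk

end Pool.Agent.Helper1.BD8
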