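import Mathlib
import Pool.Agent.Helper99.BD8.Defs
import Pool.Agent.Helper1.BD8.AltId

/-!
Existence of absolute zero divisors in alternative rings which are nil of bounded index.
-/

set_option autoImplicit false

namespace Pool.Agent.Helper1.BD8

open Pool.Agent.Helper99.BD8

/-- `pw k x = x ^ (k + 1)` -/
def pw {A : Type} [NonUnitalNonAssocRing A] (k : ℕ) (x : A) : A := (fun y => y * x)^[k] x

theorem pw_zero {A : Type} [NonUnitalNonAssocRing A] (x : A) : pw 0 x = x := rfl

theorem pw_succ {A : Type} [NonUnitalNonAssocRing A] (k : ℕ) (x : A) :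
    pw (k + 1) x = pw k x * x := Function.iterate_succ_apply' _ _ _

section

variable {A : Type} [NonUnitalNonAssocRing A] (halt : Alt A)
include halt

theorem as_pw (z x : A) (k : ℕ) : as z (pw k x) x = 0 := by
  induction k with
  | zero => exact as_yxx halt x z
  | succ k ih =>
    rw [pw_succ, as_cyc halt, as_cyc halt, as_right halt, a3L halt, as_cyc halt x,
      as_left halt (pw k x) z x, ih, neg_zero, mul_zero, neg_zero]

theorem mul_pw (z x : A) (k : ℕ) : z * pw k x = (fun y => y * x)^[k + 1] z := by
  induction k with
  | zero => rfl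
  | succ k ih =>
    rw [Function.iterate_succ_apply', ← ih, pw_succ]
    have := as_pw halt z x k
    unfold as at this
    linear_combination (norm := (first
        | (simp only [mul_add, add_mul, mul_sub, sub_mul, mul_neg, neg_mul, mul_zero, zero_mul]; abel)
        | (simp only [mul_add, add_mul, mul_sub, sub_mul, mul_neg, neg_mul, mul_zero, zero_mul]; done)
        | abel)) -this

theorem pw_mul (x : A) (j k : ℕ) : pw j x * pw k x = pw (j + k + 1) x := by
  rw [mul_pw halt]
  unfold pw
  rw [← Function.iterate_add_apply, show k + 1 + j = j + k + 1 by omega]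

theorem cl1 {c a x : A} (h : as c a x = 0) : as (c * a) a x = 0 := by
  rw [as_left halt, a3L halt, as_left halt a c x, h, neg_zero, mul_zero, neg_zero]

theorem cl3 {c a x : A} (h : as c a x = 0) : as (c * x) a x = 0 := by
  rw [as_cyc halt, as_cyc halt, a3L halt, as_cyc halt, h, mul_zero]

theorem as_cax (a y : A) (k : ℕ) : as (pw k (a * y)) a y = 0 := by
  induction k with
  | zero => exact cl3 halt (as_xxy halt a y)
  | succ k ih =>
    rw [pw_succ]
    have h : pw k (a * y) * (a * y) = (pw k (a * y) * a) * y := by
      have := ih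
      unfold as at this
      linear_combination (norm := (first
          | (simp only [mul_add, add_mul, mul_sub, sub_mul, mul_neg, neg_mul, mul_zero, zero_mul]; abel)
          | (simp only [mul_add, add_mul, mul_sub, sub_mul, mul_neg, neg_mul, mul_zero, zero_mul]; done)
          | abel)) -this
    rw [h]
    exact cl3 halt (cl1 halt ih)

omit halt in
theorem pw_mem {K : AddSubgroup A} (hK : IsIdl K) {x : A} {m n : ℕ} (h : pw m x ∈ K)
    (hmn : m ≤ n) : pw n x ∈ K := by
  induction hmn with
  | refl => exact h
  | step _ ih => rw [pw_succ]; exact (hK _ ih x).1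

theorem pw_add {K : AddSubgroup A} (hK : IsIdl K) {a : A} (ha : a * a ∈ K) (y : A) (k : ℕ) :
    ∃ z ∈ K, pw (k + 1) (a + a * y) = pw (k + 1) (a * y) + pw k (a * y) * a + z := by
  induction k with
  | zero =>
    refine ⟨a * a + (a * a) * y, K.add_mem ha (hK _ ha y).1, ?_⟩
    rw [pw_succ, pw_succ, pw_zero, pw_zero]
    have h := (halt a y).1
    linear_combination (norm := (first
        | (simp only [mul_add, add_mul, mul_sub, sub_mul, mul_neg, neg_mul, mul_zero, zero_mul]; abel)
        | (simp only [mul_add, add_mul, mul_sub, sub_mul, mul_neg, neg_mul, mul_zero, zero_mul]; done)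
        | abel)) -h
  | succ k ih =>
    obtain ⟨z, hz, h⟩ := ih
    have h1 := as_cax halt a y k
    have h2 : as (pw k (a * y)) a (a * y) = 0 := by
      rw [as_cyc halt, a3R halt, ← as_cyc halt, h1, zero_mul]
    have h3 := (halt a (pw k (a * y))).2
    have h4 := (halt a y).1
    refine ⟨pw k (a * y) * (a * a) + pw k (a * y) * ((a * a) * y) + z * (a + a * y), ?_, ?_⟩
    · exact K.add_mem (K.add_mem (hK _ ha _).2 (hK _ (hK _ ha y).1 _).2) (hK _ hz _).1
    · rw [pw_succ (k + 1), h, pw_succ (k + 1) (a * y)]
      unfold as at h2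
      have h5 : pw k (a * y) * ((a * a) * y) = pw k (a * y) * (a * (a * y)) := by rw [h4]
      linear_combination (norm := (first
          | (simp only [mul_add, add_mul, mul_sub, sub_mul, mul_neg, neg_mul, mul_zero, zero_mul]; abel)
          | (simp only [mul_add, add_mul, mul_sub, sub_mul, mul_neg, neg_mul, mul_zero, zero_mul]; done)
          | abel)) h3 + h2 - h5

end

/-! ### homotopes -/

/-- the homotope `x * y = (x a) y` -/
def Hot (A : Type) [NonUnitalNonAssocRing A] (_ : A) : Type := A

instance instHot (A : Type) [NonUnitalNonAssocRing A] (a : A) : NonUnitalNonAssocRing (Hot A a) :=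
  { (inferInstance : AddCommGroup A) with
    mul := fun x y => ((show A from x) * a) * (show A from y)
    left_distrib := fun x y z => by
      change ((show A from x) * a) * ((show A from y) + (show A from z)) = _
      rw [mul_add]; rfl
    right_distrib := fun x y z => by
      change (((show A from x) + (show A from y)) * a) * (show A from z) = _
      rw [add_mul, add_mul]; rfl
    zero_mul := fun x => by
      change ((0 : A) * a) * (show A from x) = _
      rw [zero_mul, zero_mul]; rfl
    mul_zero := fun x => by
      change ((show A from x) * a) * (0 : A) = _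
      rw [mul_zero]; rfl }

/-- powers in the homotope -/
def hpw {A : Type} [NonUnitalNonAssocRing A] (a x : A) : ℕ → A
  | 0 => x
  | k + 1 => (hpw a x k * a) * x

theorem pw_hot {A : Type} [NonUnitalNonAssocRing A] (a : A) (x : A) (k : ℕ) :
    @Eq A (@pw (Hot A a) (instHot A a) k x) (hpw a x k) := by
  induction k with
  | zero => rfl
  | succ k ih =>
    have h := @pw_succ (Hot A a) (instHot A a) k x
    exact Eq.trans h (congrArg (fun y : A => (y * a) * x) ih)

theorem alt_hot {A : Type} [NonUnitalNonAssocRing A] (halt : Alt A) (a : A) : Alt (Hot A a) := by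
  intro x y
  change A at x y
  constructor
  · change (((x * a) * x) * a) * y = (x * a) * ((x * a) * y)
    rw [← (halt (x * a) y).1]
    have h : as (x * a) x a = 0 := by
      rw [as_left halt, a3R halt, as_yxx halt, zero_mul, neg_zero]
    have h2 : ((x * a) * x) * a = (x * a) * (x * a) := by
      unfold as at h
      linear_combination (norm := (first
          | (simp only [mul_add, add_mul, mul_sub, sub_mul, mul_neg, neg_mul, mul_zero, zero_mul]; abel)
          | (simp only [mul_add, add_mul, mul_sub, sub_mul, mul_neg, neg_mul, mul_zero, zero_mul]; done)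
          | abel)) h
    rw [h2]
  · change (((y * a) * x) * a) * x = (y * a) * ((x * a) * x)
    rw [moufR halt, flex halt]

theorem hot_pw {A : Type} [NonUnitalNonAssocRing A] (halt : Alt A) (a x : A) (k : ℕ) :
    as (hpw a x k) a x = 0 ∧ a * hpw a x k = pw k (a * x) := by
  induction k with
  | zero =>
    refine ⟨?_, rfl⟩
    change as x a x = 0
    rw [as_right halt, as_xxy halt, neg_zero]
  | succ k ih =>
    have e : hpw a x (k + 1) = (hpw a x k * a) * x := rfl
    rw [e]
    refine ⟨cl3 halt (cl1 halt ih.1), ?_⟩
    have h1 := ih.1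
    generalize hpw a x k = z at ih h1
    rw [pw_succ, ← ih.2]
    have h2 : as a z (a * x) = 0 := by
      rw [as_right halt, a3R halt, as_cyc halt a x z, as_cyc halt x z a, h1, zero_mul, neg_zero]
    unfold as at h1 h2
    have h3 : a * ((z * a) * x - z * (a * x)) = a * 0 := by rw [h1]
    linear_combination (norm := (first
        | (simp only [mul_add, add_mul, mul_sub, sub_mul, mul_neg, neg_mul, mul_zero, zero_mul]; abel)
        | (simp only [mul_add, add_mul, mul_sub, sub_mul, mul_neg, neg_mul, mul_zero, zero_mul]; done)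
        | abel)) h3 - h2

theorem azd_exists (n : ℕ) : ∀ (A : Type) [NonUnitalNonAssocRing A], Alt A →
    ∀ K : AddSubgroup A, IsIdl K → (∀ x : A, pw n x ∈ K) → (∃ z : A, z ∉ K) →
    ∃ e : A, e ∉ K ∧ ∀ x, (e * x) * e ∈ K := by
  induction n with
  | zero =>
    intro A _ _ K _ h1 h2
    obtain ⟨z, hz⟩ := h2
    exact absurd (h1 z) hz
  | succ n ih =>
    intro A _ halt K hK hn hne
    by_cases hall : ∀ x : A, pw n x ∈ K
    · exact ih A halt K hK hall hne
    push Not at hall
    obtain ⟨x0, hx0⟩ := hall
    obtain ⟨a, ha⟩ : ∃ a, a = pw n x0 := ⟨_, rfl⟩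
    rw [← ha] at hx0
    have haa : a * a ∈ K := by
      rw [ha, pw_mul halt]
      exact pw_mem hK (hn x0) (by omega)
    have hkey : ∀ y, pw n (a * y) * a ∈ K := by
      intro y
      obtain ⟨z, hz, h⟩ := pw_add halt hK haa y n
      have h1 : pw n (a * y) * a = pw (n + 1) (a + a * y) - pw (n + 1) (a * y) - z := by
        rw [h]; abel
      rw [h1]
      exact K.sub_mem (K.sub_mem (hn _) (hn _)) hz
    by_cases hazd : ∀ x, (a * x) * a ∈ K
    · exact ⟨a, hx0, hazd⟩
    push Not at hazd
    obtain ⟨z0, hz0⟩ := hazd
    -- the homotope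
    let K' : AddSubgroup (Hot A a) :=
      { carrier := {z : A | (a * z) * a ∈ K}
        zero_mem' := by
          change (a * (0 : A)) * a ∈ K
          rw [mul_zero, zero_mul]; exact K.zero_mem
        add_mem' := by
          intro x y hx hy
          change A at x y
          change (a * (x + y)) * a ∈ K
          rw [mul_add, add_mul]
          exact K.add_mem hx hy
        neg_mem' := by
          intro x hx
          change A at x
          change (a * (-x)) * a ∈ K
          rw [mul_neg, neg_mul]
          exact K.neg_mem hx }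
    have hK' : IsIdl K' := by
      intro z hz y
      change A at z y
      change (a * z) * a ∈ K at hz
      constructor
      · change (a * ((z * a) * y)) * a ∈ K
        rw [← moufM halt, ← flex halt]
        exact (hK _ hz _).1
      · change (a * ((y * a) * z)) * a ∈ K
        rw [← moufM halt, ← flex halt, ← moufL halt, ← flex halt]
        exact (hK _ (hK _ hz _).2 _).2
    obtain ⟨b, hb, hb'⟩ := ih (Hot A a) (alt_hot halt a) K' hK' (by
      intro x
      have h1 : (a * hpw a x n) * a ∈ K := by
        rw [(hot_pw halt a x n).2]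
        exact hkey x
      have h2 : ∀ y : A, y = hpw a x n → (a * y) * a ∈ K := by
        intro y hy
        rw [hy]
        exact h1
      exact h2 _ (pw_hot a x n)) ⟨z0, hz0⟩
    change A at b
    refine ⟨(a * b) * a, hb, fun x => ?_⟩
    have h := hb' x
    change (a * ((((b * a) * x) * a) * b)) * a ∈ K at h
    rw [← moufL halt, moufM halt, moufM halt b, flex halt a x, ← moufR halt]
    exact h

theorem exists_azd {A : Type} [NonUnitalNonAssocRing A] (halt : Alt A) (n : ℕ)
    (hn : ∀ x : A, pw n x = 0) (hne : ∃ z : A, z ≠ 0) :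
    ∃ e : A, e ≠ 0 ∧ e * e = 0 ∧ ∀ x, (e * x) * e = 0 := by
  obtain ⟨e, he, he'⟩ := azd_exists n A halt ⊥ (by
    intro a ha x
    rw [AddSubgroup.mem_bot] at ha
    subst ha
    rw [zero_mul, mul_zero]
    exact ⟨AddSubgroup.zero_mem _, AddSubgroup.zero_mem _⟩)
    (fun x => AddSubgroup.mem_bot.2 (hn x)) (by
      obtain ⟨z, hz⟩ := hne
      exact ⟨z, fun h => hz (AddSubgroup.mem_bot.1 h)⟩)
  have he0 : e ≠ 0 := fun h => he (by rw [h]; exact AddSubgroup.zero_mem _)
  have he1 : ∀ x, (e * x) * e = 0 := fun x => AddSubgroup.mem_bot.1 (he' x)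
  by_cases hee : e * e = 0
  · exact ⟨e, he0, hee, he1⟩
  · refine ⟨e * e, hee, ?_, ?_⟩
    · rw [← (halt e (e * e)).2, he1, zero_mul]
    · intro x
      rw [← (halt e ((e * e) * x)).2, (halt e x).1, he1, zero_mul]

end Pool.Agent.Helper1.BD8
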