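import Mathlib
import Pool.Agent.Helper99.BD8.Defs
import Pool.Agent.Helper1.BD8.AltId
import Pool.Agent.Helper1.BD8.Azd
import Pool.Agent.Helper99.BD8.Levels0

set_option autoImplicit false

namespace Pool.Agent.Helper1.BD8

open Pool.Agent.Helper99.BD8

variable {A : Type} [NonUnitalNonAssocRing A]

theorem as_add1 (x x' y z : A) : as (x + x') y z = as x y z + as x' y z := by
  unfold as; linear_combination (norm := (first
      | (simp only [mul_add, add_mul, mul_sub, sub_mul, mul_neg, neg_mul, mul_zero, zero_mul]; abel)
      | (simp only [mul_add, add_mul, mul_sub, sub_mul, mul_neg, neg_mul, mul_zero, zero_mul]; done)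
      | abel)) (rfl : (0:A) = 0)
theorem as_add2 (x y y' z : A) : as x (y + y') z = as x y z + as x y' z := by
  unfold as; linear_combination (norm := (first
      | (simp only [mul_add, add_mul, mul_sub, sub_mul, mul_neg, neg_mul, mul_zero, zero_mul]; abel)
      | (simp only [mul_add, add_mul, mul_sub, sub_mul, mul_neg, neg_mul, mul_zero, zero_mul]; done)
      | abel)) (rfl : (0:A) = 0)
theorem as_add3 (x y z z' : A) : as x y (z + z') = as x y z + as x y z' := by
  unfold as; linear_combination (norm := (first
      | (simp only [mul_add, add_mul, mul_sub, sub_mul, mul_neg, neg_mul, mul_zero, zero_mul]; abel)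
      | (simp only [mul_add, add_mul, mul_sub, sub_mul, mul_neg, neg_mul, mul_zero, zero_mul]; done)
      | abel)) (rfl : (0:A) = 0)
theorem as_sub3 (x y z z' : A) : as x y (z - z') = as x y z - as x y z' := by
  unfold as; linear_combination (norm := (first
      | (simp only [mul_add, add_mul, mul_sub, sub_mul, mul_neg, neg_mul, mul_zero, zero_mul]; abel)
      | (simp only [mul_add, add_mul, mul_sub, sub_mul, mul_neg, neg_mul, mul_zero, zero_mul]; done)
      | abel)) (rfl : (0:A) = 0)
theorem as_neg3 (x y z : A) : as x y (-z) = - as x y z := by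
  unfold as; linear_combination (norm := (first
      | (simp only [mul_add, add_mul, mul_sub, sub_mul, mul_neg, neg_mul, mul_zero, zero_mul]; abel)
      | (simp only [mul_add, add_mul, mul_sub, sub_mul, mul_neg, neg_mul, mul_zero, zero_mul]; done)
      | abel)) (rfl : (0:A) = 0)

/-- Kleinfeld function -/
def kf (w x y z : A) : A := as (w * x) y z - x * as w y z - as x y z * w

section
variable (halt : Alt A)
include halt

theorem as_rot (x y z : A) : as x y z = as z x y := by rw [as_cyc halt, as_cyc halt]
theorem as_13 (x y z : A) : as x y z = - as z y x := by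
  rw [as_left halt x y z, as_cyc halt y x z, as_cyc halt x z y]

theorem kf_34 (w x y z : A) : kf w x y z = - kf w x z y := by
  unfold kf
  rw [as_right halt (w * x) y z, as_right halt w y z, as_right halt x y z]
  linear_combination (norm := (first
      | (simp only [mul_add, add_mul, mul_sub, sub_mul, mul_neg, neg_mul, mul_zero, zero_mul]; abel)
      | (simp only [mul_add, add_mul, mul_sub, sub_mul, mul_neg, neg_mul, mul_zero, zero_mul]; done)
      | abel)) (rfl : (0:A) = 0)

theorem kf_xx (w x z : A) : kf w x x z = 0 := by
  unfold kf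
  rw [as_xxy halt, zero_mul, sub_zero, as_left halt (w * x) x z, a3L halt, as_left halt w x z]
  linear_combination (norm := (first
      | (simp only [mul_add, add_mul, mul_sub, sub_mul, mul_neg, neg_mul, mul_zero, zero_mul]; abel)
      | (simp only [mul_add, add_mul, mul_sub, sub_mul, mul_neg, neg_mul, mul_zero, zero_mul]; done)
      | abel)) (rfl : (0:A) = 0)

theorem kf_ww (w x z : A) : kf w x w z = 0 := by
  unfold kf
  rw [as_xxy halt, mul_zero, sub_zero, as_left halt (w * x) w z, a3R halt, as_left halt x w z]
  linear_combination (norm := (first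
      | (simp only [mul_add, add_mul, mul_sub, sub_mul, mul_neg, neg_mul, mul_zero, zero_mul]; abel)
      | (simp only [mul_add, add_mul, mul_sub, sub_mul, mul_neg, neg_mul, mul_zero, zero_mul]; done)
      | abel)) (rfl : (0:A) = 0)

omit halt in
theorem kf_add2 (w x x' y z : A) : kf w (x + x') y z = kf w x y z + kf w x' y z := by
  unfold kf
  rw [mul_add, as_add1, as_add1]
  linear_combination (norm := (first
      | (simp only [mul_add, add_mul, mul_sub, sub_mul, mul_neg, neg_mul, mul_zero, zero_mul]; abel)
      | (simp only [mul_add, add_mul, mul_sub, sub_mul, mul_neg, neg_mul, mul_zero, zero_mul]; done)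
      | abel)) (rfl : (0:A) = 0)
omit halt in
theorem kf_add1 (w x x' y z : A) : kf (x + x') w y z = kf x w y z + kf x' w y z := by
  unfold kf
  rw [add_mul, as_add1, as_add1]
  linear_combination (norm := (first
      | (simp only [mul_add, add_mul, mul_sub, sub_mul, mul_neg, neg_mul, mul_zero, zero_mul]; abel)
      | (simp only [mul_add, add_mul, mul_sub, sub_mul, mul_neg, neg_mul, mul_zero, zero_mul]; done)
      | abel)) (rfl : (0:A) = 0)
omit halt in
theorem kf_add3 (w x x' y z : A) : kf w y (x + x') z = kf w y x z + kf w y x' z := by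
  unfold kf
  rw [as_add2, as_add2, as_add2]
  linear_combination (norm := (first
      | (simp only [mul_add, add_mul, mul_sub, sub_mul, mul_neg, neg_mul, mul_zero, zero_mul]; abel)
      | (simp only [mul_add, add_mul, mul_sub, sub_mul, mul_neg, neg_mul, mul_zero, zero_mul]; done)
      | abel)) (rfl : (0:A) = 0)

theorem kf_23 (w x y z : A) : kf w x y z = - kf w y x z := by
  have h := kf_xx halt w (x + y) z
  rw [kf_add2, kf_add3, kf_add3, kf_xx halt, kf_xx halt] at h
  linear_combination (norm := (first
      | (simp only [mul_add, add_mul, mul_sub, sub_mul, mul_neg, neg_mul, mul_zero, zero_mul]; abel)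
      | (simp only [mul_add, add_mul, mul_sub, sub_mul, mul_neg, neg_mul, mul_zero, zero_mul]; done)
      | abel)) h

theorem kf_13 (w x y z : A) : kf w x y z = - kf y x w z := by
  have h := kf_ww halt (w + y) x z
  rw [kf_add1, kf_add3, kf_add3, kf_ww halt, kf_ww halt] at h
  linear_combination (norm := (first
      | (simp only [mul_add, add_mul, mul_sub, sub_mul, mul_neg, neg_mul, mul_zero, zero_mul]; abel)
      | (simp only [mul_add, add_mul, mul_sub, sub_mul, mul_neg, neg_mul, mul_zero, zero_mul]; done)
      | abel)) h

theorem a3L_lin (x u z y : A) :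
    as x (z * u) y + as u (z * x) y = x * as u z y + u * as x z y := by
  have h := a3L halt (x + u) z y
  rw [mul_add, as_add1, as_add2, as_add2, as_add1, a3L halt, a3L halt] at h
  linear_combination (norm := (first
      | (simp only [mul_add, add_mul, mul_sub, sub_mul, mul_neg, neg_mul, mul_zero, zero_mul]; abel)
      | (simp only [mul_add, add_mul, mul_sub, sub_mul, mul_neg, neg_mul, mul_zero, zero_mul]; done)
      | abel)) h

theorem alt_lin (x u z : A) : x * (u * z) + u * (x * z) = (x * u) * z + (u * x) * z := by
  have h := as_left halt x u z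
  unfold as at h
  linear_combination (norm := (first
      | (simp only [mul_add, add_mul, mul_sub, sub_mul, mul_neg, neg_mul, mul_zero, zero_mul]; abel)
      | (simp only [mul_add, add_mul, mul_sub, sub_mul, mul_neg, neg_mul, mul_zero, zero_mul]; done)
      | abel)) -h

/-- `(a, b, x (a b))` and similar -/
theorem q1 (a b x : A) : as a b (x * (b * a)) = (a * b) * as a b x := by
  have h : x * (b * a) = (x * b) * a + as a b x := by
    have := as_13 halt a b x
    rw [this]; unfold as
    linear_combination (norm := (first
        | (simp only [mul_add, add_mul, mul_sub, sub_mul, mul_neg, neg_mul, mul_zero, zero_mul]; abel)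
        | (simp only [mul_add, add_mul, mul_sub, sub_mul, mul_neg, neg_mul, mul_zero, zero_mul]; done)
        | abel)) (rfl : (0:A) = 0)
  rw [h, as_add3, as_right halt a b ((x * b) * a), a3L halt, as_right halt a (x * b) b, as_rot halt a b (x * b),
    as_right halt (x*b) a b]
  have h2 : as (x * b) b a = - (b * as b x a) := by rw [as_left halt, a3L halt]
  rw [h2]
  have h3 : as b x a = as a b x := as_rot halt b x a
  rw [h3]
  unfold as
  linear_combination (norm := (first
      | (simp only [mul_add, add_mul, mul_sub, sub_mul, mul_neg, neg_mul, mul_zero, zero_mul]; abel)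
      | (simp only [mul_add, add_mul, mul_sub, sub_mul, mul_neg, neg_mul, mul_zero, zero_mul]; done)
      | abel)) (rfl : (0:A) = 0)


theorem stepA (a b x : A) :
    a * (b * as a b x) + (a * b) * as a b x = (b * a) * as a b x + b * (a * as a b x) := by
  have h := a3L_lin halt b (b * a) x a
  have h1 : as b (x * (b * a)) a = (a * b) * as a b x := by
    rw [as_rot halt b, q1 halt]
  have h2 : as (b * a) (x * b) a = a * (b * as a b x) := by
    rw [as_rot halt (b * a), a3L halt, as_cyc halt a b, a3L halt, as_rot halt b x a]
  have h3 : as (b * a) x a = a * as a b x := by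
    rw [as_rot halt (b * a), a3L halt]
  rw [h1, h2, h3, as_rot halt b x a] at h
  linear_combination (norm := (first
      | (simp only [mul_add, add_mul, mul_sub, sub_mul, mul_neg, neg_mul, mul_zero, zero_mul]; abel)
      | (simp only [mul_add, add_mul, mul_sub, sub_mul, mul_neg, neg_mul, mul_zero, zero_mul]; done)
      | abel)) h

theorem twoD (a b x : A) : (2 : ℤ) • (b * (a * as a b x) - (a * b) * as a b x) = 0 := by
  have h1 := stepA halt a b x
  have h2 := alt_lin halt a b (as a b x)
  linear_combination (norm := (first
      | (simp only [mul_add, add_mul, mul_sub, sub_mul, mul_neg, neg_mul, mul_zero, zero_mul]; abel)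
      | (simp only [mul_add, add_mul, mul_sub, sub_mul, mul_neg, neg_mul, mul_zero, zero_mul]; done)
      | abel)) h2 - h1

theorem q2 (a b x : A) : as (x * (a * b)) a b = b * (a * as a b x) - as a b (as a b x) := by
  have h : x * (a * b) = (x * a) * b - as a b x := by
    rw [as_rot halt a b x]; unfold as
    linear_combination (norm := (first
        | (simp only [mul_add, add_mul, mul_sub, sub_mul, mul_neg, neg_mul, mul_zero, zero_mul]; abel)
        | (simp only [mul_add, add_mul, mul_sub, sub_mul, mul_neg, neg_mul, mul_zero, zero_mul]; done)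
        | abel)) (rfl : (0:A) = 0)
  rw [as_cyc halt, h, as_sub3, as_cyc halt a b, a3L halt, as_cyc halt b]
  have h2 : as (x * a) a b = - (a * as a x b) := by rw [as_left halt, a3L halt]
  rw [h2, as_right halt a x b]
  linear_combination (norm := (first
      | (simp only [mul_add, add_mul, mul_sub, sub_mul, mul_neg, neg_mul, mul_zero, zero_mul]; abel)
      | (simp only [mul_add, add_mul, mul_sub, sub_mul, mul_neg, neg_mul, mul_zero, zero_mul]; done)
      | abel)) (rfl : (0:A) = 0)

theorem aba_b (a b : A) : as (a * b) a b = 0 := by
  rw [as_cyc halt, as_cyc halt, a3L halt, as_yxx halt, mul_zero]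

theorem q3 (a b x : A) : kf (a * b) a x b = b * (a * as a b x) + a * (b * as a b x)
    - (2 : ℤ) • ((a * b) * as a b x) := by
  have h : kf x (a * b) a b = as (x * (a * b)) a b - (a * b) * as a b x := by
    unfold kf
    rw [aba_b halt, as_cyc halt x a b, zero_mul, sub_zero]
  have h1 : kf (a * b) a x b = kf x (a * b) a b := by
    rw [kf_13 halt, kf_23 halt, neg_neg]
  rw [h1, h, q2 halt]
  unfold as
  linear_combination (norm := (first
      | (simp only [mul_add, add_mul, mul_sub, sub_mul, mul_neg, neg_mul, mul_zero, zero_mul]; abel)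
      | (simp only [mul_add, add_mul, mul_sub, sub_mul, mul_neg, neg_mul, mul_zero, zero_mul]; done)
      | abel)) (rfl : (0:A) = 0)

/-- `((ab) x, a, b)` -/
theorem q5 (a b x : A) : as ((a * b) * x) a b = as a b x * (a * b) - b * (a * as a b x)
    - a * (b * as a b x) + (2 : ℤ) • ((a * b) * as a b x) := by
  have h := q3 halt a b x
  rw [kf_23 halt] at h
  have h1 : kf (a * b) x a b = as ((a * b) * x) a b - as a b x * (a * b) := by
    unfold kf
    rw [aba_b halt, mul_zero, sub_zero, as_rot halt a b x]
  rw [h1] at h
  linear_combination (norm := (first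
      | (simp only [mul_add, add_mul, mul_sub, sub_mul, mul_neg, neg_mul, mul_zero, zero_mul]; abel)
      | (simp only [mul_add, add_mul, mul_sub, sub_mul, mul_neg, neg_mul, mul_zero, zero_mul]; done)
      | abel)) -h

/-- `(ba, ab, x)` -/
theorem q6 (a b x : A) : as (b * a) (a * b) x = b * (a * as a b x)
    - (2 : ℤ) • ((a * b) * as a b x) + (as a b x * a) * b := by
  have h := q3 halt a b x
  have h1 : kf (a * b) a x b = kf b a (a * b) x := by
    rw [kf_34 halt, kf_13 halt, neg_neg]
  have h2 : kf b a (a * b) x = as (b * a) (a * b) x - a * as b (a * b) x - as a (a * b) x * b := rfl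
  rw [h1, h2, a3L halt, a3R halt, as_left halt b a x] at h
  linear_combination (norm := (first
      | (simp only [mul_add, add_mul, mul_sub, sub_mul, mul_neg, neg_mul, mul_zero, zero_mul]; abel)
      | (simp only [mul_add, add_mul, mul_sub, sub_mul, mul_neg, neg_mul, mul_zero, zero_mul]; done)
      | abel)) h

theorem threeD (a b x : A) : (3 : ℤ) • (b * (a * as a b x) - (a * b) * as a b x) = 0 := by
  have h1 := q5 halt a b x
  have h2 := q6 halt a b x
  have h3 : b * (a * ((a * b) * x)) = (b * a) * ((a * b) * x) + as ((a * b) * x) a b := by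
    rw [as_cyc halt _ a b, as_left halt a b]
    unfold as
    linear_combination (norm := (first
        | (simp only [mul_add, add_mul, mul_sub, sub_mul, mul_neg, neg_mul, mul_zero, zero_mul]; abel)
        | (simp only [mul_add, add_mul, mul_sub, sub_mul, mul_neg, neg_mul, mul_zero, zero_mul]; done)
        | abel)) (rfl : (0:A) = 0)
  have h4 : (b * a) * ((a * b) * x) = ((b * a) * (a * b)) * x - as (b * a) (a * b) x := by
    unfold as
    linear_combination (norm := (first
        | (simp only [mul_add, add_mul, mul_sub, sub_mul, mul_neg, neg_mul, mul_zero, zero_mul]; abel)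
        | (simp only [mul_add, add_mul, mul_sub, sub_mul, mul_neg, neg_mul, mul_zero, zero_mul]; done)
        | abel)) (rfl : (0:A) = 0)
  have h5 : b * (a * as a b x) = b * (a * ((a * b) * x)) - b * (a * (a * (b * x))) := by
    unfold as
    rw [mul_sub, mul_sub]
  have h6 : b * (a * (a * (b * x))) = ((b * (a * a)) * b) * x := by
    rw [← (halt a (b * x)).1, moufL halt]
  rw [moufM halt] at h4
  have h7 : (as a b x * a) * b - as a b x * (a * b) = (a * b) * as a b x - a * (b * as a b x) := by
    have := as_rot halt a b (as a b x)
    unfold as at this ⊢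
    exact this.symm
  have h8 : b * (a * as a b x) = as ((a * b) * x) a b - as (b * a) (a * b) x := by
    rw [h5, h6, h3, h4]
    linear_combination (norm := (first
        | (simp only [mul_add, add_mul, mul_sub, sub_mul, mul_neg, neg_mul, mul_zero, zero_mul]; abel)
        | (simp only [mul_add, add_mul, mul_sub, sub_mul, mul_neg, neg_mul, mul_zero, zero_mul]; done)
        | abel)) (rfl : (0:A) = 0)
  rw [h1, h2] at h8
  linear_combination (norm := (first
      | (simp only [mul_add, add_mul, mul_sub, sub_mul, mul_neg, neg_mul, mul_zero, zero_mul]; abel)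
      | (simp only [mul_add, add_mul, mul_sub, sub_mul, mul_neg, neg_mul, mul_zero, zero_mul]; done)
      | abel)) h8 - h7

/-- `b (a w) = (a b) w` for `w = (a, b, x)` -/
theorem bdist (a b x : A) : b * (a * as a b x) = (a * b) * as a b x := by
  have h2 := twoD halt a b x
  have h3 := threeD halt a b x
  linear_combination (norm := (first
      | (simp only [mul_add, add_mul, mul_sub, sub_mul, mul_neg, neg_mul, mul_zero, zero_mul]; abel)
      | (simp only [mul_add, add_mul, mul_sub, sub_mul, mul_neg, neg_mul, mul_zero, zero_mul]; done)
      | abel)) h3 - h2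

/-- `U_{ab} = R_b U_a L_b` -/
theorem Ufund (a b x : A) : ((a * b) * x) * (a * b) = ((a * (b * x)) * a) * b := by
  have t : as ((a * b) * x) a b - as (a * b) (x * a) b + as (a * b) x (a * b)
      = (a * b) * as x a b + as (a * b) x a * b := by
    unfold as
    linear_combination (norm := (first
        | (simp only [mul_add, add_mul, mul_sub, sub_mul, mul_neg, neg_mul, mul_zero, zero_mul]; abel)
        | (simp only [mul_add, add_mul, mul_sub, sub_mul, mul_neg, neg_mul, mul_zero, zero_mul]; done)
        | abel)) (rfl : (0:A) = 0)
  have h0 : as (a * b) x (a * b) = 0 := by rw [as_right halt, as_xxy halt, neg_zero]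
  have h1 : as (a * b) x a = as a b x * a := by
    rw [as_rot halt, a3R halt]
  have h2 : as (a * b) (x * a) b = - (b * (a * as a b x)) := by
    rw [as_rot halt (a * b), a3L halt, as_rot halt b a, as_rot halt (x * a), a3L halt,
      as_right halt a x b, mul_neg, mul_neg]
  have h3 := moufM halt a b x
  rw [h0, h1, h2, bdist halt, as_cyc halt x a b] at t
  have h4 : ((a * b) * x) * (a * b) = (((a * b) * x) * a) * b - as ((a * b) * x) a b := by
    unfold as
    linear_combination (norm := (first
        | (simp only [mul_add, add_mul, mul_sub, sub_mul, mul_neg, neg_mul, mul_zero, zero_mul]; abel)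
        | (simp only [mul_add, add_mul, mul_sub, sub_mul, mul_neg, neg_mul, mul_zero, zero_mul]; done)
        | abel)) (rfl : (0:A) = 0)
  have h5 : (((a * b) * x) * a) * b = ((a * b) * (x * a)) * b + as (a * b) x a * b := by
    unfold as
    linear_combination (norm := (first
        | (simp only [mul_add, add_mul, mul_sub, sub_mul, mul_neg, neg_mul, mul_zero, zero_mul]; abel)
        | (simp only [mul_add, add_mul, mul_sub, sub_mul, mul_neg, neg_mul, mul_zero, zero_mul]; done)
        | abel)) (rfl : (0:A) = 0)
  rw [h4, h5, h1, h3]
  linear_combination (norm := (first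
      | (simp only [mul_add, add_mul, mul_sub, sub_mul, mul_neg, neg_mul, mul_zero, zero_mul]; abel)
      | (simp only [mul_add, add_mul, mul_sub, sub_mul, mul_neg, neg_mul, mul_zero, zero_mul]; done)
      | abel)) -t

/-- `U_{ab} = L_a U_b R_a` -/
theorem Ufund' (a b x : A) : ((a * b) * x) * (a * b) = a * ((b * (x * a)) * b) := by
  rw [Ufund halt, ← moufM halt, moufR halt, flex halt]

omit halt in
theorem Y0_U {a : A} (ha : Y 0 a) (z : A) : (a * z) * a = 0 := by
  have := congrArg (fun f : AddMonoid.End A => f z) (ha.2 false true [] (le_refl _))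
  simpa using this

theorem Y0_of {a : A} (haa : a * a = 0) (hU : ∀ z, (a * z) * a = 0) : Y 0 a := by
  refine ⟨haa, ?_⟩
  intro t t' w hw
  have : w = [] := List.length_eq_zero_iff.1 (by omega)
  subst this
  ext z
  rw [W_nil, mul_one]
  cases t <;> cases t'
  · change (z * a) * a = 0
    rw [(halt a z).2, haa, mul_zero]
  · exact hU z
  · change a * (z * a) = 0
    rw [← flex halt, hU]
  · change a * (a * z) = 0
    rw [← (halt a z).1, haa, zero_mul]

theorem Y0_mul {a : A} (ha : Y 0 a) (x : A) : Y 0 (a * x) ∧ Y 0 (x * a) := by
  have hU := Y0_U ha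
  constructor
  · apply Y0_of halt
    · have h := aba_b halt a x
      unfold as at h
      rw [hU, zero_mul, zero_sub, neg_eq_zero] at h
      exact h
    · intro z
      rw [Ufund halt, hU, zero_mul]
  · apply Y0_of halt
    · have h := aba_b halt x a
      rw [as_cyc halt] at h
      unfold as at h
      rw [← flex halt a x, hU, mul_zero, sub_zero] at h
      exact h
    · intro z
      rw [Ufund' halt, hU, mul_zero]

theorem azd (k : ℕ) (hk : ∀ x : A, (fun y => y * x)^[k] x = 0) (hne : ∃ x : A, x ≠ 0) :
    ∃ b : A, b ≠ 0 ∧ Y 0 b := by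
  obtain ⟨e, he, hee, hU⟩ := exists_azd halt k hk hne
  exact ⟨e, he, Y0_of halt hee hU⟩

end

end Pool.Agent.Helper1.BD8
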