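import Mathlib
import Pool.Agent.Helper99.BD8.Defs
import Pool.Agent.Helper99.BD8.Levels0
import Pool.Agent.Helper1.BD8.Ufund

/-!
Doubling: `Y s a`, `Y s b`, `2 ≤ s` imply `Y (s+1) (a*b)`.
-/

set_option autoImplicit false

namespace Pool.Agent.Helper1.BD8

open Pool.Agent.Helper99.BD8

section abstract

variable {K : Type*} [IdemSemiring K]

theorem mv {p b B : K} (hbp : b * p ≤ p * b + B) (n : ℕ) : ∀ X Y : K,
    (∀ i j, i + j + 1 = n → X * p ^ i * B * p ^ j * Y ≤ 0) → X * p ^ n * b * Y ≤ 0 →
    X * b * p ^ n * Y ≤ 0 := by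
  induction n with
  | zero =>
    intro X Y _ h
    simpa using h
  | succ n ih =>
    intro X Y h1 h2
    calc X * b * p ^ (n + 1) * Y = X * (b * p) * p ^ n * Y := by
          rw [pow_succ']; simp only [mul_assoc]
      _ ≤ X * (p * b + B) * p ^ n * Y := by gcongr
      _ = (X * p) * b * p ^ n * Y + X * p ^ 0 * B * p ^ n * Y := by
          rw [pow_zero]; simp only [mul_add, add_mul, mul_assoc, one_mul]
      _ ≤ 0 + 0 := by
          gcongr
          · apply ih
            · intro i j hij
              have := h1 (i + 1) j (by omega)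
              rw [pow_succ'] at this
              simpa only [mul_assoc] using this
            · rw [pow_succ'] at h2
              simpa only [mul_assoc] using h2
          · exact h1 0 n (by omega)
      _ = 0 := by simp

theorem mvB {p B : K} (h : B * p ≤ p * B + p) (n : ℕ) : B * p ^ n ≤ p ^ n * B + p ^ n := by
  induction n with
  | zero =>
    simp
  | succ n ih =>
    calc B * p ^ (n + 1) = (B * p) * p ^ n := by rw [pow_succ']; simp only [mul_assoc]
      _ ≤ (p * B + p) * p ^ n := by gcongr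
      _ = p * (B * p ^ n) + p ^ (n + 1) := by rw [pow_succ' p n]; simp only [add_mul, mul_assoc]
      _ ≤ p * (p ^ n * B + p ^ n) + p ^ (n + 1) := by gcongr
      _ = p ^ (n + 1) * B + p ^ (n + 1) := by
          rw [mul_add, ← mul_assoc, ← pow_succ', add_assoc, add_idem]

theorem mul4 {p a b m B : K} {s : ℕ} (hs : 2 ≤ s) (h1 : 1 ≤ p) (hm : m ≤ p) (ham : a ≤ m)
    (ha : a * p ^ s * a ≤ 0) (hb : b * p ^ s * b ≤ 0)
    (hB : B ≤ b * m + m * b) (hbp : b * p ≤ p * b + B) (hBp : B * p ≤ p * B + p) :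
    a * b * p ^ (s + 1) * (a * b) ≤ 0 := by
  have hb' : ∀ X, X ≤ p ^ s → b * X * b ≤ 0 := fun X hX => by
    calc b * X * b ≤ b * p ^ s * b := by gcongr
      _ ≤ 0 := hb
  have hap : a ≤ p := ham.trans hm
  have hp1 : p ≤ p ^ s := by
    calc p = p ^ 1 := (pow_one p).symm
      _ ≤ p ^ s := pow_le_pow_right' h1 (by omega)
  have hp2 : p * p ≤ p ^ s := by
    calc p * p = p ^ 2 := (pow_two p).symm
      _ ≤ p ^ s := pow_le_pow_right' h1 (by omega)
  have hbab : b * a * b ≤ 0 := hb' a (hap.trans hp1)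
  have hbmab : b * (m * a) * b ≤ 0 := hb' (m * a) (by
    calc m * a ≤ p * p := by gcongr
      _ ≤ p ^ s := hp2)
  apply mv hbp (s + 1) a (a * b)
  · intro i j hij
    have hij' : i + j = s := by omega
    calc a * p ^ i * B * p ^ j * (a * b) = a * p ^ i * (B * p ^ j) * (a * b) := by
          simp only [mul_assoc]
      _ ≤ a * p ^ i * (p ^ j * B + p ^ j) * (a * b) := by
          gcongr
          exact mvB hBp j
      _ = a * p ^ s * B * (a * b) + (a * p ^ s * a) * b := by
          rw [← hij', pow_add]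
          simp only [mul_add, add_mul, mul_assoc]
      _ ≤ a * p ^ s * (b * m + m * b) * (a * b) + 0 * b := by
          gcongr
      _ = a * p ^ s * (b * (m * a) * b) + a * p ^ s * m * (b * a * b) := by
          simp only [mul_add, add_mul, mul_assoc, zero_mul, add_zero]
      _ ≤ a * p ^ s * 0 + a * p ^ s * m * 0 := by gcongr
      _ = 0 := by simp
  · calc a * p ^ (s + 1) * b * (a * b) = a * p ^ (s + 1) * (b * a * b) := by
          simp only [mul_assoc]
      _ ≤ a * p ^ (s + 1) * 0 := by gcongr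
      _ = 0 := by simp

theorem mul4' {p a b m B : K} {s : ℕ} (hs : 2 ≤ s) (h1 : 1 ≤ p) (hm : m ≤ p)
    (ha : a * p ^ s * a ≤ 0) (hb : b * p ^ s * b ≤ 0) (hBm : B ≤ m)
    (hB : B ≤ b * m + m * b) (hbp : b * p ≤ p * b + B) (hpb : p * b ≤ b * p + B)
    (hBp : B * p ≤ p * B + p) :
    a * b * p ^ (s + 1) * (b * a) ≤ 0 := by
  have hb' : ∀ X, X ≤ p ^ s → b * X * b ≤ 0 := fun X hX => by
    calc b * X * b ≤ b * p ^ s * b := by gcongr
      _ ≤ 0 := hb
  have hp1 : p ≤ p ^ s := by
    calc p = p ^ 1 := (pow_one p).symm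
      _ ≤ p ^ s := pow_le_pow_right' h1 (by omega)
  have hp2 : p * p ≤ p ^ s := by
    calc p * p = p ^ 2 := (pow_two p).symm
      _ ≤ p ^ s := pow_le_pow_right' h1 (by omega)
  have hp0 : 1 ≤ p ^ s := one_le_pow_of_one_le' h1 s
  obtain ⟨r, rfl⟩ : ∃ r, s = r + 1 := ⟨s - 1, by omega⟩
  have hBB : B * B ≤ 0 := by
    calc B * B ≤ (b * m + m * b) * (b * m + m * b) := by gcongr
      _ = (b * m * b) * m + b * (m * m) * b + (m * (b * 1 * b) * m + m * (b * m * b)) := by
          simp only [mul_add, add_mul, mul_assoc, mul_one]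
          abel
      _ ≤ 0 * m + 0 + (m * 0 * m + m * 0) := by
          gcongr
          · exact hb' m (hm.trans hp1)
          · exact hb' (m * m) (by
              calc m * m ≤ p * p := by gcongr
                _ ≤ _ := hp2)
          · exact hb' 1 hp0
          · exact hb' m (hm.trans hp1)
      _ = 0 := by simp
  have e1 : b * p ^ r * B ≤ 0 := by
    calc b * p ^ r * B ≤ b * p ^ r * (b * m + m * b) := by gcongr
      _ = b * p ^ r * b * m + b * (p ^ r * m) * b := by simp only [mul_add, mul_assoc]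
      _ ≤ 0 * m + 0 := by
          gcongr
          · exact hb' _ (pow_le_pow_right' h1 (by omega))
          · apply hb'
            calc p ^ r * m ≤ p ^ r * p := by gcongr
              _ = p ^ (r + 1) := (pow_succ p r).symm
      _ = 0 := by simp
  have e2 : B * p ^ r * b ≤ 0 := by
    calc B * p ^ r * b ≤ (b * m + m * b) * p ^ r * b := by gcongr
      _ = b * (m * p ^ r) * b + m * (b * p ^ r * b) := by simp only [add_mul, mul_assoc]
      _ ≤ 0 + m * 0 := by
          gcongr
          · apply hb'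
            calc m * p ^ r ≤ p * p ^ r := by gcongr
              _ = p ^ (r + 1) := (pow_succ' p r).symm
          · exact hb' _ (pow_le_pow_right' h1 (by omega))
      _ = 0 := by simp
  have e3 : a * B * p ^ r * B * a ≤ 0 := by
    calc a * B * p ^ r * B * a = a * (B * p ^ r) * B * a := by simp only [mul_assoc]
      _ ≤ a * (p ^ r * B + p ^ r) * B * a := by
          gcongr
          exact mvB hBp r
      _ = a * p ^ r * (B * B) * a + a * (p ^ r * B) * a := by
          simp only [mul_add, add_mul, mul_assoc]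
      _ ≤ a * p ^ r * 0 * a + a * p ^ (r + 1) * a := by
          gcongr
          calc p ^ r * B ≤ p ^ r * p := by gcongr; exact hBm.trans hm
            _ = p ^ (r + 1) := (pow_succ p r).symm
      _ ≤ 0 + 0 := by
          gcongr
          simp
      _ = 0 := by simp
  calc a * b * p ^ (r + 1 + 1) * (b * a) = a * (b * p) * p ^ r * (p * b) * a := by
        rw [pow_succ p (r + 1), pow_succ' p r]; simp only [mul_assoc]
    _ ≤ a * (p * b + B) * p ^ r * (b * p + B) * a := by gcongr
    _ = a * p * (b * p ^ r * b) * p * a + a * p * (b * p ^ r * B) * a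
        + (a * (B * p ^ r * b) * p * a + a * B * p ^ r * B * a) := by
        simp only [mul_add, add_mul, mul_assoc]
        abel
    _ ≤ a * p * 0 * p * a + a * p * 0 * a + (a * 0 * p * a + 0) := by
        gcongr
        exact hb' _ (pow_le_pow_right' h1 (by omega))
    _ = 0 := by simp

end abstract

section

variable {A : Type} [NonUnitalNonAssocRing A]

/-- the span of `T t x` -/
def O (x : A) : Submodule ℤ (AddMonoid.End A) := Submodule.span ℤ (Set.range fun t => T t x)

/-- the span of all one-sided multiplications -/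
def MM (A : Type) [NonUnitalNonAssocRing A] : Submodule ℤ (AddMonoid.End A) :=
  Submodule.span ℤ (Set.range fun p : Bool × A => T p.1 p.2)

/-- the span of words of length at most one -/
def PP (A : Type) [NonUnitalNonAssocRing A] : Submodule ℤ (AddMonoid.End A) := 1 + MM A

/-- the span of the multiplications by `b u`, `u b` -/
def BB (b : A) : Submodule ℤ (AddMonoid.End A) :=
  Submodule.span ℤ ((Set.range fun p : Bool × A => T p.1 (b * p.2)) ∪
    (Set.range fun p : Bool × A => T p.1 (p.2 * b)))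

theorem T_mem_O (t : Bool) (x : A) : T t x ∈ O x := Submodule.subset_span ⟨t, rfl⟩

theorem T_mem_M (t : Bool) (x : A) : T t x ∈ MM A := Submodule.subset_span ⟨(t, x), rfl⟩

theorem O_le_M (x : A) : O x ≤ MM A := by
  refine Submodule.span_le.2 ?_
  rintro _ ⟨t, rfl⟩
  exact T_mem_M t x

theorem M_le_P : MM A ≤ PP A := le_sup_right

theorem one_le_P : 1 ≤ PP A := le_sup_left

theorem T_mem_B (t : Bool) (b u : A) : T t (b * u) ∈ BB b :=
  Submodule.subset_span (Or.inl ⟨(t, u), rfl⟩)

theorem T_mem_B' (t : Bool) (b u : A) : T t (u * b) ∈ BB b :=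
  Submodule.subset_span (Or.inr ⟨(t, u), rfl⟩)

theorem B_le_M (b : A) : BB b ≤ MM A := by
  refine Submodule.span_le.2 ?_
  rintro _ (⟨p, rfl⟩ | ⟨p, rfl⟩)
  · exact T_mem_M _ _
  · exact T_mem_M _ _

theorem W_mem (n : ℕ) : ∀ w : List (Bool × A), w.length ≤ n → W w ∈ PP A ^ n := by
  induction n with
  | zero =>
    intro w hw
    have : w = [] := List.length_eq_zero_iff.1 (by omega)
    subst this
    rw [W_nil, pow_zero]
    exact Submodule.one_le.1 le_rfl
  | succ n ih =>
    intro w hw
    cases w with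
    | nil =>
      have : (1 : Submodule ℤ (AddMonoid.End A)) ≤ PP A ^ (n + 1) := one_le_pow_of_one_le' one_le_P _
      rw [W_nil]
      exact this (Submodule.one_le.1 le_rfl)
    | cons p w =>
      rw [W_cons, pow_succ']
      exact Submodule.mul_mem_mul (M_le_P (T_mem_M _ _)) (ih w (by simpa using hw))

theorem P_pow_le (n : ℕ) : PP A ^ n ≤ Submodule.span ℤ {f | ∃ w : List (Bool × A), w.length ≤ n ∧ f = W w} := by
  induction n with
  | zero =>
    rw [pow_zero, Submodule.one_le]
    exact Submodule.subset_span ⟨[], le_refl _, rfl⟩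
  | succ n ih =>
    rw [pow_succ', PP, add_mul, one_mul]
    refine sup_le ?_ ?_
    · refine ih.trans (Submodule.span_mono ?_)
      rintro f ⟨w, hw, rfl⟩
      exact ⟨w, by omega, rfl⟩
    · calc MM A * (1 + MM A) ^ n ≤ MM A * _ := mul_le_mul_right ih _
        _ ≤ _ := by
          rw [MM, Submodule.span_mul_span]
          refine Submodule.span_le.2 ?_
          rintro _ ⟨_, ⟨p, rfl⟩, _, ⟨w, hw, rfl⟩, rfl⟩
          refine Submodule.subset_span ⟨p :: w, by simpa using hw, ?_⟩
          rw [W_cons]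

theorem Y_le {s : ℕ} {a : A} (h : Y s a) : O a * PP A ^ s * O a ≤ 0 := by
  calc O a * PP A ^ s * O a
      ≤ O a * Submodule.span ℤ {f | ∃ w : List (Bool × A), w.length ≤ s ∧ f = W w} * O a := by
        gcongr
        exact P_pow_le s
    _ ≤ 0 := by
      rw [O, Submodule.span_mul_span, Submodule.span_mul_span]
      refine Submodule.span_le.2 ?_
      rintro _ ⟨_, ⟨_, ⟨t, rfl⟩, _, ⟨w, hw, rfl⟩, rfl⟩, _, ⟨t', rfl⟩, rfl⟩
      have := h.2 t t' w hw
      change T t a * W w * T t' a ∈ (0 : Submodule ℤ (AddMonoid.End A))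
      rw [this]
      exact Submodule.zero_mem _

theorem Y_of_le {s : ℕ} {a : A} (h0 : a * a = 0) (h : O a * PP A ^ s * O a ≤ 0) : Y s a := by
  refine ⟨h0, fun t t' w hw => ?_⟩
  have h1 : T t a * W w * T t' a ∈ O a * PP A ^ s * O a :=
    Submodule.mul_mem_mul (Submodule.mul_mem_mul (T_mem_O t a) (W_mem s w hw)) (T_mem_O t' a)
  have := h h1
  simpa using this

variable (halt : Alt A)
include halt

theorem sp (x y : A) : O (x * y) ≤ O x * O y + O y * O x := by
  refine Submodule.span_le.2 ?_
  rintro _ ⟨t, rfl⟩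
  have h1 : ∀ t t', T t x * T t' y ∈ O x * O y + O y * O x := fun t t' =>
    (le_sup_left : O x * O y ≤ O x * O y ⊔ O y * O x)
      (Submodule.mul_mem_mul (T_mem_O t x) (T_mem_O t' y))
  have h2 : ∀ t t', T t y * T t' x ∈ O x * O y + O y * O x := fun t t' =>
    (le_sup_right : O y * O x ≤ O x * O y ⊔ O y * O x)
      (Submodule.mul_mem_mul (T_mem_O t y) (T_mem_O t' x))
  cases t
  · change T false (x * y) ∈ _
    rw [opR halt]
    exact Submodule.add_mem _ (Submodule.sub_mem _ (h2 _ _) (h1 _ _)) (h2 _ _)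
  · change T true (x * y) ∈ _
    rw [opL halt]
    exact Submodule.sub_mem _ (Submodule.add_mem _ (h1 _ _) (h1 _ _)) (h2 _ _)

theorem B_le (b : A) : BB b ≤ O b * MM A + MM A * O b := by
  refine Submodule.span_le.2 ?_
  rintro _ (⟨⟨t, u⟩, rfl⟩ | ⟨⟨t, u⟩, rfl⟩)
  · refine (show O (b * u) ≤ _ from ?_) (T_mem_O t _)
    calc O (b * u) ≤ O b * O u + O u * O b := sp halt b u
      _ ≤ _ := by
        gcongr
        · exact O_le_M u
        · exact O_le_M u
  · refine (show O (u * b) ≤ _ from ?_) (T_mem_O t _)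
    calc O (u * b) ≤ O u * O b + O b * O u := sp halt u b
      _ = O b * O u + O u * O b := add_comm _ _
      _ ≤ _ := by
        gcongr
        · exact O_le_M u
        · exact O_le_M u

/-- swapping two multiplications -/
theorem swp (S : Submodule ℤ (AddMonoid.End A)) (x y : A) (h1 : ∀ t t', T t y * T t' x ∈ S)
    (h2 : ∀ t, T t (x * y) ∈ S) (h3 : ∀ t, T t (y * x) ∈ S) (t t' : Bool) :
    T t x * T t' y ∈ S := by
  cases t <;> cases t'
  · have := opRR halt x y
    have e : T false x * T false y = T false (x * y) + T false (y * x) - T false y * T false x := by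
      rw [← this]; abel
    rw [e]
    exact Submodule.sub_mem _ (Submodule.add_mem _ (h2 _) (h3 _)) (h1 _ _)
  · rw [opRL halt]
    exact Submodule.sub_mem _ (Submodule.add_mem _ (h1 _ _) (h1 _ _)) (h2 _)
  · rw [opLR halt]
    exact Submodule.sub_mem _ (Submodule.add_mem _ (h1 _ _) (h1 _ _)) (h3 _)
  · have := opLL halt x y
    have e : T true x * T true y = T true (x * y) + T true (y * x) - T true y * T true x := by
      rw [← this]; abel
    rw [e]
    exact Submodule.sub_mem _ (Submodule.add_mem _ (h2 _) (h3 _)) (h1 _ _)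

theorem OM (b : A) : O b * MM A ≤ MM A * O b + BB b := by
  rw [O, MM, Submodule.span_mul_span]
  refine Submodule.span_le.2 ?_
  rintro _ ⟨_, ⟨t, rfl⟩, _, ⟨⟨t', u⟩, rfl⟩, rfl⟩
  change T t b * T t' u ∈ _
  apply swp halt
  · intro s s'
    refine (le_sup_left : _ ≤ _ ⊔ BB b) (Submodule.mul_mem_mul (T_mem_M s u) (T_mem_O s' b))
  · intro s
    exact (le_sup_right : _ ≤ _ ⊔ BB b) (T_mem_B _ _ _)
  · intro s
    exact (le_sup_right : _ ≤ _ ⊔ BB b) (T_mem_B' _ _ _)

theorem MO (b : A) : MM A * O b ≤ O b * MM A + BB b := by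
  rw [O, MM, Submodule.span_mul_span]
  refine Submodule.span_le.2 ?_
  rintro _ ⟨_, ⟨⟨t', u⟩, rfl⟩, _, ⟨t, rfl⟩, rfl⟩
  change T t' u * T t b ∈ _
  apply swp halt
  · intro s s'
    refine (le_sup_left : _ ≤ _ ⊔ BB b) (Submodule.mul_mem_mul (T_mem_O s b) (T_mem_M s' u))
  · intro s
    exact (le_sup_right : _ ≤ _ ⊔ BB b) (T_mem_B' _ _ _)
  · intro s
    exact (le_sup_right : _ ≤ _ ⊔ BB b) (T_mem_B _ _ _)

theorem BM (b : A) : BB b * MM A ≤ MM A * BB b + MM A := by
  have key : ∀ (x : A) (_ : ∀ t, T t x ∈ BB b) (t t' : Bool) (u : A),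
      T t x * T t' u ∈ MM A * BB b + MM A := by
    intro x hx t t' u
    apply swp halt
    · intro s s'
      refine (le_sup_left : _ ≤ _ ⊔ MM A) (Submodule.mul_mem_mul (T_mem_M s u) (hx s'))
    · intro s
      exact (le_sup_right : _ ≤ _ ⊔ MM A) (T_mem_M _ _)
    · intro s
      exact (le_sup_right : _ ≤ _ ⊔ MM A) (T_mem_M _ _)
  conv_lhs => rw [BB, MM, Submodule.span_mul_span]
  refine Submodule.span_le.2 ?_
  rintro _ ⟨_, (⟨⟨t, v⟩, rfl⟩ | ⟨⟨t, v⟩, rfl⟩), _, ⟨⟨t', u⟩, rfl⟩, rfl⟩
  · exact key (b * v) (fun t => T_mem_B t b v) t t' u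
  · exact key (v * b) (fun t => T_mem_B' t b v) t t' u

theorem doubling {s : ℕ} (hs : 2 ≤ s) {a b : A} (ha : Y s a) (hb : Y s b) :
    Y (s + 1) (a * b) := by
  have h0 : Y 0 a := ⟨ha.1, fun t t' w hw => ha.2 t t' w (by omega)⟩
  refine Y_of_le (Y0_mul halt h0 b).1.1 ?_
  have oP : ∀ b : A, O b * PP A ≤ PP A * O b + BB b := fun b => by
    calc O b * PP A = O b + O b * MM A := by rw [PP, mul_add, mul_one]
      _ ≤ O b + (MM A * O b + BB b) := by gcongr; exact OM halt b
      _ = PP A * O b + BB b := by rw [PP, add_mul, one_mul, add_assoc]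
  have Po : ∀ b : A, PP A * O b ≤ O b * PP A + BB b := fun b => by
    calc PP A * O b = O b + MM A * O b := by rw [PP, add_mul, one_mul]
      _ ≤ O b + (O b * MM A + BB b) := by gcongr; exact MO halt b
      _ = O b * PP A + BB b := by rw [PP, mul_add, mul_one, add_assoc]
  have BP : ∀ b : A, BB b * PP A ≤ PP A * BB b + PP A := fun b => by
    calc BB b * PP A = BB b + BB b * MM A := by rw [PP, mul_add, mul_one]
      _ ≤ BB b + (MM A * BB b + MM A) := by gcongr; exact BM halt b
      _ = PP A * BB b + MM A := by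
        conv_rhs => rw [PP, add_mul, one_mul]
        rw [add_assoc]
      _ ≤ _ := by gcongr; exact M_le_P
  have a1 := Y_le ha
  have b1 := Y_le hb
  calc O (a * b) * PP A ^ (s + 1) * O (a * b)
      ≤ (O a * O b + O b * O a) * PP A ^ (s + 1) * (O a * O b + O b * O a) := by
        gcongr <;> exact sp halt a b
    _ = (O a * O b * PP A ^ (s + 1) * (O a * O b) + O a * O b * PP A ^ (s + 1) * (O b * O a))
      + (O b * O a * PP A ^ (s + 1) * (O a * O b) + O b * O a * PP A ^ (s + 1) * (O b * O a)) := by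
        simp only [mul_add, add_mul]
        abel
    _ ≤ (0 + 0) + (0 + 0) := by
        gcongr
        · exact mul4 hs one_le_P M_le_P (O_le_M a) a1 b1 (B_le halt b) (oP b) (BP b)
        · exact mul4' hs one_le_P M_le_P a1 b1 (B_le_M b) (B_le halt b) (oP b) (Po b) (BP b)
        · exact mul4' hs one_le_P M_le_P b1 a1 (B_le_M a) (B_le halt a) (oP a) (Po a) (BP a)
        · exact mul4 hs one_le_P M_le_P (O_le_M b) b1 a1 (B_le halt a) (oP a) (BP a)
    _ = 0 := by simp

end

end Pool.Agent.Helper1.BD8
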