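import Mathlib
import Pool.Agent.Helper99.BD8.Defs
import Pool.Agent.Helper99.BD8.Levels0
import Pool.Agent.Helper1.BD8.Ufund
import Pool.Agent.Helper1.BD8.Doubling

/-!
From the level statements to the existence of a sandwich.
-/

set_option autoImplicit false

namespace Pool.Agent.Helper1.BD8

open Pool.Agent.Helper99.BD8

section

variable {A : Type} [NonUnitalNonAssocRing A]

theorem Y_mono {s t : ℕ} (h : s ≤ t) {a : A} (ha : Y t a) : Y s a :=
  ⟨ha.1, fun t t' w hw => ha.2 t t' w (by omega)⟩

theorem T_map (g : RingAut A) (t : Bool) (a x : A) : g (T t a x) = T t (g a) (g x) := by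
  cases t
  · exact map_mul g x a
  · exact map_mul g a x

theorem W_map (g : RingAut A) (w : List (Bool × A)) (x : A) :
    g (W w x) = W (w.map fun p => (p.1, g p.2)) (g x) := by
  induction w with
  | nil => rfl
  | cons p w ih =>
    rw [W_cons, List.map_cons, W_cons]
    change g (T p.1 p.2 (W w x)) = T p.1 (g p.2) (W _ (g x))
    rw [T_map, ih]

theorem Y_map (g : RingAut A) {s : ℕ} {a : A} (h : Y s a) : Y s (g a) := by
  refine ⟨by rw [← map_mul, h.1, map_zero], fun t t' w hw => ?_⟩
  ext z
  have h1 := h.2 t t' (w.map fun p => (p.1, g.symm p.2)) (by simpa using hw)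
  have h2 := congrArg (fun f : AddMonoid.End A => g (f (g.symm z))) h1
  change g (T t a (W _ (T t' a (g.symm z)))) = g 0 at h2
  rw [T_map, W_map, T_map, map_zero] at h2
  have h3 : (w.map fun p => (p.1, g.symm p.2)).map (fun p => (p.1, g p.2)) = w := by
    rw [List.map_map]
    conv_rhs => rw [← List.map_id w]
    apply List.map_congr_left
    intro p _
    simp
  rw [h3] at h2
  simpa using h2

/-- a bound valid on a finite set of orbits -/
theorem orb_bound (G : Subgroup (RingAut A)) (hG : OrbFin G) (p : ℕ → A → Prop)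
    (hmap : ∀ g ∈ G, ∀ n a, p n a → p n (g a)) (hmono : ∀ m n a, m ≤ n → p m a → p n a)
    (h : ∀ a, ∃ n, p n a) : ∃ n, ∀ a, p n a := by
  obtain ⟨F, hF, hF'⟩ := hG 1
  choose N hN using h
  obtain ⟨n, hn⟩ : ∃ n, ∀ f ∈ F, N (f 0) ≤ n := by
    obtain ⟨n, hn⟩ := (hF.image fun f => N (f 0)).bddAbove
    exact ⟨n, fun f hf => hn ⟨f, hf, rfl⟩⟩
  refine ⟨n, fun a => ?_⟩
  obtain ⟨g, hg, f, hf, hfa⟩ := hF' (fun _ => a)
  have : a = g (f 0) := hfa 0
  rw [this]
  exact hmap g hg n _ (hmono _ _ _ (hn f hf) (hN (f 0)))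

theorem O_W_le (halt : Alt A) (u : A) (v : List (Bool × A)) :
    O (W v u) ≤ PP A ^ v.length * O u * PP A ^ v.length := by
  induction v with
  | nil => simp
  | cons p v ih =>
    have h1 : O (W (p :: v) u) ≤ O p.2 * O (W v u) + O (W v u) * O p.2 := by
      rw [W_cons]
      change O (T p.1 p.2 (W v u)) ≤ _
      rcases p with ⟨t, x⟩
      cases t
      · change O (W v u * x) ≤ _
        rw [add_comm]
        exact sp halt _ _
      · exact sp halt _ _
    have h2 : O p.2 ≤ PP A := (O_le_M _).trans M_le_P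
    have h3 : (1 : Submodule ℤ (AddMonoid.End A)) ≤ PP A := one_le_P
    have h4 : PP A ^ v.length ≤ PP A ^ (v.length + 1) := pow_le_pow_right' h3 (by omega)
    rw [List.length_cons]
    calc O (W (p :: v) u) ≤ O p.2 * O (W v u) + O (W v u) * O p.2 := h1
      _ ≤ PP A * (PP A ^ v.length * O u * PP A ^ v.length)
          + (PP A ^ v.length * O u * PP A ^ v.length) * PP A := by gcongr
      _ = PP A ^ (v.length + 1) * O u * PP A ^ v.length
          + PP A ^ v.length * O u * PP A ^ (v.length + 1) := by
          have h5 : PP A * PP A ^ v.length = PP A ^ (v.length + 1) := (pow_succ' _ _).symm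
          have h6 : PP A ^ v.length * PP A = PP A ^ (v.length + 1) := (pow_succ _ _).symm
          rw [← mul_assoc, ← mul_assoc, h5, mul_assoc (PP A ^ v.length * O u), h6]
      _ ≤ PP A ^ (v.length + 1) * O u * PP A ^ (v.length + 1)
          + PP A ^ (v.length + 1) * O u * PP A ^ (v.length + 1) := by gcongr
      _ = _ := add_idem _

theorem kill {u : A} (h : ∀ s, Y s u) (m : ℕ) (q : AddMonoid.End A) (hq : q ∈ PP A ^ m)
    (x : AddMonoid.End A) (hx : x ∈ O u) : x (q u) = 0 := by
  have hq' := P_pow_le m hq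
  clear hq
  induction hq' using Submodule.span_induction with
  | zero =>
    change x 0 = 0
    exact map_zero _
  | add q q' _ _ ih ih' =>
    change x (q u + q' u) = 0
    rw [map_add, ih, ih', add_zero]
  | smul c q _ ih =>
    change x (c • q u) = 0
    rw [map_zsmul, ih, smul_zero]
  | mem q hq =>
    obtain ⟨w, _, rfl⟩ := hq
    induction hx using Submodule.span_induction with
    | zero => rfl
    | add x x' _ _ ih ih' =>
      change x (W w u) + x' (W w u) = 0
      rw [ih, ih', add_zero]
    | smul c x _ ih =>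
      change c • x (W w u) = 0
      rw [ih, smul_zero]
    | mem x hx =>
      obtain ⟨t, rfl⟩ := hx
      rcases List.eq_nil_or_concat w with rfl | ⟨w', p, rfl⟩
      · have := (h 0).1
        cases t <;> exact this
      · have h1 := (h w'.length).2 t (!p.1) w' (le_refl _)
        have h2 := congrArg (fun f : AddMonoid.End A => f p.2) h1
        change T t u (W w' (T (!p.1) u p.2)) = 0 at h2
        have h3 : T (!p.1) u p.2 = T p.1 p.2 u := by
          rcases p with ⟨t', y⟩
          cases t' <;> rfl
        rw [h3] at h2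
        rw [List.concat_eq_append, W_append, W_cons, W_nil, mul_one]
        exact h2

theorem sandwich_of_Y (halt : Alt A) {u : A} (h : ∀ s, Y s u) : Sandwich u := by
  intro v w
  have h1 : ∀ f ∈ PP A ^ v.length * O u * PP A ^ v.length, f (W w u) = 0 := by
    intro f hf
    induction hf using Submodule.mul_induction_on' with
    | mem_mul_mem x hx y hy =>
      induction hx using Submodule.mul_induction_on' with
      | mem_mul_mem a ha b hb =>
        change a (b (y (W w u))) = 0
        have := kill h (v.length + w.length) (y * W w) (by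
          rw [pow_add]
          exact Submodule.mul_mem_mul hy (W_mem _ _ (le_refl _))) b hb
        change b (y (W w u)) = 0 at this
        rw [this, map_zero]
      | add a _ b _ iha ihb =>
        rw [add_mul]
        change (a * y) (W w u) + (b * y) (W w u) = 0
        rw [iha, ihb, add_zero]
    | add a _ b _ iha ihb =>
      change a (W w u) + b (W w u) = 0
      rw [iha, ihb, add_zero]
  exact h1 _ (O_W_le halt u v (T_mem_O true _))

/-- if `Y s` is stable under multiplication by a generating set, then `closure (Y s)` is an ideal -/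
theorem closure_idl {S T' : Set A} (hT : AddSubgroup.closure T' = ⊤)
    (h : ∀ a ∈ S, ∀ b ∈ T', a * b ∈ S ∧ b * a ∈ S) : IsIdl (AddSubgroup.closure S) := by
  intro a ha x
  have hx : x ∈ AddSubgroup.closure T' := by rw [hT]; trivial
  induction ha using AddSubgroup.closure_induction with
  | zero => rw [zero_mul, mul_zero]; exact ⟨AddSubgroup.zero_mem _, AddSubgroup.zero_mem _⟩
  | add a a' _ _ ih ih' =>
    rw [add_mul, mul_add]
    exact ⟨AddSubgroup.add_mem _ ih.1 ih'.1, AddSubgroup.add_mem _ ih.2 ih'.2⟩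
  | neg a _ ih =>
    rw [neg_mul, mul_neg]
    exact ⟨AddSubgroup.neg_mem _ ih.1, AddSubgroup.neg_mem _ ih.2⟩
  | mem a ha =>
    induction hx using AddSubgroup.closure_induction with
    | zero => rw [zero_mul, mul_zero]; exact ⟨AddSubgroup.zero_mem _, AddSubgroup.zero_mem _⟩
    | add x x' _ _ ih ih' =>
      rw [add_mul, mul_add]
      exact ⟨AddSubgroup.add_mem _ ih.1 ih'.1, AddSubgroup.add_mem _ ih.2 ih'.2⟩
    | neg x _ ih =>
      rw [neg_mul, mul_neg]
      exact ⟨AddSubgroup.neg_mem _ ih.1, AddSubgroup.neg_mem _ ih.2⟩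
    | mem x hx => exact ⟨AddSubgroup.subset_closure (h a ha x hx).1,
        AddSubgroup.subset_closure (h a ha x hx).2⟩

theorem closure_top {G : Subgroup (RingAut A)} (hs : GSimple G) {S : Set A}
    (hG : ∀ g ∈ G, ∀ a ∈ S, g a ∈ S) (hI : IsIdl (AddSubgroup.closure S))
    (hne : ∃ a : A, a ≠ 0 ∧ a ∈ S) : AddSubgroup.closure S = ⊤ := by
  rcases hs (AddSubgroup.closure S) hI (by
    intro g hg a ha
    induction ha using AddSubgroup.closure_induction with
    | zero => rw [map_zero]; exact AddSubgroup.zero_mem _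
    | add a a' _ _ ih ih' => rw [map_add]; exact AddSubgroup.add_mem _ ih ih'
    | neg a _ ih => rw [map_neg]; exact AddSubgroup.neg_mem _ ih
    | mem a ha => exact AddSubgroup.subset_closure (hG g hg a ha)) with h | h
  · exfalso
    obtain ⟨a, ha, ha'⟩ := hne
    have : a ∈ AddSubgroup.closure S := AddSubgroup.subset_closure ha'
    rw [h] at this
    exact ha (AddSubgroup.mem_bot.1 this)
  · exact h

theorem closure_mul {S T' : Set A} (hS : AddSubgroup.closure S = ⊤) (hp : Perf A)
    (h : ∀ a ∈ S, ∀ b ∈ S, a * b ∈ T') : AddSubgroup.closure T' = ⊤ := by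
  rw [eq_top_iff, ← hp, AddSubgroup.closure_le]
  rintro _ ⟨u, v, rfl⟩
  have hu : u ∈ AddSubgroup.closure S := by rw [hS]; trivial
  have hv : v ∈ AddSubgroup.closure S := by rw [hS]; trivial
  change u * v ∈ AddSubgroup.closure T'
  induction hu using AddSubgroup.closure_induction with
  | zero => rw [zero_mul]; exact AddSubgroup.zero_mem _
  | add a a' _ _ ih ih' => rw [add_mul]; exact AddSubgroup.add_mem _ ih ih'
  | neg a _ ih => rw [neg_mul]; exact AddSubgroup.neg_mem _ ih
  | mem a ha =>
    induction hv using AddSubgroup.closure_induction with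
    | zero => rw [mul_zero]; exact AddSubgroup.zero_mem _
    | add x x' _ _ ih ih' => rw [mul_add]; exact AddSubgroup.add_mem _ ih ih'
    | neg x _ ih => rw [mul_neg]; exact AddSubgroup.neg_mem _ ih
    | mem x hx => exact AddSubgroup.subset_closure (h a ha x hx)

end

theorem hex_of_levels
    (level0_exists : ∀ (A : Type) [NonUnitalNonAssocRing A], Alt A →
      AddSubgroup.closure {a : A | Y 0 a} = ⊤ → (∃ a : A, a ≠ 0 ∧ Y 0 a) →
      ∃ a : A, a ≠ 0 ∧ Y 1 a)
    (level0_mul : ∀ (A : Type) [NonUnitalNonAssocRing A], Alt A → ∀ a b : A, Y 1 a → Y 0 b →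
      Y 1 (a * b) ∧ Y 1 (b * a))
    (level1_exists : ∀ (A : Type) [NonUnitalNonAssocRing A], Alt A →
      AddSubgroup.closure {a : A | Y 1 a} = ⊤ → (∃ a : A, a ≠ 0 ∧ Y 1 a) →
      ∃ a : A, a ≠ 0 ∧ Y 2 a)
    (level1_mul : ∀ (A : Type) [NonUnitalNonAssocRing A], Alt A → ∀ a b : A, Y 2 a → Y 1 b →
      Y 2 (a * b) ∧ Y 2 (b * a)) :
    ∀ (B : Type) [NonUnitalNonAssocRing B] (G : Subgroup (RingAut B)), Alt B → Nil B →
      OrbFin G → GSimple G → Perf B → (∃ b : B, b ≠ 0) → ∃ u : B, u ≠ 0 ∧ Sandwich u := by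
  intro B _ G halt hnil horb hs hp hne
  -- uniform nil index
  obtain ⟨n, hn⟩ := orb_bound G horb (fun n a => pw n a = 0) (by
    intro g _ n a ha
    have : pw n (g a) = g (pw n a) := by
      clear ha
      induction n with
      | zero => rfl
      | succ n ih => rw [pw_succ, pw_succ, ih, map_mul]
    rw [this, ha, map_zero]) (by
    intro m n a hmn h
    induction hmn with
    | refl => exact h
    | step _ ih => rw [pw_succ, ih, zero_mul]) hnil
  have hne0 := azd halt n hn hne
  have hG : ∀ s, ∀ g ∈ G, ∀ a ∈ {a : B | Y s a}, g a ∈ {a : B | Y s a} :=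
    fun s g _ a ha => Y_map g ha
  have c0 : AddSubgroup.closure {a : B | Y 0 a} = ⊤ :=
    closure_top hs (hG 0) (closure_idl (T' := Set.univ) AddSubgroup.closure_univ
      (fun a ha b _ => Y0_mul halt ha b)) hne0
  have hne1 := level0_exists B halt c0 hne0
  have c1 : AddSubgroup.closure {a : B | Y 1 a} = ⊤ :=
    closure_top hs (hG 1) (closure_idl c0 (fun a ha b hb => level0_mul B halt a b ha hb)) hne1
  have hne2 := level1_exists B halt c1 hne1
  have c2 : AddSubgroup.closure {a : B | Y 2 a} = ⊤ :=
    closure_top hs (hG 2) (closure_idl c1 (fun a ha b hb => level1_mul B halt a b ha hb)) hne2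
  have c : ∀ s, AddSubgroup.closure {a : B | Y (s + 2) a} = ⊤ := by
    intro s
    induction s with
    | zero => exact c2
    | succ s ih =>
      exact closure_mul ih hp (fun a ha b hb => doubling halt (by omega) ha hb)
  -- stabilization
  obtain ⟨S, hS⟩ := orb_bound G horb (fun n a => Y n a → ∀ s, Y s a) (by
    intro g _ n a h h' s
    have h1 : Y n a := by
      have := Y_map g⁻¹ h'
      rw [← RingAut.mul_apply, inv_mul_cancel, RingAut.one_apply] at this
      exact this
    exact Y_map g (h h1 s)) (by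
    intro m n a hmn h h' 
    exact h (Y_mono hmn h')) (by
    intro a
    by_cases h : ∀ s, Y s a
    · exact ⟨0, fun _ => h⟩
    · push Not at h
      obtain ⟨s, hs⟩ := h
      exact ⟨s, fun h => absurd h hs⟩)
  obtain ⟨u, hu, hu0⟩ : ∃ u : B, Y (S + 2) u ∧ u ≠ 0 := by
    by_contra hcon
    push Not at hcon
    have h1 : AddSubgroup.closure {a : B | Y (S + 2) a} = ⊥ := by
      rw [eq_bot_iff, AddSubgroup.closure_le]
      intro a ha
      exact AddSubgroup.mem_bot.2 (hcon a ha)
    rw [c S] at h1
    obtain ⟨b, hb⟩ := hne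
    have : b ∈ (⊤ : AddSubgroup B) := trivial
    rw [h1] at this
    exact hb (AddSubgroup.mem_bot.1 this)
  exact ⟨u, hu0, sandwich_of_Y halt (hS u (Y_mono (by omega) hu))⟩

end Pool.Agent.Helper1.BD8
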